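import Mathlib

set_option autoImplicit false

namespace Pool.Agent.Helper255.CR

/-- `S` is a subquotient of `M`: a quotient of a submodule. -/
def IsSubq (A S M : Type*) [Ring A] [AddCommGroup S] [Module A S] [AddCommGroup M] [Module A M] :
    Prop := ∃ (W : Submodule A M) (φ : W →ₗ[A] S), Function.Surjective φ

/-- the representation `τ` on `S` is a subquotient of the representation `ρ` on `V`: there are an
invariant subspace `W` of `V` and an equivariant surjection `W → S` -/
def IsCompFactor {F H V S : Type*} [Field F] [Group H] [AddCommGroup V] [Module F V]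
    [AddCommGroup S] [Module F S] (τ : Representation F H S) (ρ : Representation F H V) : Prop :=
  ∃ (W : Submodule F V) (hW : ∀ h : H, ∀ w ∈ W, ρ h w ∈ W) (φ : W →ₗ[F] S),
    Function.Surjective φ ∧ ∀ (h : H) (w : W), φ ⟨ρ h w.1, hW h w.1 w.2⟩ = τ h (φ w)

theorem subq_equiv {A S M M' : Type*} [Ring A] [AddCommGroup S] [Module A S] [AddCommGroup M]
    [Module A M] [AddCommGroup M'] [Module A M'] (e : M ≃ₗ[A] M') (h : IsSubq A S M) :
    IsSubq A S M' := by
  obtain ⟨W, φ, hφ⟩ := h
  refine ⟨W.map (e : M →ₗ[A] M'), φ ∘ₗ (e.submoduleMap W).symm.toLinearMap, ?_⟩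
  intro s
  obtain ⟨w, hw⟩ := hφ s
  refine ⟨e.submoduleMap W w, ?_⟩
  simp [hw]

theorem subq_prod {A S M M' : Type*} [Ring A] [AddCommGroup S] [Module A S] [AddCommGroup M]
    [Module A M] [AddCommGroup M'] [Module A M'] [IsSimpleModule A S]
    (h : IsSubq A S (M × M')) : IsSubq A S M ∨ IsSubq A S M' := by
  obtain ⟨W, φ, hφ⟩ := h
  let W' : Submodule A M := W.comap (LinearMap.inl A M M')
  let g : W' →ₗ[A] W := (LinearMap.inl A M M').restrict (fun x hx => hx)
  by_cases h0 : φ ∘ₗ g = 0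
  · right
    let f : W →ₗ[A] (W.map (LinearMap.snd A M M')) :=
      (LinearMap.snd A M M').restrict (fun x hx => Submodule.mem_map_of_mem hx)
    have hf : Function.Surjective f := by
      rintro ⟨y, hy⟩
      obtain ⟨x, hx, hxy⟩ := Submodule.mem_map.mp hy
      exact ⟨⟨x, hx⟩, Subtype.ext hxy⟩
    have hker : LinearMap.ker f ≤ LinearMap.ker φ := by
      intro x hx
      rw [LinearMap.mem_ker] at hx ⊢
      have h2 : x.1.2 = 0 := by
        have := congrArg Subtype.val hx
        exact this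
      have hx1 : (LinearMap.inl A M M') x.1.1 = x.1 := by
        apply Prod.ext
        · rfl
        · simp [h2]
      have hW : x.1.1 ∈ W' := by
        show (LinearMap.inl A M M') x.1.1 ∈ W
        rw [hx1]; exact x.2
      have h3 : g ⟨x.1.1, hW⟩ = x := Subtype.ext hx1
      have h4 := LinearMap.congr_fun h0 ⟨x.1.1, hW⟩
      rw [LinearMap.comp_apply, h3] at h4
      simpa using h4
    refine ⟨W.map (LinearMap.snd A M M'),
      (Submodule.liftQ (LinearMap.ker f) φ hker) ∘ₗ (f.quotKerEquivOfSurjective hf).symm.toLinearMap, ?_⟩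
    intro s
    obtain ⟨w, hw⟩ := hφ s
    refine ⟨f w, ?_⟩
    have h5 : (f.quotKerEquivOfSurjective hf).symm (f w) = Submodule.Quotient.mk w := by
      rw [LinearEquiv.symm_apply_eq]
      rfl
    simp only [LinearMap.comp_apply, LinearEquiv.coe_coe, h5]
    exact hw
  · left
    refine ⟨W', φ ∘ₗ g, ?_⟩
    exact LinearMap.surjective_of_ne_zero h0

theorem subq_pi {A S M : Type*} [Ring A] [AddCommGroup S] [Module A S] [AddCommGroup M]
    [Module A M] [IsSimpleModule A S] (n : ℕ) (h : IsSubq A S (Fin n → M)) : IsSubq A S M := by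
  induction n with
  | zero =>
    exfalso
    obtain ⟨W, φ, hφ⟩ := h
    have hn : Nontrivial S := IsSimpleModule.nontrivial A S
    obtain ⟨s, hs⟩ := exists_ne (0 : S)
    obtain ⟨w, hw⟩ := hφ s
    apply hs
    rw [← hw]
    have : w = 0 := Subtype.ext (Subsingleton.elim _ _)
    rw [this, map_zero]
  | succ n ih =>
    have h2 := subq_equiv (Fin.consLinearEquiv A (fun _ : Fin (n+1) => M)).symm h
    rcases subq_prod h2 with h3 | h3
    · exact h3
    · exact ih h3

/-- a simple module over a finite-dimensional faithful module's algebra is a subquotient -/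
theorem subq_of_faithful {F A M S : Type*} [Field F] [Ring A] [Algebra F A] [AddCommGroup M]
    [Module F M] [Module A M] [IsScalarTower F A M] [FiniteDimensional F M]
    [AddCommGroup S] [Module A S] [IsSimpleModule A S]
    (hf : ∀ a : A, (∀ m : M, a • m = 0) → a = 0) : IsSubq A S M := by
  let b := Module.finBasis F M
  let f : A →ₗ[A] (Fin (Module.finrank F M) → M) :=
    LinearMap.pi (fun i => LinearMap.toSpanSingleton A M (b i))
  have hinj : Function.Injective f := by
    rw [injective_iff_map_eq_zero]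
    intro a ha
    apply hf
    intro m
    have hb : ∀ i, a • b i = 0 := by
      intro i
      have := congrFun ha i
      simpa [f] using this
    rw [← b.sum_repr m, Finset.smul_sum]
    refine Finset.sum_eq_zero (fun i _ => ?_)
    rw [smul_comm, hb, smul_zero]
  have hn : Nontrivial S := IsSimpleModule.nontrivial A S
  obtain ⟨s, hs⟩ := exists_ne (0 : S)
  have hsurj : Function.Surjective (LinearMap.toSpanSingleton A S s) :=
    IsSimpleModule.toSpanSingleton_surjective A hs
  apply subq_pi (Module.finrank F M)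
  refine ⟨LinearMap.range f,
    (LinearMap.toSpanSingleton A S s) ∘ₗ (LinearEquiv.ofInjective f hinj).symm.toLinearMap, ?_⟩
  intro t
  obtain ⟨a, ha⟩ := hsurj t
  refine ⟨LinearEquiv.ofInjective f hinj a, ?_⟩
  simp only [LinearMap.comp_apply, LinearEquiv.coe_coe, LinearEquiv.symm_apply_apply]
  exact ha

/-- if the group algebra acts faithfully on `V` then every irreducible representation is a
subquotient of `V` -/
theorem compFactor_of_faithful {F H V S : Type*} [Field F] [Group H] [AddCommGroup V] [Module F V]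
    [AddCommGroup S] [Module F S] [FiniteDimensional F V] (τ : Representation F H S)
    (ρ : Representation F H V) (hτ : τ.IsIrreducible)
    (hf : ∀ a : H →₀ F, (∀ v : V, (a.sum fun h c => c • ρ h v) = 0) → a = 0) :
    IsCompFactor τ ρ := by
  have hs : IsSimpleModule (MonoidAlgebra F H) τ.asModule :=
    (Representation.irreducible_iff_isSimpleModule_asModule τ).1 hτ
  have hfd : FiniteDimensional F ρ.asModule :=
    inferInstanceAs (FiniteDimensional F V)
  have key := subq_of_faithful (F := F) (A := MonoidAlgebra F H) (M := ρ.asModule)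
    (S := τ.asModule) (by
      intro a ha
      refine MonoidAlgebra.coeff_eq_zero.1 (hf a.coeff fun v => ?_)
      have h1 := ha (ρ.asModuleEquiv.symm v)
      have h2 := congrArg ρ.asModuleEquiv h1
      rw [Representation.asModuleEquiv_map_smul, map_zero, LinearEquiv.apply_symm_apply,
        Representation.asAlgebraHom_def, MonoidAlgebra.lift_apply] at h2
      rw [← h2]
      simp only [Finsupp.sum, LinearMap.sum_apply, LinearMap.smul_apply])
  obtain ⟨W, φ, hφ⟩ := key
  have hmem : ∀ h : H, ∀ v : V, ρ.asModuleEquiv.symm v ∈ W →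
      ρ.asModuleEquiv.symm (ρ h v) ∈ W := by
    intro h v hv
    rw [Representation.asModuleEquiv_symm_map_rho]
    exact W.smul_mem _ hv
  have hsm : ∀ c : F, ∀ v : V, ρ.asModuleEquiv.symm v ∈ W →
      ρ.asModuleEquiv.symm (c • v) ∈ W := by
    intro c v hv
    rw [map_smul]
    exact W.smul_of_tower_mem c hv
  refine ⟨{ carrier := {v | ρ.asModuleEquiv.symm v ∈ W}
            add_mem' := ?_
            zero_mem' := ?_
            smul_mem' := ?_ }, ?_,
          { toFun := fun w => τ.asModuleEquiv (φ ⟨ρ.asModuleEquiv.symm w.1, w.2⟩)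
            map_add' := ?_
            map_smul' := ?_ }, ?_, ?_⟩
  · intro a b ha hb
    change ρ.asModuleEquiv.symm (a + b) ∈ W
    rw [map_add]
    exact W.add_mem ha hb
  · change ρ.asModuleEquiv.symm 0 ∈ W
    rw [map_zero]
    exact W.zero_mem
  · intro c v hv
    exact hsm c v hv
  · intro h w hw
    exact hmem h w hw
  · intro a b
    rw [← map_add, ← map_add]
    congr 2
  · intro c a
    have e : (⟨ρ.asModuleEquiv.symm (c • a.1), hsm c a.1 a.2⟩ : W) =
        c • (⟨ρ.asModuleEquiv.symm a.1, a.2⟩ : W) :=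
      Subtype.ext (map_smul ρ.asModuleEquiv.symm c a.1)
    have e2 : φ (c • (⟨ρ.asModuleEquiv.symm a.1, a.2⟩ : W)) =
        c • φ (⟨ρ.asModuleEquiv.symm a.1, a.2⟩ : W) := LinearMap.map_smul_of_tower φ c _
    exact (congrArg (fun z => τ.asModuleEquiv (φ z)) e).trans
      ((congrArg τ.asModuleEquiv e2).trans (map_smul τ.asModuleEquiv c _))
  · intro s
    obtain ⟨w, hw⟩ := hφ (τ.asModuleEquiv.symm s)
    refine ⟨⟨ρ.asModuleEquiv w.1, ?_⟩, ?_⟩
    · change ρ.asModuleEquiv.symm (ρ.asModuleEquiv w.1) ∈ W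
      rw [LinearEquiv.symm_apply_apply]
      exact w.2
    · change τ.asModuleEquiv (φ ⟨ρ.asModuleEquiv.symm (ρ.asModuleEquiv w.1), _⟩) = s
      have : (⟨ρ.asModuleEquiv.symm (ρ.asModuleEquiv w.1), by
          rw [LinearEquiv.symm_apply_apply]; exact w.2⟩ : W) = w := by
        apply Subtype.ext
        exact LinearEquiv.symm_apply_apply _ _
      rw [this, hw, LinearEquiv.apply_symm_apply]
  · intro h w
    change τ.asModuleEquiv (φ ⟨ρ.asModuleEquiv.symm (ρ h w.1), _⟩) =
      τ h (τ.asModuleEquiv (φ ⟨ρ.asModuleEquiv.symm w.1, w.2⟩))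
    have e : (⟨ρ.asModuleEquiv.symm (ρ h w.1), hmem h w.1 w.2⟩ : W) =
        MonoidAlgebra.of F H h • (⟨ρ.asModuleEquiv.symm w.1, w.2⟩ : W) := by
      apply Subtype.ext
      exact Representation.asModuleEquiv_symm_map_rho ρ h w.1
    rw [e, map_smul, Representation.asModuleEquiv_map_smul, Representation.asAlgebraHom_of]

section

open scoped TensorProduct

/-- linear independence of an orbit after extension of scalars gives faithfulness below -/
theorem faithful_of_baseChange {F E H V : Type*} [Field F] [Field E] [Algebra F E] [Group H]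
    [AddCommGroup V] [Module F V] (ρ : Representation F H V) (v : E ⊗[F] V)
    (hv : LinearIndependent E (fun h : H => (ρ h).baseChange E v))
    (a : H →₀ F) (ha : ∀ v : V, (a.sum fun h c => c • ρ h v) = 0) : a = 0 := by
  have h0 : ∑ h ∈ a.support, a h • ρ h = 0 := by
    ext w
    rw [LinearMap.sum_apply, LinearMap.zero_apply]
    simp only [LinearMap.smul_apply]
    exact ha w
  have h1 := congrArg (LinearMap.baseChangeHom F E V V) h0
  rw [map_sum, map_zero] at h1
  have h2 := LinearMap.congr_fun h1 v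
  rw [LinearMap.sum_apply, LinearMap.zero_apply] at h2
  have h3 : ∑ h ∈ a.support, (algebraMap F E (a h)) • (ρ h).baseChange E v = 0 := by
    rw [← h2]
    apply Finset.sum_congr rfl
    intro h _
    rw [map_smul, LinearMap.smul_apply, algebraMap_smul]
    rfl
  ext h
  by_cases hh : h ∈ a.support
  · have h4 := (linearIndependent_iff'.mp hv) a.support (fun h => algebraMap F E (a h)) h3 h hh
    rw [map_eq_zero] at h4
    exact h4
  · exact Finsupp.notMem_support_iff.mp hh

end

/-- simultaneous eigenvectors: a vector whose character differs from all the others cannot be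
cancelled by them -/
theorem eig_indep {E V X I : Type*} [Field E] [AddCommGroup V] [Module E V] (op : X → V →ₗ[E] V)
    (s : Finset I) (v : I → V) (φ : I → X → E) (hv : ∀ i ∈ s, ∀ y, op y (v i) = φ i y • v i)
    (w : V) (ψ : X → E) (hw : ∀ y, op y w = ψ y • w) (hne : ∀ i ∈ s, ∃ y, φ i y ≠ ψ y)
    (hsum : w + ∑ i ∈ s, v i = 0) : w = 0 := by
  classical
  induction s using Finset.induction_on generalizing v w with
  | empty => simpa using hsum
  | insert i s hi ih =>
    obtain ⟨y, hy⟩ := hne i (Finset.mem_insert_self i s)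
    have h1 : (ψ y - φ i y) • w = 0 := by
      refine ih (fun j => (φ j y - φ i y) • v j) ?_ ((ψ y - φ i y) • w) ?_ ?_ ?_
      · intro j hj z
        rw [map_smul, hv j (Finset.mem_insert_of_mem hj) z, smul_comm]
      · intro z
        rw [map_smul, hw z, smul_comm]
      · intro j hj
        exact hne j (Finset.mem_insert_of_mem hj)
      · have h2 := congrArg (fun u => op y u - φ i y • u) hsum
        simp only [map_add, map_sum, map_zero, smul_zero, sub_zero] at h2
        rw [Finset.sum_insert hi, Finset.sum_insert hi, hw y,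
          hv i (Finset.mem_insert_self i s) y] at h2
        have h3 : ∑ j ∈ s, op y (v j) = ∑ j ∈ s, φ j y • v j :=
          Finset.sum_congr rfl fun j hj => hv j (Finset.mem_insert_of_mem hj) y
        rw [h3] at h2
        have h4 : ∑ j ∈ s, (φ j y - φ i y) • v j =
            ∑ j ∈ s, φ j y • v j - φ i y • ∑ j ∈ s, v j := by
          rw [Finset.smul_sum, ← Finset.sum_sub_distrib]
          exact Finset.sum_congr rfl fun j _ => sub_smul _ _ _
        rw [h4, sub_smul, ← h2]
        simp only [smul_add]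
        abel
    rcases smul_eq_zero.1 h1 with h | h
    · exact absurd (sub_eq_zero.1 h).symm hy
    · exact h

/-- independence of an orbit from a Bruhat decomposition and a regular character -/
theorem orbit_indep {E V G : Type*} [Field E] [AddCommGroup V] [Module E V] [Group G]
    (ρ : Representation E G V) (v : V) (hv : v ≠ 0) (U T : Subgroup G) [Finite U]
    (hU : (Nat.card U : E) ≠ 0) (N : Set G) (G' : Subgroup G)
    (hbr : ∀ g ∈ G', ∃ u ∈ U, ∃ n ∈ N, ∃ u' ∈ U, g = u * n * u')
    (hTU : ∀ t ∈ T, ∀ u ∈ U, t * u * t⁻¹ ∈ U) (hTN : ∀ n ∈ N, ∀ t ∈ T, n⁻¹ * t * n ∈ T)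
    (θ : G → E) (hUv : ∀ u ∈ U, ρ u v = v) (hTv : ∀ t ∈ T, ρ t v = θ t • v)
    (B : Set G) (hB : ∀ n ∈ N, n ∈ T → ∀ u ∈ U, ∀ u' ∈ U, u * n * u' ∈ B)
    (hreg : ∀ n ∈ N, n ∉ T → ∃ t ∈ T, θ (n⁻¹ * t * n) ≠ θ t)
    (H : Subgroup G) (hH : H ≤ G') (x : G) (hx : x ∈ G')
    (hHx : ∀ h ∈ H, h ≠ 1 → x⁻¹ * h * x ∉ B) :
    LinearIndependent E (fun h : H => ρ (h * x) v) := by
  classical
  haveI : Fintype U := Fintype.ofFinite U
  let e : V →ₗ[E] V := ∑ u : U, ρ (u : G)
  have he : ∀ w, e w = ∑ u : U, ρ (u : G) w := fun w => by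
    show (∑ u : U, ρ (u : G)) w = _
    rw [LinearMap.sum_apply]
  have hmul : ∀ (a b : G) (w : V), ρ (a * b) w = ρ a (ρ b w) := fun a b w => by
    rw [map_mul]; rfl
  have e_mul : ∀ u0 ∈ U, ∀ w, e (ρ u0 w) = e w := by
    intro u0 hu0 w
    rw [he, he, ← Equiv.sum_comp (Equiv.mulRight (⟨u0, hu0⟩ : U)) (fun u : U => ρ (u : G) w)]
    refine Finset.sum_congr rfl fun u _ => ?_
    rw [← hmul]
    rfl
  have e_T : ∀ t ∈ T, ∀ w, ρ t (e w) = e (ρ t w) := by
    intro t ht w
    have hti : ∀ u ∈ U, t⁻¹ * u * t ∈ U := by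
      intro u hu
      have := hTU t⁻¹ (T.inv_mem ht) u hu
      rwa [inv_inv] at this
    let σ : U ≃ U :=
      { toFun := fun u => ⟨t * u * t⁻¹, hTU t ht u u.2⟩
        invFun := fun u => ⟨t⁻¹ * u * t, hti u u.2⟩
        left_inv := fun u => Subtype.ext (by simp [mul_assoc])
        right_inv := fun u => Subtype.ext (by simp [mul_assoc]) }
    rw [he, he, map_sum, ← Equiv.sum_comp σ (fun u : U => ρ (u : G) (ρ t w))]
    refine Finset.sum_congr rfl fun u _ => ?_
    rw [← hmul, ← hmul]
    congr 2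
    show t * (u : G) = t * u * t⁻¹ * t
    group
  have e_v : e v = (Nat.card U : E) • v := by
    rw [he, Finset.sum_congr rfl (fun (u : U) _ => hUv (u : G) u.2), Finset.sum_const,
      Finset.card_univ, Nat.card_eq_fintype_card]
    rw [Nat.cast_smul_eq_nsmul]
  rw [linearIndependent_iff']
  intro s c hc h0 hh0
  by_contra hc0
  let y : H → G := fun h => x⁻¹ * (h0 : G)⁻¹ * h * x
  have hy0 : y h0 = 1 := by
    show x⁻¹ * (h0 : G)⁻¹ * h0 * x = 1
    group
  have hrel : ∑ h ∈ s, c h • ρ (y h) v = 0 := by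
    have h1 := congrArg (ρ (x⁻¹ * (h0 : G)⁻¹)) hc
    rw [map_sum, map_zero] at h1
    rw [← h1]
    refine Finset.sum_congr rfl fun h _ => ?_
    rw [map_smul, ← hmul]
    congr 3
    show x⁻¹ * (h0 : G)⁻¹ * h * x = x⁻¹ * (h0 : G)⁻¹ * (h * x)
    group
  have hdec : ∀ h : H, ∃ n : G, h ≠ h0 → (n ∈ N ∧ n ∉ T ∧ e (ρ (y h) v) = e (ρ n v)) := by
    intro h
    by_cases hh : h = h0
    · exact ⟨1, fun h' => absurd hh h'⟩
    · have hyG : y h ∈ G' := by
        refine G'.mul_mem (G'.mul_mem (G'.mul_mem (G'.inv_mem hx) (G'.inv_mem (hH h0.2)))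
          (hH h.2)) hx
      obtain ⟨u, hu, n, hn, u', hu', hyd⟩ := hbr (y h) hyG
      refine ⟨n, fun _ => ⟨hn, fun hnT => ?_, ?_⟩⟩
      · have h2 := hB n hn hnT u hu u' hu'
        rw [← hyd] at h2
        have h3 := hHx ((h0 : G)⁻¹ * h) (H.mul_mem (H.inv_mem h0.2) h.2) (fun h4 => by
          apply hh
          exact Subtype.ext (inv_mul_eq_one.1 h4).symm)
        apply h3
        have h5 : x⁻¹ * ((h0 : G)⁻¹ * h) * x = y h := by
          show _ = x⁻¹ * (h0 : G)⁻¹ * h * x
          group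
        rw [h5]
        exact h2
      · rw [hyd, hmul, hmul, hUv u' hu', e_mul u hu]
  choose n hn using hdec
  have hw := eig_indep (E := E) (V := V) (X := T) (I := H) (fun t => ρ (t : G)) (s.erase h0)
    (fun h => c h • e (ρ (n h) v)) (fun h t => θ ((n h)⁻¹ * t * n h))
    (fun h hh t => by
      have hne := (Finset.mem_erase.1 hh).1
      obtain ⟨h1, h2, h3⟩ := hn h hne
      show ρ (t : G) (c h • e (ρ (n h) v)) = θ ((n h)⁻¹ * t * n h) • c h • e (ρ (n h) v)
      rw [map_smul, e_T t t.2, ← hmul]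
      have h4 : (t : G) * n h = n h * ((n h)⁻¹ * t * n h) := by group
      rw [h4, hmul, hTv _ (hTN (n h) h1 t t.2), map_smul, map_smul, smul_comm])
    ((c h0 * (Nat.card U : E)) • v) (fun t => θ t)
    (fun t => by
      show ρ (t : G) ((c h0 * (Nat.card U : E)) • v) = θ t • (c h0 * (Nat.card U : E)) • v
      rw [map_smul, hTv t t.2, smul_comm])
    (fun h hh => by
      have hne := (Finset.mem_erase.1 hh).1
      obtain ⟨h1, h2, _⟩ := hn h hne
      obtain ⟨t, ht, htne⟩ := hreg (n h) h1 h2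
      exact ⟨⟨t, ht⟩, htne⟩)
    (by
      have h1 := congrArg e hrel
      rw [map_sum, map_zero, ← Finset.add_sum_erase _ _ hh0, map_smul, hy0, map_one] at h1
      rw [← h1]
      congr 1
      · show _ = c h0 • e v
        rw [e_v, smul_smul]
      · refine Finset.sum_congr rfl fun h hh => ?_
        obtain ⟨_, _, h3⟩ := hn h (Finset.mem_erase.1 hh).1
        rw [map_smul, h3])
  rcases smul_eq_zero.1 hw with h1 | h1
  · rcases mul_eq_zero.1 h1 with h2 | h2
    · exact hc0 h2
    · exact hU h2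
  · exact hv h1

/-- an eigenvector for an abelian group whose character has small stabiliser in `B` yields an
eigenvector for `B` with any given character `θ` that is trivial on `A` -/
theorem exists_B_eigenvector {E V G : Type*} [Field E] [AddCommGroup V] [Module E V] [Group G]
    (ρ : Representation E G V) (A B : Subgroup G) [Finite B] (w : V) (hw0 : w ≠ 0)
    (lam : A →* Eˣ) (hw : ∀ y : A, ρ y w = (lam y : E) • w)
    (hnorm : ∀ b ∈ B, ∀ y ∈ A, b⁻¹ * y * b ∈ A)
    (hA : ∀ y : A, (y : G) ∈ B → lam y = 1) (hcard : (Nat.card B : E) ≠ 0 ∨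
      (Nat.card (A ⊓ B : Subgroup G) : E) ≠ 0)
    (hdist : ∀ (b : G) (hb : b ∈ B), b ∉ A → ∃ y : A, lam ⟨b⁻¹ * y * b, hnorm b hb y y.2⟩ ≠ lam y)
    (θ : B →* Eˣ) (hθ : ∀ b : B, (b : G) ∈ A → θ b = 1) :
    ∃ v : V, v ≠ 0 ∧ ∀ b : B, ρ b v = (θ b : E) • v := by
  classical
  haveI : Fintype B := Fintype.ofFinite B
  refine ⟨∑ b : B, ((θ b)⁻¹ : Eˣ).val • ρ (b : G) w, ?_, ?_⟩
  · intro h0
    have hN : (Nat.card (A ⊓ B : Subgroup G) : E) ≠ 0 := by
      rcases hcard with h | h
      · intro h1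
        apply h
        obtain ⟨k, hk⟩ := Subgroup.card_dvd_of_le (inf_le_right : A ⊓ B ≤ B)
        rw [hk, Nat.cast_mul, h1, zero_mul]
      · exact h
    have hcardeq : (Finset.univ.filter (fun b : B => (b : G) ∈ A)).card
        = Nat.card (A ⊓ B : Subgroup G) := by
      rw [← Fintype.card_subtype, ← Nat.card_eq_fintype_card]
      apply Nat.card_congr
      refine ⟨fun b => ⟨(b.1 : G), b.2, b.1.2⟩, fun g => ⟨⟨g.1, g.2.2⟩, g.2.1⟩, ?_, ?_⟩
      · intro b; rfl
      · intro g; rfl
    have hsplit := Finset.sum_filter_add_sum_filter_not (Finset.univ : Finset B)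
      (fun b : B => (b : G) ∈ A) (fun b : B => ((θ b)⁻¹ : Eˣ).val • ρ (b : G) w)
    have hfirst : ∑ b ∈ Finset.univ.filter (fun b : B => (b : G) ∈ A),
        ((θ b)⁻¹ : Eˣ).val • ρ (b : G) w = (Nat.card (A ⊓ B : Subgroup G) : E) • w := by
      rw [← hcardeq, Nat.cast_smul_eq_nsmul, ← Finset.sum_const]
      apply Finset.sum_congr rfl
      intro b hb
      have hbA : (b : G) ∈ A := (Finset.mem_filter.mp hb).2
      have h1 := hw ⟨(b : G), hbA⟩
      have h2 := hA ⟨(b : G), hbA⟩ b.2
      rw [h2] at h1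
      rw [hθ b hbA]
      simp only [inv_one, Units.val_one, one_smul] at h1 ⊢
      exact h1
    rw [h0, hfirst] at hsplit
    have key := eig_indep (E := E) (V := V) (X := A) (I := B) (fun y : A => ρ (y : G))
      (Finset.univ.filter (fun b : B => ¬ (b : G) ∈ A))
      (fun b : B => ((θ b)⁻¹ : Eˣ).val • ρ (b : G) w)
      (fun b y => ((lam ⟨(b : G)⁻¹ * y * b, hnorm b b.2 y y.2⟩ : Eˣ) : E))
      (by
        intro b _ y
        have h1 := hw ⟨(b : G)⁻¹ * y * b, hnorm b b.2 y y.2⟩
        have h2 : ρ (y : G) (ρ (b : G) w) = ρ (b : G) (ρ ((b : G)⁻¹ * y * b) w) := by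
          rw [← Module.End.mul_apply, ← Module.End.mul_apply, ← map_mul, ← map_mul]
          congr 2
          group
        simp only [map_smul]
        rw [h2]
        have h3 : ρ ((b : G)⁻¹ * y * b) w
            = ((lam ⟨(b : G)⁻¹ * y * b, hnorm b b.2 y y.2⟩ : Eˣ) : E) • w := h1
        rw [h3, map_smul, smul_comm])
      ((Nat.card (A ⊓ B : Subgroup G) : E) • w) (fun y => ((lam y : Eˣ) : E))
      (by
        intro y
        simp only [map_smul]
        rw [hw y, smul_comm])
      (by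
        intro b hb
        have hbA : (b : G) ∉ A := (Finset.mem_filter.mp hb).2
        obtain ⟨y, hy⟩ := hdist b b.2 hbA
        exact ⟨y, fun h => hy (Units.ext h)⟩)
      hsplit
    rcases smul_eq_zero.mp key with h | h
    · exact hN h
    · exact hw0 h
  · intro c
    rw [map_sum, Finset.smul_sum]
    rw [← Equiv.sum_comp (Equiv.mulLeft c) (fun b : B => (θ c : E) • ((θ b)⁻¹ : Eˣ).val • ρ (b : G) w)]
    apply Finset.sum_congr rfl
    intro b _
    simp only [Equiv.coe_mulLeft, map_smul, map_mul, Subgroup.coe_mul, mul_inv_rev,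
      Units.val_mul, Module.End.mul_apply]
    rw [smul_smul]
    congr 1
    have h1 : (θ c : E) * ((θ c)⁻¹ : Eˣ).val = 1 := Units.mul_inv _
    calc ((θ b)⁻¹ : Eˣ).val = ((θ b)⁻¹ : Eˣ).val * ((θ c : E) * ((θ c)⁻¹ : Eˣ).val) := by
          rw [h1, mul_one]
      _ = _ := by ring

theorem common_eig {E V ι : Type*} [Field E] [IsAlgClosed E] [AddCommGroup V]
    [Module E V] [FiniteDimensional E V] (f : ι → Module.End E V)
    (hf : ∀ i j v, f i (f j v) = f j (f i v)) (n : ℕ) :
    ∀ W : Submodule E V, Module.finrank E W = n → W ≠ ⊥ → (∀ i, ∀ w ∈ W, f i w ∈ W) →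
      ∃ w ∈ W, w ≠ 0 ∧ ∀ i, ∃ c : E, f i w = c • w := by
  induction n using Nat.strong_induction_on with
  | _ n ih =>
  intro W hn hW hst
  by_cases h : ∀ i, ∃ c : E, ∀ w ∈ W, f i w = c • w
  · obtain ⟨w, hw, hw0⟩ := Submodule.exists_mem_ne_zero_of_ne_bot hW
    refine ⟨w, hw, hw0, fun i => ?_⟩
    obtain ⟨c, hc⟩ := h i
    exact ⟨c, hc w hw⟩
  · push Not at h
    obtain ⟨i, hi⟩ := h
    haveI : Nontrivial W := Submodule.nontrivial_iff_ne_bot.mpr hW
    obtain ⟨μ, hμ⟩ := Module.End.exists_eigenvalue ((f i).restrict (hst i))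
    obtain ⟨v, hv⟩ := hμ.exists_hasEigenvector
    have hv1 : f i v.1 = μ • v.1 := congrArg Subtype.val hv.apply_eq_smul
    have hv0 : v.1 ≠ 0 := fun h => hv.2 (Subtype.ext h)
    have hmem : ∀ w, w ∈ W ⊓ Module.End.eigenspace (f i) μ ↔ w ∈ W ∧ f i w = μ • w := by
      intro w
      rw [Submodule.mem_inf, Module.End.mem_eigenspace_iff]
    obtain ⟨w0, hw0, hw0'⟩ := hi μ
    have hlt : W ⊓ Module.End.eigenspace (f i) μ < W := by
      refine lt_of_le_of_ne inf_le_left ?_
      intro e
      apply hw0'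
      rw [← e] at hw0
      exact ((hmem _).mp hw0).2
    have hfr := Submodule.finrank_lt_finrank_of_lt hlt
    rw [hn] at hfr
    obtain ⟨w, hw, hwne, hw2⟩ := ih _ hfr (W ⊓ Module.End.eigenspace (f i) μ) rfl
      (by
        intro e
        have : v.1 ∈ W ⊓ Module.End.eigenspace (f i) μ := (hmem _).mpr ⟨v.2, hv1⟩
        rw [e, Submodule.mem_bot] at this
        exact hv0 this)
      (by
        intro j w hw
        obtain ⟨h1, h2⟩ := (hmem _).mp hw
        refine (hmem _).mpr ⟨hst j w h1, ?_⟩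
        rw [hf i j, h2, map_smul])
    exact ⟨w, ((hmem _).mp hw).1, hwne, hw2⟩

/-- an elementary abelian group of exponent prime to the characteristic has a simultaneous
eigenvector on which a given nontrivially acting element acts nontrivially -/
theorem exists_A_eigenvector {E V G : Type*} [Field E] [IsAlgClosed E] [AddCommGroup V]
    [Module E V] [FiniteDimensional E V] [Group G] (ρ : Representation E G V) (A : Subgroup G)
    (hcomm : ∀ a ∈ A, ∀ b ∈ A, a * b = b * a) (p : ℕ) (hp : (p : E) ≠ 0)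
    (hexp : ∀ a ∈ A, a ^ p = 1) (z : G) (hz : z ∈ A) (hz1 : ρ z ≠ 1) :
    ∃ w : V, w ≠ 0 ∧ ∃ lam : A →* Eˣ, (∀ y : A, ρ y w = (lam y : E) • w) ∧
      lam ⟨z, hz⟩ ≠ 1 := by
  have hmul : ∀ (a b : G) (v : V), ρ (a * b) v = ρ a (ρ b v) := by
    intro a b v
    rw [map_mul]; rfl
  have hone : ∀ v : V, ρ 1 v = v := by
    intro v
    rw [map_one]; rfl
  have hc : ∀ (i j : A) (v : V), ρ i.1 (ρ j.1 v) = ρ j.1 (ρ i.1 v) := by
    intro i j v
    rw [← hmul, ← hmul, hcomm i.1 i.2 j.1 j.2]
  have hmemW : ∀ w, w ∈ LinearMap.range (ρ z - (LinearMap.id : V →ₗ[E] V)) ↔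
      ∃ v, ρ z v - v = w := by
    intro w
    rw [LinearMap.mem_range]
    exact Iff.rfl
  obtain ⟨w, hw, hw0, hw2⟩ := common_eig (fun a : A => ρ a.1) hc _
    (LinearMap.range (ρ z - (LinearMap.id : V →ₗ[E] V))) rfl
    (by
      intro e
      apply hz1
      apply LinearMap.ext
      intro v
      have h1 : ρ z v - v ∈ LinearMap.range (ρ z - (LinearMap.id : V →ₗ[E] V)) :=
        (hmemW _).mpr ⟨v, rfl⟩
      rw [e, Submodule.mem_bot, sub_eq_zero] at h1
      exact h1)
    (by
      intro i w hw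
      obtain ⟨v, rfl⟩ := (hmemW _).mp hw
      refine (hmemW _).mpr ⟨ρ i.1 v, ?_⟩
      show _ = ρ i.1 (ρ z v - v)
      rw [map_sub, ← hc ⟨z, hz⟩ i v]
      )
  choose c hc' using hw2
  have key : ∀ s t : E, s • w = t • w → s = t := fun s t h => smul_left_injective E hw0 h
  have hcmul : ∀ a b : A, c (a * b) = c a * c b := by
    intro a b
    apply key
    rw [← hc' (a * b), mul_smul, ← hc' b]
    show ρ (a.1 * b.1) w = _
    rw [hmul]
    show ρ a.1 (ρ b.1 w) = c a • ρ b.1 w
    have h1 : ρ b.1 w = c b • w := hc' b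
    have h2 : ρ a.1 w = c a • w := hc' a
    rw [h1, map_smul, h2, smul_comm]
  have hcone : c 1 = 1 := by
    apply key
    rw [← hc' 1, one_smul]
    exact hone w
  refine ⟨w, hw0, MonoidHom.mk' (fun a => ⟨c a, c a⁻¹, by rw [← hcmul, mul_inv_cancel, hcone],
    by rw [← hcmul, inv_mul_cancel, hcone]⟩) (fun a b => Units.ext (hcmul a b)), hc', ?_⟩
  intro hlam
  have hcz : c ⟨z, hz⟩ = 1 := congrArg Units.val hlam
  have hzw : ρ z w = w := by
    have h1 : ρ z w = c ⟨z, hz⟩ • w := hc' ⟨z, hz⟩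
    rw [h1, hcz, one_smul]
  obtain ⟨v, hv⟩ := (hmemW _).mp hw
  have hv' : ρ z v = v + w := by rw [← hv]; abel
  have hpow : ∀ n : ℕ, ρ (z ^ n) v = v + (n : E) • w := by
    intro n
    induction n with
    | zero => rw [pow_zero, hone, Nat.cast_zero, zero_smul, add_zero]
    | succ n ihn =>
      rw [pow_succ', hmul, ihn, map_add, map_smul, hzw, hv', Nat.cast_succ, add_smul, one_smul]
      abel
  have h1 := hpow p
  rw [hexp z hz, hone] at h1
  have h2 : (p : E) • w = 0 := by
    have := h1.symm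
    rwa [add_eq_left] at this
  rcases smul_eq_zero.mp h2 with h3 | h3
  · exact hp h3
  · exact hw0 h3

theorem eac_surj {L E : Type*} [Field L] [Finite L] [Field E] (F : L → AddChar L E)
    (hF : Function.Injective F) : Function.Surjective F := by
  have hli : LinearIndependent E (fun χ : AddChar L E => ((χ : L → E))) := by
    have h := linearIndependent_monoidHom (Multiplicative L) E
    have h2 := h.comp (fun χ : AddChar L E => AddChar.toMonoidHomEquiv χ)
      AddChar.toMonoidHomEquiv.injective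
    exact h2
  haveI := Fintype.ofFinite L
  haveI hfin : Finite (AddChar L E) := hli.finite
  haveI := Fintype.ofFinite (AddChar L E)
  have h1 : Fintype.card (AddChar L E) ≤ Fintype.card L := by
    have := hli.fintype_card_le_finrank
    rwa [Module.finrank_fintype_fun_eq_card] at this
  have h2 : Fintype.card L ≤ Fintype.card (AddChar L E) := Fintype.card_le_of_injective F hF
  exact ((Fintype.bijective_iff_injective_and_card F).2 ⟨hF, le_antisymm h2 h1⟩).2

/-- additive characters of a finite field extension with values in an algebraically closed field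
of different characteristic -/
theorem exists_addChar {K L E : Type*} [Field K] [Finite K] [Field L] [Finite L] [Algebra K L]
    [Field E] [IsAlgClosed E] (p : ℕ) [Fact p.Prime] [CharP K p] (hp : (p : E) ≠ 0) :
    ∃ ψ : AddChar K E, (∃ t, ψ t ≠ 1) ∧
      ∀ χ : AddChar L E, ∃ c : L, ∀ t : L, χ t = ψ (Algebra.trace K L (c * t)) := by
  haveI : NeZero (p : E) := ⟨hp⟩
  haveI hpz : NeZero p := ⟨(Fact.out : p.Prime).ne_zero⟩
  obtain ⟨ζ, hζ⟩ : ∃ ζ : E, IsPrimitiveRoot ζ p := by
    obtain ⟨ζ, h⟩ := IsAlgClosed.exists_root (Polynomial.cyclotomic p E) (by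
      rw [Polynomial.degree_cyclotomic]
      have := Nat.totient_pos.2 (Fact.out : p.Prime).pos
      exact_mod_cast this.ne')
    exact ⟨ζ, Polynomial.isRoot_cyclotomic_iff.1 h⟩
  letI : Algebra (ZMod p) K := ZMod.algebra K p
  haveI : Module.Finite (ZMod p) K := Module.Finite.of_finite
  haveI : Module.Finite K L := Module.Finite.of_finite
  let ψ : AddChar K E := (AddChar.zmodChar p hζ.pow_eq_one).compAddMonoidHom
    (Algebra.trace (ZMod p) K).toAddMonoidHom
  have hψ : ∀ t, ψ t = ζ ^ (Algebra.trace (ZMod p) K t).val := by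
    intro t
    show AddChar.zmodChar p hζ.pow_eq_one (Algebra.trace (ZMod p) K t) = _
    rw [AddChar.zmodChar_apply]
  obtain ⟨s, hs⟩ : ∃ t, ψ t ≠ 1 := by
    obtain ⟨t, ht⟩ := Algebra.trace_surjective (ZMod p) K 1
    refine ⟨t, ?_⟩
    rw [hψ, ht]
    haveI : Fact (1 < p) := ⟨(Fact.out : p.Prime).one_lt⟩
    rw [ZMod.val_one, pow_one]
    exact hζ.ne_one (Fact.out : p.Prime).one_lt
  refine ⟨ψ, ⟨s, hs⟩, ?_⟩
  let F : L → AddChar L E := fun c => ψ.compAddMonoidHom
    ((Algebra.trace K L).toAddMonoidHom.comp (AddMonoidHom.mulLeft c))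
  have hFa : ∀ c t, F c t = ψ (Algebra.trace K L (c * t)) := fun c t => rfl
  have hinj : Function.Injective F := by
    intro c d hcd
    by_contra hne
    have hne' : c - d ≠ 0 := sub_ne_zero.2 hne
    have h1 : ∀ t, ψ (Algebra.trace K L ((c - d) * t)) = 1 := by
      intro t
      have h2 : F c t = F d t := by rw [hcd]
      rw [hFa, hFa] at h2
      rw [sub_mul, map_sub, sub_eq_add_neg, AddChar.map_add_eq_mul, h2,
        ← AddChar.map_add_eq_mul, add_neg_cancel, AddChar.map_zero_eq_one]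
    obtain ⟨u, hu⟩ := Algebra.trace_surjective K L s
    have h3 := h1 ((c - d)⁻¹ * u)
    rw [← mul_assoc, mul_inv_cancel₀ hne', one_mul, hu] at h3
    exact hs h3
  intro χ
  obtain ⟨c, hc⟩ := eac_surj F hinj χ
  refine ⟨c, fun t => ?_⟩
  rw [← hc, hFa]

/-- multiplicative characters of prime order of a finite field -/
theorem exists_mulChar {K E : Type*} [Field K] [Fintype K] [Field E] [IsAlgClosed E] (r : ℕ)
    [Fact r.Prime] (hr : r ∣ Fintype.card K - 1) (hE : (r : E) ≠ 0) :
    ∃ (ω : Kˣ →* Eˣ) (c : Kˣ), ∀ k : ℤ, (ω c) ^ k = 1 → (r : ℤ) ∣ k := by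
  classical
  have hr0 : r ≠ 0 := (Fact.out : r.Prime).ne_zero
  have : NeZero (r : E) := ⟨hE⟩
  obtain ⟨ζ, hζ⟩ := HasEnoughRootsOfUnity.exists_primitiveRoot E r
  have hζu : IsPrimitiveRoot (hζ.isUnit hr0).unit r := hζ.isUnit_unit hr0
  obtain ⟨c, hc⟩ := IsCyclic.exists_generator (α := Kˣ)
  have hord : orderOf c = Fintype.card K - 1 := by
    rw [orderOf_eq_card_of_forall_mem_zpowers hc, Nat.card_eq_fintype_card, Fintype.card_units]
  have hdvd : orderOf (hζ.isUnit hr0).unit ∣ orderOf c := by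
    rw [← hζu.eq_orderOf, hord]
    exact hr
  refine ⟨monoidHomOfForallMemZpowers hc hdvd, c, ?_⟩
  intro k hk
  rw [monoidHomOfForallMemZpowers_apply_gen] at hk
  rw [← orderOf_dvd_iff_zpow_eq_one, ← hζu.eq_orderOf] at hk
  exact hk

theorem aux_fermat (q r a : ℕ) (hr : r.Prime) (hqr : q < r) (hq : 0 < q) (ha : (r - 1) ∣ a) :
    r ∣ q ^ a - 1 := by
  have hcop : q.Coprime r := by
    rw [Nat.coprime_comm]
    exact (Nat.Prime.coprime_iff_not_dvd hr).2 (fun h => absurd (Nat.le_of_dvd hq h) (by omega))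
  obtain ⟨m, rfl⟩ := ha
  have h1 : q ^ (r - 1) ≡ 1 [MOD r] := by
    have := Nat.ModEq.pow_totient hcop
    rwa [Nat.totient_prime hr] at this
  have h2 : q ^ ((r - 1) * m) ≡ 1 [MOD r] := by
    rw [pow_mul]
    have := h1.pow m
    rwa [one_pow] at this
  exact (Nat.modEq_iff_dvd' (Nat.one_le_pow _ _ hq)).1 h2.symm

/-- arithmetic of the exponent -/
theorem exists_primes (q N : ℕ) (hq : 1 < q) : ∃ r₁ r₂ : ℕ, r₁.Prime ∧ r₂.Prime ∧ r₁ ≠ r₂ ∧
    N < r₁ ∧ N < r₂ ∧ ∀ a : ℕ, (r₁ - 1) * (r₂ - 1) ∣ a → r₁ ∣ q ^ a - 1 ∧ r₂ ∣ q ^ a - 1 := by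
  obtain ⟨r₁, h1, hp1⟩ := Nat.exists_infinite_primes (q + N + 1)
  obtain ⟨r₂, h2, hp2⟩ := Nat.exists_infinite_primes (r₁ + 1)
  refine ⟨r₁, r₂, hp1, hp2, by omega, by omega, by omega, ?_⟩
  intro a ha
  exact ⟨aux_fermat q r₁ a hp1 (by omega) (by omega) ((Dvd.intro _ rfl).trans ha),
    aux_fermat q r₂ a hp2 (by omega) (by omega) ((Dvd.intro_left _ rfl).trans ha)⟩

/-- intermediate fields of finite fields -/
theorem exists_intermediate {K L : Type*} [Field K] [Finite K] [Field L] [Algebra K L] (a r : ℕ)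
    (ha : 0 < a) (hr : 0 < r) (h : Module.finrank K L = a * r) :
    ∃ M : IntermediateField K L, Module.finrank K M = a ∧ Module.finrank M L = r := by
  have hfd : FiniteDimensional K L := by
    apply FiniteDimensional.of_finrank_pos
    rw [h]
    exact Nat.mul_pos ha hr
  have hfin : Finite L := Module.finite_of_finite K
  obtain ⟨g, hg⟩ := IsCyclic.exists_generator (α := Gal(L/K))
  have hord : orderOf g = a * r := by
    rw [orderOf_eq_card_of_forall_mem_zpowers hg, IsGalois.card_aut_eq_finrank, h]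
  set H : Subgroup Gal(L/K) := Subgroup.zpowers (g ^ a) with hH
  have hcard : Nat.card H = r := by
    rw [hH, Nat.card_zpowers, orderOf_pow_of_dvd ha.ne' (by rw [hord]; exact Dvd.intro _ rfl), hord,
      Nat.mul_div_cancel_left _ ha]
  refine ⟨IntermediateField.fixedField H, ?_, ?_⟩
  · have h1 := Module.finrank_mul_finrank K (IntermediateField.fixedField H) L
    rw [IntermediateField.finrank_fixedField_eq_card, hcard, h] at h1
    exact Nat.eq_of_mul_eq_mul_right hr h1
  · rw [IntermediateField.finrank_fixedField_eq_card, hcard]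

end Pool.Agent.Helper255.CR
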