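import Pool.Agent.Helper255.CR.Mat

set_option autoImplicit false

namespace Pool.Agent.Helper255.CR

open Matrix

variable {l : ℕ} (D : SLCartan l)

/-! group structure -/

/-- the positive unipotent subgroup -/
noncomputable def UG (R : Type*) [CommRing R] : Subgroup (G D R) :=
  Subgroup.closure {g | ∃ (β : Root D) (t : R), Pos β.1 ∧ g = xg D β t}

/-- the part of the unipotent subgroup generated by roots of height at least `k` -/
noncomputable def UK (R : Type*) [CommRing R] (k : ℤ) : Subgroup (G D R) :=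
  Subgroup.closure {g | ∃ (β : Root D) (t : R), Pos β.1 ∧ k ≤ ht β.1 ∧ g = xg D β t}

/-- the monomial elements -/
noncomputable def NG (R : Type*) [CommRing R] : Set (G D R) := {g | ∃ w χ, Mono D g w χ}

/-- the torus -/
noncomputable def TG (R : Type*) [CommRing R] : Subgroup (G D R) where
  carrier := {g | ∃ χ, Mono D g (AddEquiv.refl _) χ}
  mul_mem' := by
    rintro a b ⟨χ, h⟩ ⟨χ', h'⟩
    exact ⟨_, h.mul D h'⟩
  one_mem' := ⟨_, Mono.one D⟩
  inv_mem' := by
    rintro a ⟨χ, h⟩
    obtain ⟨χ', h', -⟩ := h.inv D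
    exact ⟨χ', h'⟩

/-- the Borel subgroup -/
noncomputable def BG (R : Type*) [CommRing R] : Subgroup (G D R) := TG D R ⊔ UG D R

theorem conj_torus {R : Type*} [CommRing R] {n t : G D R} {w : (Fin l → ℤ) ≃+ (Fin l → ℤ)}
    {χ χt : Root D → R} (hn : Mono D n w χ) (ht : Mono D t (AddEquiv.refl _) χt) :
    Mono D (n⁻¹ * t * n) (AddEquiv.refl _) (fun β => χt (wr D w hn.isom β)) := by
  obtain ⟨χ', hinv, hχ'⟩ := hn.inv D
  have h3 := (hinv.mul D ht).mul D hn
  have key : ∀ (w' : (Fin l → ℤ) ≃+ (Fin l → ℤ)) (χ1 : Root D → R), Mono D (n⁻¹ * t * n) w' χ1 →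
      w' = AddEquiv.refl _ → χ1 = (fun β => χt (wr D w hn.isom β)) →
      Mono D (n⁻¹ * t * n) (AddEquiv.refl _) (fun β => χt (wr D w hn.isom β)) := by
    rintro w' χ1 h rfl rfl
    exact h
  refine key _ _ h3 ?_ ?_
  · apply AddEquiv.ext
    intro y
    simp
  · funext β
    have h4 := hχ' β (wr D w hn.isom β) rfl
    have h5 : wr D (AddEquiv.refl _) ht.isom (wr D w hn.isom β) = wr D w hn.isom β := root_ext D rfl
    show χ' (wr D (AddEquiv.refl _) ht.isom (wr D w hn.isom β)) * χt (wr D w hn.isom β) * χ β =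
      χt (wr D w hn.isom β)
    rw [h5, mul_right_comm, h4, one_mul]

theorem torus_conj_mem_UG {R : Type*} [CommRing R] (t : G D R) (ht : t ∈ TG D R) (u : G D R)
    (hu : u ∈ UG D R) : t * u * t⁻¹ ∈ UG D R := by
  obtain ⟨χ, h⟩ := ht
  have hle : UG D R ≤ (UG D R).comap (MulAut.conj t).toMonoidHom := by
    unfold UG
    rw [Subgroup.closure_le]
    rintro _ ⟨β, s, hβ, rfl⟩
    show t * xg D β s * t⁻¹ ∈ Subgroup.closure {g : G D R | ∃ (β : Root D) (t : R), Pos β.1 ∧ g = xg D β t}
    rw [h.conj D β β rfl s]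
    exact Subgroup.subset_closure ⟨β, χ β * s, hβ, rfl⟩
  exact hle hu

theorem mem_BG {R : Type*} [CommRing R] (b : G D R) (hb : b ∈ BG D R) :
    ∃ t ∈ TG D R, ∃ u ∈ UG D R, b = t * u := by
  let S : Subgroup (G D R) :=
    { carrier := {b | ∃ t ∈ TG D R, ∃ u ∈ UG D R, b = t * u}
      mul_mem' := by
        rintro _ _ ⟨t, ht, u, hu, rfl⟩ ⟨t', ht', u', hu', rfl⟩
        refine ⟨t * t', (TG D R).mul_mem ht ht', t'⁻¹ * u * t'⁻¹⁻¹ * u',
          (UG D R).mul_mem (torus_conj_mem_UG D t'⁻¹ ((TG D R).inv_mem ht') u hu) hu', ?_⟩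
        group
      one_mem' := ⟨1, (TG D R).one_mem, 1, (UG D R).one_mem, by group⟩
      inv_mem' := by
        rintro _ ⟨t, ht, u, hu, rfl⟩
        refine ⟨t⁻¹, (TG D R).inv_mem ht, t * u⁻¹ * t⁻¹,
          torus_conj_mem_UG D t ht u⁻¹ ((UG D R).inv_mem hu), ?_⟩
        group }
  have h1 : TG D R ≤ S := fun t ht => ⟨t, ht, 1, (UG D R).one_mem, by group⟩
  have h2 : UG D R ≤ S := fun u hu => ⟨1, (TG D R).one_mem, u, hu, by group⟩
  have h3 : BG D R ≤ S := sup_le h1 h2
  exact h3 hb

/-- the set of the simple root elements -/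
def simple_induction_gens (R : Type*) [CommRing R] : Set (G D R) :=
  {g | ∃ (i : Fin l) (t : R), g = xg D (sr D i) t ∨ g = xg D (rneg D (sr D i)) t}

theorem simple_induction_step {R : Type*} [CommRing R] (S : Subgroup (G D R))
    (α β γ : Root D) (h : γ.1 = α.1 + β.1) (hα : ∀ t : R, xg D α t ∈ S)
    (hβ : ∀ t : R, xg D β t ∈ S) (t : R) : xg D γ t ∈ S := by
  have h1 := xg_bracket D α β γ h (((sgn D α.1 β.1 : ℤ) : R) * t) 1
  have h2 : ((sgn D α.1 β.1 : ℤ) : R) * ((((sgn D α.1 β.1 : ℤ) : R) * t) * 1) = t := by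
    have h3 : ((sgn D α.1 β.1 : ℤ) : R) * ((sgn D α.1 β.1 : ℤ) : R) = 1 := by
      rw [← Int.cast_mul, sgn_mul_self, Int.cast_one]
    rw [mul_one, ← mul_assoc, h3, one_mul]
  rw [h2] at h1
  have h4 : xg D γ t = xg D α (((sgn D α.1 β.1 : ℤ) : R) * t) * xg D β 1 *
      (xg D α (((sgn D α.1 β.1 : ℤ) : R) * t))⁻¹ * (xg D β 1)⁻¹ := by
    rw [h1]
    group
  rw [h4]
  exact S.mul_mem (S.mul_mem (S.mul_mem (hα _) (hβ _)) (S.inv_mem (hα _))) (S.inv_mem (hβ _))

theorem simple_induction_pos {R : Type*} [CommRing R] (n : ℕ) : ∀ β : Root D, Pos β.1 →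
    ht β.1 ≤ n → ∀ t : R, xg D β t ∈ Subgroup.closure (simple_induction_gens D R) ∧
      xg D (rneg D β) t ∈ Subgroup.closure (simple_induction_gens D R) := by
  induction n with
  | zero =>
    intro β hβ hle
    have h1 := (pos_iff_ht D β).1 hβ
    push_cast at hle
    omega
  | succ n ih =>
    intro β hβ hle
    by_cases hs : ∃ i, β = sr D i
    · obtain ⟨i, rfl⟩ := hs
      intro t
      exact ⟨Subgroup.subset_closure ⟨i, t, Or.inl rfl⟩,
        Subgroup.subset_closure ⟨i, t, Or.inr rfl⟩⟩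
    · push Not at hs
      obtain ⟨i, γ, hγ, hγp, -⟩ := exists_simple_sub D β hβ hs
      have hht : ht γ.1 ≤ n := by
        have h1 : β.1 = (sr D i).1 + γ.1 := by rw [hγ]; abel
        have h2 : ht β.1 = 1 + ht γ.1 := by
          rw [h1, ht_add]
          congr 1
          exact ht_single i
        push_cast at hle
        omega
      have h3 := ih γ hγp hht
      intro t
      constructor
      · refine simple_induction_step D _ (sr D i) γ β ?_ ?_ (fun t => (h3 t).1) t
        · rw [hγ]; abel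
        · intro t
          exact Subgroup.subset_closure ⟨i, t, Or.inl rfl⟩
      · refine simple_induction_step D _ (rneg D (sr D i)) (rneg D γ) (rneg D β) ?_ ?_
          (fun t => (h3 t).2) t
        · show -β.1 = -(sr D i).1 + -γ.1
          rw [hγ]; abel
        · intro t
          exact Subgroup.subset_closure ⟨i, t, Or.inr rfl⟩

theorem simple_induction_all {R : Type*} [CommRing R] (α : Root D) (t : R) :
    xg D α t ∈ Subgroup.closure (simple_induction_gens D R) := by
  rcases pos_or_neg D α with h | h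
  · exact (simple_induction_pos D (ht α.1).toNat α h (Int.self_le_toNat _) t).1
  · have h1 : rneg D (rneg D α) = α := by
      apply root_ext
      show - -α.1 = α.1
      rw [neg_neg]
    have h2 := (simple_induction_pos D (ht (rneg D α).1).toNat (rneg D α) h
      (Int.self_le_toNat _) t).2
    rw [h1] at h2
    exact h2

theorem simple_induction {R : Type*} [CommRing R] {p : G D R → Prop} (h1 : p 1)
    (hx : ∀ (g : G D R) (i : Fin l) (t : R), p g → p (g * xg D (sr D i) t))
    (hy : ∀ (g : G D R) (i : Fin l) (t : R), p g → p (g * xg D (rneg D (sr D i)) t))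
    (g : G D R) : p g := by
  have hall : ∀ g : G D R, g ∈ Subgroup.closure (simple_induction_gens D R) := by
    intro g
    refine G_induction D (p := fun g => g ∈ Subgroup.closure (simple_induction_gens D R))
      (one_mem _) ?_ g
    intro g α t hg
    exact mul_mem hg (simple_induction_all D α t)
  refine Subgroup.closure_induction_right (p := fun g _ => p g) h1 ?_ ?_ (hall g)
  · rintro g _ y ⟨i, t, rfl | rfl⟩ hg
    · exact hx g i t hg
    · exact hy g i t hg
  · rintro g _ y ⟨i, t, rfl | rfl⟩ hg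
    · rw [← xg_neg]
      exact hx g i (-t) hg
    · rw [← xg_neg]
      exact hy g i (-t) hg

/-- the unipotent radical of the minimal parabolic subgroup of the simple root `α_i` -/
noncomputable def RG (R : Type*) [CommRing R] (i : Fin l) : Subgroup (G D R) :=
  Subgroup.closure {g | ∃ (β : Root D) (t : R), Pos β.1 ∧ β ≠ sr D i ∧ g = xg D β t}

theorem RG_conj_gen {R : Type*} [CommRing R] (i : Fin l) (α : Root D) (s : R)
    (h2 : ∀ β : Root D, Pos β.1 → β ≠ sr D i → bil D α.1 β.1 ≠ -2)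
    (h1 : ∀ β γ : Root D, Pos β.1 → β ≠ sr D i → bil D α.1 β.1 = -1 → γ.1 = α.1 + β.1 →
      Pos γ.1 ∧ γ ≠ sr D i) (r : G D R) (hr : r ∈ RG D R i) :
    xg D α s * r * (xg D α s)⁻¹ ∈ RG D R i := by
  unfold RG at hr
  refine Subgroup.closure_induction (p := fun r _ => xg D α s * r * (xg D α s)⁻¹ ∈ RG D R i)
    ?_ ?_ ?_ ?_ hr
  · rintro _ ⟨β, t, hβ, hne, rfl⟩
    have hb := (bil_range D α β).1
    have hb2 := h2 β hβ hne
    by_cases h0 : 0 ≤ bil D α.1 β.1
    · rw [xg_commute D α β h0, mul_inv_cancel_right]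
      exact Subgroup.subset_closure ⟨β, t, hβ, hne, rfl⟩
    · have hb1 : bil D α.1 β.1 = -1 := by omega
      obtain ⟨γ, hγ⟩ : ∃ γ : Root D, γ.1 = α.1 + β.1 :=
        ⟨⟨α.1 + β.1, (add_root_iff D α β).2 hb1⟩, rfl⟩
      rw [xg_bracket D α β γ hγ, mul_inv_cancel_right]
      obtain ⟨g1, g2⟩ := h1 β γ hβ hne hb1 hγ
      exact mul_mem (Subgroup.subset_closure ⟨γ, _, g1, g2, rfl⟩)
        (Subgroup.subset_closure ⟨β, t, hβ, hne, rfl⟩)
  · rw [mul_one, mul_inv_cancel]
    exact one_mem _
  · intro a b _ _ ha hb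
    have e : xg D α s * (a * b) * (xg D α s)⁻¹ =
        (xg D α s * a * (xg D α s)⁻¹) * (xg D α s * b * (xg D α s)⁻¹) := by group
    rw [e]
    exact mul_mem ha hb
  · intro a _ ha
    have e : xg D α s * a⁻¹ * (xg D α s)⁻¹ = (xg D α s * a * (xg D α s)⁻¹)⁻¹ := by group
    rw [e]
    exact inv_mem ha

theorem RG_conj_pos {R : Type*} [CommRing R] (i : Fin l) (s : R) (r : G D R) (hr : r ∈ RG D R i) :
    xg D (sr D i) s * r * (xg D (sr D i) s)⁻¹ ∈ RG D R i := by
  refine RG_conj_gen D i (sr D i) s ?_ ?_ r hr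
  · intro β hβ _ h
    rw [bil_eq_neg_two_iff] at h
    have h3 := hβ i
    rw [h] at h3
    have h4 : (-(sr D i).1) i = -1 := by
      simp [sr]
    rw [h4] at h3
    omega
  · intro β γ hβ _ _ hγ
    constructor
    · intro j
      have h3 := hβ j
      have h4 := pos_simple D i j
      rw [hγ]
      show 0 ≤ (sr D i).1 j + β.1 j
      omega
    · intro h
      rw [h] at hγ
      have h5 : β.1 = 0 := by
        have := hγ
        rwa [left_eq_add] at this
      have h6 := β.2
      rw [h5, bil_zero_left] at h6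
      omega

theorem RG_conj_neg {R : Type*} [CommRing R] (i : Fin l) (s : R) (r : G D R) (hr : r ∈ RG D R i) :
    xg D (rneg D (sr D i)) s * r * (xg D (rneg D (sr D i)) s)⁻¹ ∈ RG D R i := by
  refine RG_conj_gen D i (rneg D (sr D i)) s ?_ ?_ r hr
  · intro β _ hne h
    rw [bil_eq_neg_two_iff] at h
    apply hne
    apply root_ext
    rw [h]
    show - -(sr D i).1 = _
    rw [neg_neg]
  · intro β γ hβ hne _ hγ
    refine pos_sub_simple D β γ i hβ hne ?_
    rw [hγ]
    show -(sr D i).1 + β.1 = _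
    rw [neg_add_eq_sub]

theorem UG_decomp {R : Type*} [CommRing R] (i : Fin l) (u : G D R) (hu : u ∈ UG D R) :
    ∃ s : R, ∃ r ∈ RG D R i, u = xg D (sr D i) s * r := by
  unfold UG at hu
  refine Subgroup.closure_induction
    (p := fun u _ => ∃ s : R, ∃ r ∈ RG D R i, u = xg D (sr D i) s * r) ?_ ?_ ?_ ?_ hu
  · rintro _ ⟨β, t, hβ, rfl⟩
    by_cases h : β = sr D i
    · exact ⟨t, 1, one_mem _, by rw [h, mul_one]⟩
    · exact ⟨0, xg D β t, Subgroup.subset_closure ⟨β, t, hβ, h, rfl⟩, by rw [xg_zero, one_mul]⟩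
  · exact ⟨0, 1, one_mem _, by rw [xg_zero, one_mul]⟩
  · rintro _ _ _ _ ⟨s, r, hr, rfl⟩ ⟨s', r', hr', rfl⟩
    refine ⟨s + s', xg D (sr D i) (-s') * r * (xg D (sr D i) (-s'))⁻¹ * r',
      mul_mem (RG_conj_pos D i (-s') r hr) hr', ?_⟩
    rw [xg_add, xg_neg]
    group
  · rintro _ _ ⟨s, r, hr, rfl⟩
    refine ⟨-s, xg D (sr D i) s * r⁻¹ * (xg D (sr D i) s)⁻¹,
      RG_conj_pos D i s _ (inv_mem hr), ?_⟩
    rw [xg_neg]
    group

/-- auxiliary: `g` has a Bruhat decomposition -/
def bruhat_Q {K : Type*} [Field K] (g : G D K) : Prop :=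
  ∃ u ∈ UG D K, ∃ n ∈ NG D K, ∃ u' ∈ UG D K, g = u * n * u'

theorem bruhat_left {K : Type*} [Field K] {g u : G D K} (hu : u ∈ UG D K) (h : bruhat_Q D g) :
    bruhat_Q D (u * g) := by
  obtain ⟨u1, h1, n, hn, u2, h2, rfl⟩ := h
  exact ⟨u * u1, mul_mem hu h1, n, hn, u2, h2, by simp only [mul_assoc]⟩

theorem bruhat_right {K : Type*} [Field K] {g u : G D K} (hu : u ∈ UG D K) (h : bruhat_Q D g) :
    bruhat_Q D (g * u) := by
  obtain ⟨u1, h1, n, hn, u2, h2, rfl⟩ := h
  exact ⟨u1, h1, n, hn, u2 * u, mul_mem h2 hu, by simp only [mul_assoc]⟩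

theorem bruhat_mem {K : Type*} [Field K] (β : Root D) (t : K) (hβ : Pos β.1) :
    xg D β t ∈ UG D K := Subgroup.subset_closure ⟨β, t, hβ, rfl⟩

theorem bruhat_RG_le {K : Type*} [Field K] (i : Fin l) : RG D K i ≤ UG D K := by
  apply Subgroup.closure_mono
  rintro g ⟨β, t, hβ, _, rfl⟩
  exact ⟨β, t, hβ, rfl⟩

theorem bruhat_shift {K : Type*} [Field K] {n : G D K} {w : (Fin l → ℤ) ≃+ (Fin l → ℤ)}
    {χ : Root D → K} (h : Mono D n w χ) (β β' : Root D) (hβ : β'.1 = w β.1) (t : K) :
    n * xg D β t = xg D β' (χ β * t) * n := by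
  rw [← h.conj D β β' hβ t, inv_mul_cancel_right]

theorem bruhat_ng {K : Type*} [Field K] (α : Root D) (c : Kˣ) :
    xg D (rneg D α) ((c⁻¹ : Kˣ) : K) = xg D α (-(c : K)) * ng D α c * xg D α (-(c : K)) := by
  unfold ng
  rw [xg_neg]
  group

theorem bruhat_rneg (α : Root D) : rneg D (rneg D α) = α := by
  apply root_ext
  simp [rneg]

theorem bruhat_A {K : Type*} [Field K] (a : Root D) (ha : Pos a.1) {n : G D K}
    {w : (Fin l → ℤ) ≃+ (Fin l → ℤ)} {χ : Root D → K} (h : Mono D n w χ) (hw : Pos (w a.1)) (s t : K) :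
    bruhat_Q D (n * xg D a s * xg D (rneg D a) t) := by
  have hpos : Pos (wr D w h.isom a).1 := hw
  rw [bruhat_shift D h a (wr D w h.isom a) rfl s, mul_assoc]
  apply bruhat_left D (bruhat_mem D _ _ hpos)
  by_cases ht : t = 0
  · subst ht
    rw [xg_zero, mul_one]
    exact ⟨1, one_mem _, n, ⟨w, χ, h⟩, 1, one_mem _, by simp⟩
  · have h1 : t = (((Units.mk0 t ht)⁻¹⁻¹ : Kˣ) : K) := by simp
    rw [h1, bruhat_ng D a ((Units.mk0 t ht)⁻¹), ← mul_assoc, ← mul_assoc,
      bruhat_shift D h a (wr D w h.isom a) rfl]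
    obtain ⟨χ2, h2⟩ := ng_mono D a ((Units.mk0 t ht)⁻¹)
    exact ⟨_, bruhat_mem D _ (χ a * -(((Units.mk0 t ht)⁻¹ : Kˣ) : K)) hpos,
      n * ng D a ((Units.mk0 t ht)⁻¹), ⟨_, _, h.mul D h2⟩, _,
      bruhat_mem D _ (-(((Units.mk0 t ht)⁻¹ : Kˣ) : K)) ha, by simp only [mul_assoc]⟩

theorem bruhat_B {K : Type*} [Field K] (a : Root D) (ha : Pos a.1) {n : G D K} (hn : n ∈ NG D K)
    (s t : K) : bruhat_Q D (n * xg D a s * xg D (rneg D a) t) := by
  obtain ⟨w, χ, h⟩ := hn
  rcases pos_or_neg D (wr D w h.isom a) with hw | hw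
  · exact bruhat_A D a ha h hw s t
  · have hneg : w (rneg D a).1 = -(w a.1) := by
      change w (-a.1) = _
      rw [map_neg]
    have hpos : Pos (wr D w h.isom (rneg D a)).1 := by
      change Pos (w (rneg D a).1)
      rw [hneg]
      exact hw
    by_cases hs : s = 0
    · subst hs
      rw [xg_zero, mul_one, bruhat_shift D h (rneg D a) (wr D w h.isom (rneg D a)) rfl]
      exact ⟨_, bruhat_mem D _ (χ (rneg D a) * t) hpos, n, ⟨w, χ, h⟩, 1, one_mem _, by simp⟩
    · have h1 : xg D a s = xg D (rneg D a) (-(((Units.mk0 s hs)⁻¹ : Kˣ) : K)) *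
          ng D (rneg D a) ((Units.mk0 s hs)⁻¹) *
          xg D (rneg D a) (-(((Units.mk0 s hs)⁻¹ : Kˣ) : K)) := by
        have h2 := bruhat_ng D (rneg D a) ((Units.mk0 s hs)⁻¹)
        rw [bruhat_rneg] at h2
        rw [← h2]
        simp
      obtain ⟨χ2, h2⟩ := ng_mono D (rneg D a) ((Units.mk0 s hs)⁻¹)
      have h3 := h.mul D h2
      have h4 : Pos (((refl D (rneg D a)).trans w) a.1) := by
        have h5 : (refl D (rneg D a)) a.1 = -a.1 := by
          change a.1 - bil D (rneg D a).1 a.1 • (rneg D a).1 = -a.1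
          have h6 : bil D (rneg D a).1 a.1 = -2 := by
            change bil D (-a.1) a.1 = -2
            rw [bil_neg_left, a.2]
          rw [h6]
          change a.1 - (-2 : ℤ) • (-a.1) = -a.1
          rw [smul_neg, neg_smul, neg_neg, two_smul]
          abel
        rw [AddEquiv.trans_apply, h5, map_neg]
        exact hw
      have h7 := bruhat_A D a ha h3 h4 0 (-(((Units.mk0 s hs)⁻¹ : Kˣ) : K) + t)
      rw [xg_zero, mul_one] at h7
      have h8 : n * xg D a s * xg D (rneg D a) t =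
          xg D (wr D w h.isom (rneg D a)) (χ (rneg D a) * -(((Units.mk0 s hs)⁻¹ : Kˣ) : K)) *
          (n * ng D (rneg D a) ((Units.mk0 s hs)⁻¹) *
            xg D (rneg D a) (-(((Units.mk0 s hs)⁻¹ : Kˣ) : K) + t)) := by
        rw [h1, xg_add]
        simp only [← mul_assoc]
        rw [bruhat_shift D h (rneg D a) (wr D w h.isom (rneg D a)) rfl]
      rw [h8]
      exact bruhat_left D (bruhat_mem D _ _ hpos) h7

/-- Bruhat decomposition (existence) -/
theorem bruhat {K : Type*} [Field K] (g : G D K) :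
    ∃ u ∈ UG D K, ∃ n ∈ NG D K, ∃ u' ∈ UG D K, g = u * n * u' := by
  change bruhat_Q D g
  induction g using simple_induction D with
  | h1 => exact ⟨1, one_mem _, 1, ⟨_, _, Mono.one D⟩, 1, one_mem _, by simp⟩
  | hx g i t h => exact bruhat_right D (bruhat_mem D _ _ (pos_simple D i)) h
  | hy g i t h =>
    obtain ⟨u, hu, n, hn, u', hu', rfl⟩ := h
    obtain ⟨s, r, hr, rfl⟩ := UG_decomp D i u' hu'
    have h1 := RG_conj_neg D i (-t) r hr
    rw [← xg_neg, neg_neg] at h1
    have h2 : u * n * (xg D (sr D i) s * r) * xg D (rneg D (sr D i)) t =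
        u * (n * xg D (sr D i) s * xg D (rneg D (sr D i)) t) *
          (xg D (rneg D (sr D i)) (-t) * r * xg D (rneg D (sr D i)) t) := by
      rw [xg_neg]
      group
    rw [h2]
    exact bruhat_right D (bruhat_RG_le D i h1)
      (bruhat_left D hu (bruhat_B D (sr D i) (pos_simple D i) hn s t))

/-- the degree of a basis index -/
def deg (i : Idx D) : ℤ :=
  match i with
  | Sum.inl _ => 0
  | Sum.inr β => ht β.1

theorem E_deg (α : Root D) (i j : Idx D) (h : E D α i j ≠ 0) :
    deg D i = deg D j + ht α.1 := by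
  rcases i with i | β
  · rcases j with j | γ
    · exact absurd rfl h
    · by_cases hγ : γ.1 = -α.1
      · change (0 : ℤ) = ht γ.1 + ht α.1
        rw [hγ, ht_neg]; ring
      · exfalso
        apply h
        change (if γ.1 = -α.1 then - α.1 i else 0) = 0
        rw [if_neg hγ]
  · rcases j with j | γ
    · by_cases hβ : β = α
      · change ht β.1 = (0 : ℤ) + ht α.1
        rw [hβ]; ring
      · exfalso
        apply h
        change (if β = α then - bil D α.1 (Pi.single j 1) else 0) = 0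
        rw [if_neg hβ]
    · by_cases hβ : β.1 = α.1 + γ.1
      · change ht β.1 = ht γ.1 + ht α.1
        rw [hβ, ht_add]; ring
      · exfalso
        apply h
        change (if β.1 = α.1 + γ.1 then sgn D α.1 γ.1 else 0) = 0
        rw [if_neg hβ]

theorem F_deg (α : Root D) (i j : Idx D) (h : F D α i j ≠ 0) :
    deg D i = deg D j + 2 * ht α.1 := by
  rcases i with i | β
  · rcases j with j | γ
    · exact absurd rfl h
    · exact absurd rfl h
  · rcases j with j | γ
    · exact absurd rfl h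
    · by_cases hβ : β = α ∧ γ.1 = -α.1
      · change ht β.1 = ht γ.1 + 2 * ht α.1
        rw [hβ.1, hβ.2, ht_neg]; ring
      · exfalso
        apply h
        change (if β = α ∧ γ.1 = -α.1 then (1 : ℤ) else 0) = 0
        rw [if_neg hβ]

theorem E_zero_of_deg (α : Root D) (hα : Pos α.1) (i j : Idx D) (h : deg D i ≤ deg D j) :
    E D α i j = 0 := by
  by_contra hne
  have h1 := E_deg D α i j hne
  have h2 := (pos_iff_ht D α).1 hα
  omega

theorem F_zero_of_deg (α : Root D) (hα : Pos α.1) (i j : Idx D) (h : deg D i ≤ deg D j) :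
    F D α i j = 0 := by
  by_contra hne
  have h1 := F_deg D α i j hne
  have h2 := (pos_iff_ht D α).1 hα
  omega

theorem xM_unitri {R : Type*} [CommRing R] (α : Root D) (hα : Pos α.1) (t : R) (i j : Idx D)
    (h : deg D i ≤ deg D j) : xM D α t i j = (1 : Matrix (Idx D) (Idx D) R) i j := by
  unfold xM
  rw [Matrix.add_apply, Matrix.add_apply, Matrix.smul_apply, Matrix.smul_apply, Matrix.map_apply,
    Matrix.map_apply, E_zero_of_deg D α hα i j h, F_zero_of_deg D α hα i j h]
  simp

/-- unitriangularity -/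
def UTri {R : Type*} [CommRing R] (A : Matrix (Idx D) (Idx D) R) : Prop :=
  ∀ i j, deg D i ≤ deg D j → A i j = (1 : Matrix (Idx D) (Idx D) R) i j

theorem UTri.mul {R : Type*} [CommRing R] {A B : Matrix (Idx D) (Idx D) R}
    (hA : UTri D A) (hB : UTri D B) : UTri D (A * B) := by
  intro i j hij
  rw [Matrix.mul_apply, Finset.sum_eq_single i]
  · rw [hA i i le_rfl, hB i j hij, Matrix.one_apply_eq, one_mul]
  · intro k _ hk
    by_cases h1 : deg D i ≤ deg D k
    · rw [hA i k h1, Matrix.one_apply_ne (Ne.symm hk), zero_mul]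
    · push Not at h1
      have h2 : k ≠ j := by
        rintro rfl
        omega
      rw [hB k j (by omega), Matrix.one_apply_ne h2, mul_zero]
  · intro h
    exact absurd (Finset.mem_univ i) h

theorem UG_utri {R : Type*} [CommRing R] (u : G D R) (hu : u ∈ UG D R) : UTri D (mat D u) := by
  unfold UG at hu
  induction hu using Subgroup.closure_induction'' with
  | mem x hx =>
    obtain ⟨β, t, hβ, rfl⟩ := hx
    intro i j hij
    rw [mat_xg]
    exact xM_unitri D β hβ t i j hij
  | inv_mem x hx =>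
    obtain ⟨β, t, hβ, rfl⟩ := hx
    intro i j hij
    rw [← xg_neg, mat_xg]
    exact xM_unitri D β hβ (-t) i j hij
  | one =>
    intro i j _
    rw [mat_one]
  | mul x y hx hy h1 h2 =>
    rw [mat_mul]
    exact UTri.mul D h1 h2

theorem UG_unitri {R : Type*} [CommRing R] (u : G D R) (hu : u ∈ UG D R) :
    (∀ i j, i ≠ j → deg D i ≤ deg D j → mat D u i j = 0) ∧ ∀ i, mat D u i i = 1 := by
  have h := UG_utri D u hu
  constructor
  · intro i j hne hij
    rw [h i j hij, Matrix.one_apply_ne hne]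
  · intro i
    rw [h i i le_rfl, Matrix.one_apply_eq]

theorem pow_deg_zero {R : Type*} [CommRing R] (A : Matrix (Idx D) (Idx D) R)
    (hA : ∀ i j, deg D i ≤ deg D j → A i j = 0) (n : ℕ) :
    ∀ i j, deg D i < deg D j + n → (A ^ n) i j = 0 := by
  induction n with
  | zero =>
    intro i j h
    have h1 : i ≠ j := by
      rintro rfl
      simp at h
    rw [pow_zero, Matrix.one_apply_ne h1]
  | succ n ih =>
    intro i j h
    rw [pow_succ, Matrix.mul_apply]
    refine Finset.sum_eq_zero fun k _ => ?_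
    by_cases h1 : deg D i < deg D k + n
    · rw [ih i k h1, zero_mul]
    · push Not at h1
      push_cast at h
      rw [hA k j (by omega), mul_zero]

theorem mat_pow {R : Type*} [CommRing R] (g : G D R) (n : ℕ) :
    mat D (g ^ n) = mat D g ^ n := by
  induction n with
  | zero => rw [pow_zero, pow_zero, mat_one]
  | succ n ih => rw [pow_succ, pow_succ, mat_mul, ih]

theorem card_UG {K : Type*} [Field K] [Finite K] (p : ℕ) [Fact p.Prime] [CharP K p] :
    ∃ k : ℕ, Nat.card (UG D K) = p ^ k := by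
  have hfin : Finite (G D K) := Finite.of_injective (mat D) (mat_injective D)
  have hp : p.Prime := Fact.out
  rw [← IsPGroup.iff_card]
  obtain ⟨B, hB⟩ : ∃ B : ℕ, ∀ i : Idx D, (deg D i).natAbs ≤ B :=
    ⟨∑ i : Idx D, (deg D i).natAbs, fun i =>
      Finset.single_le_sum (f := fun i : Idx D => (deg D i).natAbs)
        (fun _ _ => Nat.zero_le _) (Finset.mem_univ i)⟩
  rw [isPGroup_iff_pow_pow_eq_one]
  rintro ⟨u, hu⟩
  refine ⟨2 * B + 1, ?_⟩
  apply Subtype.ext
  change u ^ p ^ (2 * B + 1) = 1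
  apply mat_injective D
  rw [mat_pow, mat_one]
  rcases isEmpty_or_nonempty (Idx D) with hemp | hne
  · exact Subsingleton.elim _ _
  have hut := UG_utri D u hu
  have h1 : mat D u = 1 + (mat D u - 1) := by abel
  have h2 : (mat D u - 1) ^ p ^ (2 * B + 1) = 0 := by
    ext i j
    rw [Matrix.zero_apply]
    apply pow_deg_zero D (mat D u - 1)
    · intro i j hij
      rw [Matrix.sub_apply, hut i j hij, sub_self]
    · have h3 : 2 * B + 1 < p ^ (2 * B + 1) := Nat.lt_pow_self hp.one_lt
      have h4 := hB i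
      have h5 := hB j
      have h6 : ((2 * B + 1 : ℕ) : ℤ) < ((p ^ (2 * B + 1) : ℕ) : ℤ) := by exact_mod_cast h3
      generalize p ^ (2 * B + 1) = q at h6 ⊢
      omega
  rw [h1, add_pow_char_pow_of_commute _ _ (Commute.one_left _), h2, one_pow, add_zero]

theorem torus_col_ev {R : Type*} [CommRing R] {t : G D R} {χ : Root D → R}
    (h : Mono D t (AddEquiv.refl _) χ) (β : Root D) (i : Idx D) :
    mat D t i (Sum.inr β) = if i = Sum.inr β then χ β else 0 := by
  have h1 := congrFun (h.he β β rfl) i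
  rw [ev, Matrix.mulVec_single_one] at h1
  rw [Matrix.col_apply] at h1
  rw [h1]
  by_cases hi : i = Sum.inr β
  · subst hi; simp
  · rw [if_neg hi, Pi.smul_apply, Pi.single_eq_of_ne hi, smul_zero]

theorem torus_col_hv {R : Type*} [CommRing R] {t : G D R} {χ : Root D → R}
    (h : Mono D t (AddEquiv.refl _) χ) (j : Fin l) (i : Idx D) :
    mat D t i (Sum.inl j) = if i = Sum.inl j then 1 else 0 := by
  have e : hv D R (Pi.single j 1) = Pi.single (Sum.inl j) 1 := by
    funext i
    cases i with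
    | inl i =>
      by_cases hij : i = j
      · subst hij; simp [hv]
      · simp [hv, hij]
    | inr β => simp [hv]
  have h1 := congrFun (h.hh (Pi.single j 1)) i
  have e2 : hv D R ((AddEquiv.refl (Fin l → ℤ)) (Pi.single j 1)) =
    (Pi.single (Sum.inl j) 1 : Idx D → R) := e
  rw [e2, e, Matrix.mulVec_single_one, Matrix.col_apply] at h1
  rw [h1]
  by_cases hi : i = Sum.inl j
  · subst hi; simp
  · rw [if_neg hi, Pi.single_eq_of_ne hi]

theorem torus_diag {R : Type*} [CommRing R] {t : G D R} {χ : Root D → R}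
    (h : Mono D t (AddEquiv.refl _) χ) (i j : Idx D) (hij : i ≠ j) : mat D t i j = 0 := by
  cases j with
  | inl j => rw [torus_col_hv D h, if_neg hij]
  | inr j => rw [torus_col_ev D h, if_neg hij]

theorem BG_tri {R : Type*} [CommRing R] (b : G D R) (hb : b ∈ BG D R) (i j : Idx D)
    (hij : i ≠ j) (hd : deg D i ≤ deg D j) : mat D b i j = 0 := by
  obtain ⟨t, ⟨χ, ht⟩, u, hu, rfl⟩ := mem_BG D b hb
  rw [mat_mul, Matrix.mul_apply]
  refine Finset.sum_eq_zero fun k _ => ?_
  by_cases hik : i = k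
  · subst hik
    rw [(UG_unitri D u hu).1 i j hij hd, mul_zero]
  · rw [torus_diag D ht i k hik, zero_mul]

theorem BG_diag_mul {R : Type*} [CommRing R] (b b' : G D R) (hb : b ∈ BG D R)
    (hb' : b' ∈ BG D R) (i : Idx D) : mat D (b * b') i i = mat D b i i * mat D b' i i := by
  rw [mat_mul, Matrix.mul_apply]
  refine Finset.sum_eq_single i (fun j _ hji => ?_) (fun h => absurd (Finset.mem_univ i) h)
  rcases le_total (deg D i) (deg D j) with h | h
  · rw [BG_tri D b hb i j (Ne.symm hji) h, zero_mul]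
  · rw [BG_tri D b' hb' j i hji h, mul_zero]

/-- diagonal entries as characters -/
noncomputable def diagHom {K : Type*} [Field K] (i : Idx D) : BG D K →* K where
  toFun b := mat D (b : G D K) i i
  map_one' := by
    show mat D (1 : G D K) i i = 1
    rw [mat_one, Matrix.one_apply_eq]
  map_mul' b b' := BG_diag_mul D b.1 b'.1 b.2 b'.2 i

theorem exists_kappa {K : Type*} [Field K] (μ : Fin l → ℤ) : ∃ κ : BG D K →* Kˣ,
    (∀ b : BG D K, (b : G D K) ∈ UG D K → κ b = 1) ∧
    (∀ (t : BG D K) (χ : Root D → K), Mono D (t : G D K) (AddEquiv.refl _) χ →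
      ((κ t : Kˣ) : K) = ∏ i, χ (sr D i) ^ (μ i)) := by
  refine ⟨{ toFun := fun b => ∏ i, ((diagHom D (Sum.inr (sr D i))).toHomUnits b) ^ (μ i)
            map_one' := by simp
            map_mul' := fun b b' => by
              simp only [map_mul, mul_zpow, Finset.prod_mul_distrib] }, ?_, ?_⟩
  · intro b hb
    show ∏ i, ((diagHom D (Sum.inr (sr D i))).toHomUnits b) ^ (μ i) = 1
    refine Finset.prod_eq_one fun i _ => ?_
    have : (diagHom D (Sum.inr (sr D i))).toHomUnits b = 1 := by
      apply Units.ext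
      show mat D (b : G D K) _ _ = 1
      exact (UG_unitri D b.1 hb).2 _
    rw [this, _root_.one_zpow]
  · intro t χ ht
    show ((∏ i, ((diagHom D (Sum.inr (sr D i))).toHomUnits t) ^ (μ i) : Kˣ) : K) = _
    rw [Units.coe_prod]
    refine Finset.prod_congr rfl fun i _ => ?_
    rw [Units.val_zpow_eq_zpow_val]
    congr 1
    show mat D (t : G D K) (Sum.inr (sr D i)) (Sum.inr (sr D i)) = _
    rw [torus_col_ev D ht, if_pos rfl]

/-- the value of the character `κ_μ` on a cocharacter and its conjugates -/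
theorem kappa_torus {K : Type*} [Field K] (μ ν : Fin l → ℤ) (w : (Fin l → ℤ) ≃+ (Fin l → ℤ))
    (hw : ∀ x y, bil D (w x) (w y) = bil D x y) (c : Kˣ) :
    ∏ i, ((c ^ (bil D ν (wr D w hw (sr D i)).1) : Kˣ) : K) ^ (μ i) =
      ((c ^ (bil D ν (w μ)) : Kˣ) : K) := by
  have e1 : bil D ν (w μ) = ∑ i, bil D ν (w (Pi.single i 1)) * μ i := by
    conv_lhs => rw [eq_sum_single μ, map_sum, bil_sum_right]
    refine Finset.sum_congr rfl fun i _ => ?_
    rw [map_zsmul, bil_smul_right, mul_comm]
  have e2 : (c ^ (bil D ν (w μ)) : Kˣ) =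
      ∏ i, (c ^ (bil D ν (wr D w hw (sr D i)).1)) ^ (μ i) := by
    rw [e1, Finset.prod_congr rfl fun i _ => (zpow_mul c _ (μ i)).symm]
    have : ∀ s : Finset (Fin l), ∀ f : Fin l → ℤ, c ^ (∑ i ∈ s, f i) = ∏ i ∈ s, c ^ f i := by
      intro s f
      classical
      induction s using Finset.induction_on with
      | empty => simp
      | insert a s ha ih => rw [Finset.sum_insert ha, Finset.prod_insert ha, _root_.zpow_add, ih]
    exact this _ _
  rw [e2, Units.coe_prod]
  refine Finset.prod_congr rfl fun i _ => ?_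
  rw [Units.val_zpow_eq_zpow_val, Units.val_zpow_eq_zpow_val, Units.val_zpow_eq_zpow_val]

/-- an abelian ideal of positive roots that is its own centraliser -/
structure AbIdeal (P : Finset (Root D)) : Prop where
  pos : ∀ γ ∈ P, Pos γ.1
  ideal : ∀ γ ∈ P, ∀ β δ : Root D, Pos β.1 → δ.1 = γ.1 + β.1 → δ ∈ P
  comm : ∀ γ ∈ P, ∀ δ ∈ P, 0 ≤ bil D γ.1 δ.1
  selfc : ∀ δ : Root D, Pos δ.1 → δ ∉ P → ∃ γ ∈ P, bil D δ.1 γ.1 = -1

/-- the abelian group of the ideal -/
noncomputable def AG (R : Type*) [CommRing R] (P : Finset (Root D)) : Subgroup (G D R) :=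
  Subgroup.closure {g | ∃ (β : Root D) (t : R), β ∈ P ∧ g = xg D β t}

/-- product of root elements over the ideal -/
noncomputable def XA {R : Type*} [CommRing R] (P : Finset (Root D)) (a : Root D → R) : G D R :=
  (P.toList.map fun γ => xg D γ (a γ)).prod

theorem XA_add_list {R : Type*} [CommRing R] (a b : Root D → R) (L : List (Root D))
    (hL : ∀ γ ∈ L, ∀ δ ∈ L, 0 ≤ bil D γ.1 δ.1) :
    (L.map fun γ => xg D γ ((a + b) γ)).prod =
      (L.map fun γ => xg D γ (a γ)).prod * (L.map fun γ => xg D γ (b γ)).prod := by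
  induction L with
  | nil => simp
  | cons γ L ih =>
    have h1 := ih (fun γ' h' δ hδ => hL γ' (List.mem_cons_of_mem _ h') δ (List.mem_cons_of_mem _ hδ))
    have h2 : Commute (xg D γ (b γ)) (L.map fun γ => xg D γ (a γ)).prod := by
      apply Commute.list_prod_right
      intro y hy
      obtain ⟨δ, hδ, rfl⟩ := List.mem_map.1 hy
      exact xg_commute D γ δ (hL γ List.mem_cons_self δ (List.mem_cons_of_mem _ hδ)) _ _
    rw [List.map_cons, List.map_cons, List.map_cons, List.prod_cons, List.prod_cons,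
      List.prod_cons, h1, Pi.add_apply, xg_add]
    have h3 := h2.eq
    calc xg D γ (a γ) * xg D γ (b γ) *
          ((L.map fun γ => xg D γ (a γ)).prod * (L.map fun γ => xg D γ (b γ)).prod)
        = xg D γ (a γ) * (xg D γ (b γ) * (L.map fun γ => xg D γ (a γ)).prod) *
          (L.map fun γ => xg D γ (b γ)).prod := by group
      _ = xg D γ (a γ) * ((L.map fun γ => xg D γ (a γ)).prod * xg D γ (b γ)) *
          (L.map fun γ => xg D γ (b γ)).prod := by rw [h3]
      _ = _ := by group

theorem XA_add {R : Type*} [CommRing R] (P : Finset (Root D)) (hP : AbIdeal D P)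
    (a b : Root D → R) : XA D P (a + b) = XA D P a * XA D P b := by
  unfold XA
  apply XA_add_list
  intro γ hγ δ hδ
  exact hP.comm γ (Finset.mem_toList.1 hγ) δ (Finset.mem_toList.1 hδ)

theorem XA_single_list {R : Type*} [CommRing R] (γ : Root D) (t : R) (L : List (Root D))
    (hL : L.Nodup) : (L.map fun δ => xg D δ ((Pi.single γ t : Root D → R) δ)).prod =
      if γ ∈ L then xg D γ t else 1 := by
  induction L with
  | nil => simp
  | cons δ L ih =>
    rw [List.nodup_cons] at hL
    rw [List.map_cons, List.prod_cons, ih hL.2]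
    by_cases h : δ = γ
    · subst h
      rw [if_neg hL.1, mul_one, Pi.single_eq_same, if_pos List.mem_cons_self]
    · rw [Pi.single_eq_of_ne h, xg_zero, one_mul]
      have h1 : (γ ∈ δ :: L) ↔ γ ∈ L := by
        rw [List.mem_cons]
        constructor
        · rintro (h2 | h2)
          · exact absurd h2.symm h
          · exact h2
        · exact Or.inr
      by_cases h2 : γ ∈ L
      · rw [if_pos h2, if_pos (h1.2 h2)]
      · rw [if_neg h2, if_neg (fun h3 => h2 (h1.1 h3))]

theorem XA_single {R : Type*} [CommRing R] (P : Finset (Root D)) (γ : Root D) (hγ : γ ∈ P)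
    (t : R) : XA D P (Pi.single γ t) = xg D γ t := by
  unfold XA
  rw [XA_single_list D γ t P.toList P.nodup_toList, if_pos (Finset.mem_toList.2 hγ)]

theorem XA_zero {R : Type*} [CommRing R] (P : Finset (Root D)) :
    XA D P (0 : Root D → R) = 1 := by
  unfold XA
  apply List.prod_eq_one
  intro y hy
  obtain ⟨δ, hδ, rfl⟩ := List.mem_map.1 hy
  exact xg_zero D δ

theorem mem_AG {R : Type*} [CommRing R] (P : Finset (Root D)) (hP : AbIdeal D P) (g : G D R) :
    g ∈ AG D R P ↔ ∃ a, g = XA D P a := by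
  constructor
  · intro hg
    unfold AG at hg
    induction hg using Subgroup.closure_induction with
    | mem x hx =>
      obtain ⟨β, t, hβ, rfl⟩ := hx
      exact ⟨Pi.single β t, (XA_single D P β hβ t).symm⟩
    | one => exact ⟨0, (XA_zero D P).symm⟩
    | mul x y _ _ ihx ihy =>
      obtain ⟨a, rfl⟩ := ihx
      obtain ⟨b, rfl⟩ := ihy
      exact ⟨a + b, (XA_add D P hP a b).symm⟩
    | inv x _ ih =>
      obtain ⟨a, rfl⟩ := ih
      refine ⟨-a, ?_⟩
      rw [inv_eq_iff_mul_eq_one, ← XA_add D P hP, add_neg_cancel, XA_zero]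
  · rintro ⟨a, rfl⟩
    unfold XA
    apply Subgroup.list_prod_mem
    intro y hy
    obtain ⟨δ, hδ, rfl⟩ := List.mem_map.1 hy
    exact Subgroup.subset_closure ⟨δ, a δ, Finset.mem_toList.1 hδ, rfl⟩

theorem XA_congr {R : Type*} [CommRing R] (P : Finset (Root D)) (a b : Root D → R)
    (h : ∀ γ ∈ P, a γ = b γ) : XA D P a = XA D P b := by
  unfold XA
  congr 1
  apply List.map_congr_left
  intro γ hγ
  rw [h γ (Finset.mem_toList.1 hγ)]

theorem bc_col {R : Type*} [CommRing R] (g : G D R) (γ : Root D) (i : Idx D) :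
    mat D g i (Sum.inr γ) = (mat D g *ᵥ ev D R γ) i := by
  unfold ev
  rw [Matrix.mulVec_single_one]
  rfl

theorem bc_ev_ne {R : Type*} [CommRing R] (γ : Root D) (i : Idx D) (h : i ≠ Sum.inr γ) :
    ev D R γ i = 0 := by
  unfold ev
  exact Pi.single_eq_of_ne h _

theorem bc_ev_inr {R : Type*} [CommRing R] (γ δ : Root D) :
    ev D R γ (Sum.inr δ) = (Pi.single γ (1 : R) : Root D → R) δ := by
  by_cases h : δ = γ
  · rw [h]
    unfold ev
    rw [Pi.single_eq_same, Pi.single_eq_same]
  · rw [bc_ev_ne D γ _ (fun h' => h (Sum.inr.inj h')), Pi.single_eq_of_ne h]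

/-- combined statement for one element -/
def BCGood {R : Type*} [CommRing R] (P : Finset (Root D)) (b : G D R) : Prop :=
  ∀ γ ∈ P, (∀ i, (∀ δ ∈ P, i ≠ Sum.inr δ) → mat D b i (Sum.inr γ) = 0) ∧
    ∀ t : R, b * xg D γ t * b⁻¹ = XA D P (fun δ => t * mat D b (Sum.inr δ) (Sum.inr γ))

theorem bc_XA_zero {R : Type*} [CommRing R] (P : Finset (Root D)) (hP : AbIdeal D P) :
    XA D P (0 : Root D → R) = 1 := by
  have h := XA_add D P hP (0 : Root D → R) 0
  rw [add_zero] at h
  exact left_eq_mul.1 h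

theorem bc_list {R : Type*} [CommRing R] (P : Finset (Root D)) (hP : AbIdeal D P)
    (c : Root D → Root D → R) (L : List (Root D)) :
    (L.map (fun γ => XA D P (c γ))).prod =
      XA D P (fun δ => (L.map (fun γ => c γ δ)).sum) := by
  induction L with
  | nil =>
    simp only [List.map_nil, List.prod_nil, List.sum_nil]
    exact (bc_XA_zero D P hP).symm
  | cons γ L ih =>
    simp only [List.map_cons, List.prod_cons, List.sum_cons]
    rw [ih, ← XA_add D P hP]
    rfl

theorem bc_conj_XA {R : Type*} [CommRing R] (P : Finset (Root D)) (hP : AbIdeal D P) (b : G D R)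
    (hb : BCGood D P b) (a : Root D → R) :
    b * XA D P a * b⁻¹ =
      XA D P (fun δ => ∑ γ ∈ P, a γ * mat D b (Sum.inr δ) (Sum.inr γ)) := by
  have h1 : b * XA D P a * b⁻¹ =
      (P.toList.map (MulAut.conj b ∘ fun γ => xg D γ (a γ))).prod := by
    rw [← MulAut.conj_apply, XA, map_list_prod, List.map_map]
  have h2 : P.toList.map (MulAut.conj b ∘ fun γ => xg D γ (a γ)) =
      P.toList.map (fun γ => XA D P
        ((fun γ δ => a γ * mat D b (Sum.inr δ) (Sum.inr γ)) γ)) := by
    refine List.map_congr_left fun γ hγ => ?_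
    exact (hb γ (Finset.mem_toList.1 hγ)).2 (a γ)
  rw [h1, h2, bc_list D P hP]
  refine XA_congr D P _ _ fun δ _ => ?_
  exact Finset.sum_map_toList P _

theorem bc_mul_entry {R : Type*} [CommRing R] (P : Finset (Root D)) (b b' : G D R)
    (γ : Root D) (hb' : ∀ i, (∀ δ ∈ P, i ≠ Sum.inr δ) → mat D b' i (Sum.inr γ) = 0)
    (i : Idx D) : mat D (b * b') i (Sum.inr γ) =
      ∑ δ ∈ P, mat D b i (Sum.inr δ) * mat D b' (Sum.inr δ) (Sum.inr γ) := by
  rw [mat_mul, Matrix.mul_apply, Fintype.sum_sum_type]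
  have h1 : ∑ j : Fin l, mat D b i (Sum.inl j) * mat D b' (Sum.inl j) (Sum.inr γ) = 0 := by
    refine Finset.sum_eq_zero fun j _ => ?_
    rw [hb' (Sum.inl j) (fun δ _ h => by cases h), mul_zero]
  rw [h1, zero_add]
  symm
  refine Finset.sum_subset (Finset.subset_univ P) fun δ _ hδ => ?_
  rw [hb' (Sum.inr δ) (fun ε hε h => hδ ((Sum.inr.inj h) ▸ hε)), mul_zero]

theorem bc_mul {R : Type*} [CommRing R] (P : Finset (Root D)) (hP : AbIdeal D P) (b b' : G D R)
    (hb : BCGood D P b) (hb' : BCGood D P b') : BCGood D P (b * b') := by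
  intro γ hγ
  constructor
  · intro i hi
    rw [bc_mul_entry D P b b' γ (hb' γ hγ).1]
    refine Finset.sum_eq_zero fun δ hδ => ?_
    rw [(hb δ hδ).1 i hi, zero_mul]
  · intro t
    have h1 : b * b' * xg D γ t * (b * b')⁻¹ = b * (b' * xg D γ t * b'⁻¹) * b⁻¹ := by
      rw [_root_.mul_inv_rev]
      simp only [mul_assoc]
    rw [h1, (hb' γ hγ).2 t, bc_conj_XA D P hP b hb]
    refine XA_congr D P _ _ fun δ _ => ?_
    rw [bc_mul_entry D P b b' γ (hb' γ hγ).1, Finset.mul_sum]
    refine Finset.sum_congr rfl fun ε _ => ?_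
    ring

theorem bc_one {R : Type*} [CommRing R] (P : Finset (Root D)) :
    BCGood D P (1 : G D R) := by
  intro γ hγ
  constructor
  · intro i hi
    rw [mat_one, Matrix.one_apply_ne (hi γ hγ)]
  · intro t
    rw [one_mul, inv_one, mul_one, ← XA_single D P γ hγ t]
    refine XA_congr D P _ _ fun δ _ => ?_
    rw [bc_col, mat_one, Matrix.one_mulVec, bc_ev_inr]
    by_cases h : δ = γ
    · rw [h, Pi.single_eq_same, Pi.single_eq_same, mul_one]
    · rw [Pi.single_eq_of_ne h, Pi.single_eq_of_ne h, mul_zero]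

theorem bc_xg {R : Type*} [CommRing R] (P : Finset (Root D)) (hP : AbIdeal D P) (β : Root D)
    (hβ : Pos β.1) (s : R) : BCGood D P (xg D β s) := by
  intro γ hγ
  have hr := bil_range D β γ
  rcases lt_or_ge (bil D β.1 γ.1) 0 with hneg | hnn
  · by_cases h1 : bil D β.1 γ.1 = -1
    · obtain ⟨δ, hδ⟩ : ∃ δ : Root D, δ.1 = β.1 + γ.1 :=
        ⟨⟨β.1 + γ.1, (add_root_iff D β γ).2 h1⟩, rfl⟩
      have hδP : δ ∈ P := hP.ideal γ hγ β δ hβ (by rw [hδ, add_comm])
      have hcol : ∀ i, mat D (xg D β s) i (Sum.inr γ) =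
          ev D R γ i + ((sgn D β.1 γ.1 : ℤ) * s) * ev D R δ i := by
        intro i
        rw [bc_col, mat_xg, xM_ev_add D β γ δ hδ]
        rfl
      constructor
      · intro i hi
        rw [hcol, bc_ev_ne D γ i (hi γ hγ), bc_ev_ne D δ i (hi δ hδP), mul_zero, add_zero]
      · intro t
        rw [xg_bracket D β γ δ hδ, mul_inv_cancel_right, ← XA_single D P γ hγ t,
          ← XA_single D P δ hδP, ← XA_add D P hP]
        refine XA_congr D P _ _ fun ε _ => ?_
        rw [hcol, Pi.add_apply, bc_ev_inr, bc_ev_inr]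
        by_cases e1 : ε = γ
        · by_cases e2 : ε = δ
          · rw [← e2, ← e1]
            simp only [Pi.single_eq_same]
            ring
          · rw [← e1]
            rw [Pi.single_eq_same, Pi.single_eq_same, Pi.single_eq_of_ne e2,
              Pi.single_eq_of_ne e2]
            ring
        · by_cases e2 : ε = δ
          · rw [← e2]
            rw [Pi.single_eq_same, Pi.single_eq_same, Pi.single_eq_of_ne e1,
              Pi.single_eq_of_ne e1]
            ring
          · rw [Pi.single_eq_of_ne e1, Pi.single_eq_of_ne e1, Pi.single_eq_of_ne e2,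
              Pi.single_eq_of_ne e2]
            ring
    · exfalso
      have h2 : bil D β.1 γ.1 = -2 := by omega
      have h3 := (bil_eq_neg_two_iff D β γ).1 h2
      have hγp := hP.pos γ hγ
      have h4 : β.1 = 0 := by
        funext i
        have a1 := hβ i
        have a2 := hγp i
        rw [h3, Pi.neg_apply] at a2
        rw [Pi.zero_apply]
        omega
      have h5 := β.2
      rw [h4, bil_zero_left] at h5
      norm_num at h5
  · have hcol : ∀ i, mat D (xg D β s) i (Sum.inr γ) = ev D R γ i := by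
      intro i
      rw [bc_col, mat_xg, xM_ev_fix D β γ hnn]
    constructor
    · intro i hi
      rw [hcol, bc_ev_ne D γ i (hi γ hγ)]
    · intro t
      rw [xg_commute D β γ hnn, mul_inv_cancel_right, ← XA_single D P γ hγ t]
      refine XA_congr D P _ _ fun ε _ => ?_
      rw [hcol, bc_ev_inr]
      by_cases e1 : ε = γ
      · rw [e1, Pi.single_eq_same, Pi.single_eq_same, mul_one]
      · rw [Pi.single_eq_of_ne e1, Pi.single_eq_of_ne e1, mul_zero]

theorem bc_torus {R : Type*} [CommRing R] (P : Finset (Root D)) (b : G D R)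
    (hb : b ∈ TG D R) : BCGood D P b := by
  obtain ⟨χ, h⟩ := hb
  intro γ hγ
  have hcol : ∀ i, mat D b i (Sum.inr γ) = χ γ * ev D R γ i := by
    intro i
    rw [bc_col, h.he γ γ rfl]
    rfl
  constructor
  · intro i hi
    rw [hcol, bc_ev_ne D γ i (hi γ hγ), mul_zero]
  · intro t
    rw [h.conj D γ γ rfl, ← XA_single D P γ hγ]
    refine XA_congr D P _ _ fun ε _ => ?_
    rw [hcol, bc_ev_inr]
    by_cases e1 : ε = γ
    · rw [e1, Pi.single_eq_same, Pi.single_eq_same]
      ring
    · rw [Pi.single_eq_of_ne e1, Pi.single_eq_of_ne e1]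
      ring

theorem bc_all {R : Type*} [CommRing R] (P : Finset (Root D)) (hP : AbIdeal D P) (b : G D R)
    (hb : b ∈ BG D R) : BCGood D P b := by
  obtain ⟨t, ht, u, hu, rfl⟩ := mem_BG D b hb
  refine bc_mul D P hP t u (bc_torus D P t ht) ?_
  clear hb
  unfold UG at hu
  induction hu using Subgroup.closure_induction'' with
  | mem x hx =>
    obtain ⟨β, s, hβ, rfl⟩ := hx
    exact bc_xg D P hP β hβ s
  | inv_mem x hx =>
    obtain ⟨β, s, hβ, rfl⟩ := hx
    rw [← xg_neg]
    exact bc_xg D P hP β hβ (-s)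
  | one => exact bc_one D P
  | mul x y _ _ hx hy => exact bc_mul D P hP x y hx hy

/-- the Borel subgroup acts on the span of the `e_γ` with `γ` in the ideal -/
theorem BG_support {R : Type*} [CommRing R] (P : Finset (Root D)) (hP : AbIdeal D P) (b : G D R)
    (hb : b ∈ BG D R) (γ : Root D) (hγ : γ ∈ P) (i : Idx D) (hi : ∀ δ ∈ P, i ≠ Sum.inr δ) :
    mat D b i (Sum.inr γ) = 0 := by
  exact (bc_all D P hP b hb γ hγ).1 i hi

/-- the conjugation action on the abelian group is linear -/
theorem BG_conj {R : Type*} [CommRing R] (P : Finset (Root D)) (hP : AbIdeal D P) (b : G D R)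
    (hb : b ∈ BG D R) (γ : Root D) (hγ : γ ∈ P) (t : R) :
    b * xg D γ t * b⁻¹ = XA D P (fun δ => t * mat D b (Sum.inr δ) (Sum.inr γ)) := by
  exact (bc_all D P hP b hb γ hγ).2 t

theorem UKaux_gen {R : Type*} [CommRing R] (k : ℤ) (β : Root D) (t : R) (hβ : Pos β.1)
    (h : k ≤ ht β.1) : xg D β t ∈ UK D R k := Subgroup.subset_closure ⟨β, t, hβ, h, rfl⟩

theorem UKaux_mono {R : Type*} [CommRing R] {k k' : ℤ} (h : k ≤ k') : UK D R k' ≤ UK D R k :=
  Subgroup.closure_mono (by
    rintro g ⟨β, t, h1, h2, rfl⟩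
    exact ⟨β, t, h1, h.trans h2, rfl⟩)

theorem UKaux_ht (β : Root D) (h : Pos β.1) : 1 ≤ ht β.1 := by
  have := (pos_iff_ht D β).1 h
  omega

theorem UKaux_comm_gen {R : Type*} [CommRing R] (α β : Root D) (hα : Pos α.1) (hβ : Pos β.1)
    (k : ℤ) (h : k ≤ ht α.1 + ht β.1) (s t : R) :
    ∃ v ∈ UK D R k, xg D α s * xg D β t = v * xg D β t * xg D α s := by
  by_cases h0 : 0 ≤ bil D α.1 β.1
  · exact ⟨1, Subgroup.one_mem _, by rw [one_mul, xg_commute D α β h0]⟩
  · have h1 := (bil_range D α β).1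
    have h2 : bil D α.1 β.1 = -1 ∨ bil D α.1 β.1 = -2 := by omega
    rcases h2 with h2 | h2
    · obtain ⟨γ, hγ⟩ : ∃ γ : Root D, γ.1 = α.1 + β.1 :=
        ⟨⟨α.1 + β.1, (add_root_iff D α β).2 h2⟩, rfl⟩
      refine ⟨xg D γ ((sgn D α.1 β.1 : ℤ) * (s * t)), ?_, xg_bracket D α β γ hγ s t⟩
      apply UKaux_gen
      · intro i
        rw [hγ]
        exact add_nonneg (hα i) (hβ i)
      · rw [hγ, ht_add]
        exact h
    · exfalso
      have h3 := (bil_eq_neg_two_iff D α β).1 h2
      have h4 := UKaux_ht D α hα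
      have h5 := UKaux_ht D β hβ
      rw [h3, ht_neg] at h5
      omega

theorem UKaux_normal_gen {R : Type*} [CommRing R] (α : Root D) (hα : Pos α.1) (s : R) (k : ℤ)
    (v : G D R) (hv : v ∈ UK D R k) : xg D α s * v * (xg D α s)⁻¹ ∈ UK D R k := by
  unfold UK at hv
  induction hv using Subgroup.closure_induction with
  | mem v hv =>
    obtain ⟨β, t, hβ, hk, rfl⟩ := hv
    have hα1 := UKaux_ht D α hα
    obtain ⟨w, hw, h⟩ := UKaux_comm_gen D α β hα hβ k (by omega) s t
    rw [h, mul_inv_cancel_right]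
    exact Subgroup.mul_mem _ hw (UKaux_gen D k β t hβ hk)
  | one =>
    rw [mul_one, mul_inv_cancel]
    exact Subgroup.one_mem _
  | mul a b _ _ ha hb =>
    have e : xg D α s * (a * b) * (xg D α s)⁻¹ =
        (xg D α s * a * (xg D α s)⁻¹) * (xg D α s * b * (xg D α s)⁻¹) := by group
    rw [e]
    exact Subgroup.mul_mem _ ha hb
  | inv a _ ha =>
    have e : xg D α s * a⁻¹ * (xg D α s)⁻¹ = (xg D α s * a * (xg D α s)⁻¹)⁻¹ := by group
    rw [e]
    exact Subgroup.inv_mem _ ha

theorem UKaux_normal {R : Type*} [CommRing R] (k k' : ℤ) (u : G D R) (hu : u ∈ UK D R k') :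
    ∀ v ∈ UK D R k, u * v * u⁻¹ ∈ UK D R k ∧ u⁻¹ * v * u ∈ UK D R k := by
  unfold UK at hu
  induction hu using Subgroup.closure_induction with
  | mem u hu =>
    obtain ⟨β, t, hβ, _, rfl⟩ := hu
    intro v hv
    refine ⟨UKaux_normal_gen D β hβ t k v hv, ?_⟩
    have h := UKaux_normal_gen D β hβ (-t) k v hv
    rw [xg_neg, inv_inv] at h
    exact h
  | one =>
    intro v hv
    simpa using hv
  | mul a b _ _ ha hb =>
    intro v hv
    constructor
    · have e : a * b * v * (a * b)⁻¹ = a * (b * v * b⁻¹) * a⁻¹ := by group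
      rw [e]
      exact (ha _ (hb v hv).1).1
    · have e : (a * b)⁻¹ * v * (a * b) = b⁻¹ * (a⁻¹ * v * a) * b := by group
      rw [e]
      exact (hb _ (ha v hv).2).2
  | inv a _ ha =>
    intro v hv
    rw [inv_inv]
    exact ⟨(ha v hv).2, (ha v hv).1⟩

theorem UKaux_comm {R : Type*} [CommRing R] (k : ℤ) (α : Root D) (hα : Pos α.1)
    (t : R) (v : G D R) (hv : v ∈ UK D R k) :
    v⁻¹ * (xg D α t)⁻¹ * v * xg D α t ∈ UK D R (k + 1) := by
  have hα1 := UKaux_ht D α hα
  have hx : xg D α t ∈ UK D R 1 := UKaux_gen D 1 α t hα hα1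
  have key : ∀ v ∈ UK D R k, v ∈ UK D R k ∧
      v⁻¹ * (xg D α t)⁻¹ * v * xg D α t ∈ UK D R (k + 1) := by
    intro v hv
    have hv' := hv
    unfold UK at hv
    induction hv using Subgroup.closure_induction with
    | mem v hv =>
      obtain ⟨β, s, hβ, hk, rfl⟩ := hv
      refine ⟨hv', ?_⟩
      obtain ⟨w, hw, h⟩ := UKaux_comm_gen D β α hβ hα (k + 1) (by omega) s t
      have e : (xg D β s)⁻¹ * (xg D α t)⁻¹ * xg D β s * xg D α t =
          (xg D β s)⁻¹ * ((xg D α t)⁻¹ * w * xg D α t) * xg D β s := by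
        rw [mul_assoc _ (xg D β s) (xg D α t), h]
        group
      rw [e]
      exact (UKaux_normal D (k + 1) k _ hv' _ (UKaux_normal D (k + 1) 1 _ hx _ hw).2).2
    | one =>
      refine ⟨Subgroup.one_mem _, ?_⟩
      have e : (1 : G D R)⁻¹ * (xg D α t)⁻¹ * 1 * xg D α t = 1 := by group
      rw [e]
      exact Subgroup.one_mem _
    | mul a b ha hb iha ihb =>
      obtain ⟨ha1, ha2⟩ := iha ha
      obtain ⟨hb1, hb2⟩ := ihb hb
      refine ⟨hv', ?_⟩
      have e : (a * b)⁻¹ * (xg D α t)⁻¹ * (a * b) * xg D α t =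
          (b⁻¹ * (a⁻¹ * (xg D α t)⁻¹ * a * xg D α t) * b) *
            (b⁻¹ * (xg D α t)⁻¹ * b * xg D α t) := by group
      rw [e]
      exact Subgroup.mul_mem _ (UKaux_normal D (k + 1) k _ hb1 _ ha2).2 hb2
    | inv a ha iha =>
      obtain ⟨ha1, ha2⟩ := iha ha
      refine ⟨hv', ?_⟩
      have e : a⁻¹⁻¹ * (xg D α t)⁻¹ * a⁻¹ * xg D α t =
          a * (a⁻¹ * (xg D α t)⁻¹ * a * xg D α t)⁻¹ * a⁻¹ := by group
      rw [e]
      exact (UKaux_normal D (k + 1) k _ ha1 _ (Subgroup.inv_mem _ ha2)).1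
  exact (key v hv).2

theorem UKaux_list_mem {R : Type*} [CommRing R] (k : ℤ) (hk : 1 ≤ k) (s : Root D → R)
    (L : List (Root D)) (hL : ∀ α ∈ L, ht α.1 = k) :
    (L.map fun β => xg D β (s β)).prod ∈ UK D R k := by
  apply Subgroup.list_prod_mem
  intro g hg
  obtain ⟨β, hβ, rfl⟩ := List.mem_map.1 hg
  have h1 := hL β hβ
  exact UKaux_gen D k β _ ((pos_iff_ht D β).2 (by omega)) (by omega)

theorem UKaux_list {R : Type*} [CommRing R] (k : ℤ) (hk : 1 ≤ k) (β : Root D) (t : R)
    (s : Root D → R) (L : List (Root D)) : L.Nodup → (∀ α ∈ L, ht α.1 = k) → β ∈ L →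
    ∃ w ∈ UK D R (k + 1), (L.map fun β => xg D β (s β)).prod * xg D β t =
      (L.map fun α => xg D α (Function.update s β (s β + t) α)).prod * w := by
  induction L with
  | nil =>
    intro _ _ h
    exact absurd h (List.not_mem_nil)
  | cons α L ih =>
    intro hnd hL hβ
    rw [List.nodup_cons] at hnd
    have hL' : ∀ α ∈ L, ht α.1 = k := fun α' h => hL α' (List.mem_cons_of_mem _ h)
    rw [List.map_cons, List.prod_cons, List.map_cons, List.prod_cons]
    by_cases h : β = α
    · subst h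
      have hβk := hL β List.mem_cons_self
      have hpos : Pos β.1 := (pos_iff_ht D β).2 (by omega)
      have hmem := UKaux_list_mem D k hk s L hL'
      refine ⟨_, UKaux_comm D k β hpos t _ hmem, ?_⟩
      have e : (L.map fun α => xg D α (Function.update s β (s β + t) α)) =
          (L.map fun β => xg D β (s β)) := by
        apply List.map_congr_left
        intro a ha
        have hne : a ≠ β := by
          rintro rfl
          exact hnd.1 ha
        rw [Function.update_of_ne hne]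
      rw [e, Function.update_self, xg_add]
      group
    · have hβ' : β ∈ L := (List.mem_cons.1 hβ).resolve_left h
      obtain ⟨w, hw, hh⟩ := ih hnd.2 hL' hβ'
      refine ⟨w, hw, ?_⟩
      rw [mul_assoc, hh, Function.update_of_ne (Ne.symm h), mul_assoc]

theorem UKaux_step {R : Type*} [CommRing R] (k : ℤ) (hk : 1 ≤ k) (L : List (Root D))
    (hnd : L.Nodup) (hL : ∀ α : Root D, α ∈ L ↔ ht α.1 = k) (s : Root D → R) (u' : G D R)
    (hu' : u' ∈ UK D R (k + 1)) (β : Root D) (t : R) (hβ : Pos β.1) (h : k ≤ ht β.1) :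
    ∃ s' : Root D → R, ∃ u'' ∈ UK D R (k + 1),
      (L.map fun β => xg D β (s β)).prod * u' * xg D β t =
        (L.map fun β => xg D β (s' β)).prod * u'' := by
  have hx : xg D β t ∈ UK D R k := UKaux_gen D k β t hβ h
  rcases h.lt_or_eq with h1 | h1
  · exact ⟨s, u' * xg D β t, Subgroup.mul_mem _ hu' (UKaux_gen D (k + 1) β t hβ (by omega)),
      mul_assoc _ _ _⟩
  · obtain ⟨w, hw, hh⟩ := UKaux_list D k hk β t s L hnd (fun α hα => (hL α).1 hα)
      ((hL β).2 h1.symm)
    refine ⟨Function.update s β (s β + t), w * ((xg D β t)⁻¹ * u' * xg D β t),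
      Subgroup.mul_mem _ hw
      (UKaux_normal D (k + 1) k _ hx _ hu').2, ?_⟩
    rw [← mul_assoc _ w, ← hh]
    group

/-- graded pieces of the unipotent group: normal form -/
theorem UK_decomp {R : Type*} [CommRing R] (k : ℤ) (hk : 1 ≤ k) (u : G D R) (hu : u ∈ UK D R k) :
    ∃ s : Root D → R, ∃ u' ∈ UK D R (k + 1),
      u = ((Finset.univ.filter fun β : Root D => ht β.1 = k).toList.map
        fun β => xg D β (s β)).prod * u' := by
  have hL : ∀ α : Root D, α ∈ (Finset.univ.filter fun β : Root D => ht β.1 = k).toList ↔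
      ht α.1 = k := by
    intro α
    simp
  have hnd := Finset.nodup_toList (Finset.univ.filter fun β : Root D => ht β.1 = k)
  unfold UK at hu
  induction hu using Subgroup.closure_induction_right with
  | one =>
    refine ⟨fun _ => 0, 1, Subgroup.one_mem _, ?_⟩
    simp [xg_zero]
  | mul_right x _ y hy ih =>
    obtain ⟨s, u', hu', hx⟩ := ih
    obtain ⟨β, t, hβ, h, rfl⟩ := hy
    rw [hx]
    exact UKaux_step D k hk _ hnd hL s u' hu' β t hβ h
  | mul_inv_cancel x _ y hy ih =>
    obtain ⟨s, u', hu', hx⟩ := ih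
    obtain ⟨β, t, hβ, h, rfl⟩ := hy
    rw [hx, ← xg_neg]
    exact UKaux_step D k hk _ hnd hL s u' hu' β (-t) hβ h

/-- matrices raising the degree by at least `k` -/
def UKaux_small {R : Type*} [CommRing R] (k : ℤ) (A : Matrix (Idx D) (Idx D) R) : Prop :=
  ∀ i j, deg D i < deg D j + k → A i j = 0

theorem UKaux_small_add {R : Type*} [CommRing R] {k : ℤ} {A B : Matrix (Idx D) (Idx D) R}
    (hA : UKaux_small D k A) (hB : UKaux_small D k B) : UKaux_small D k (A + B) := by
  intro i j h
  rw [Matrix.add_apply, hA i j h, hB i j h, add_zero]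

theorem UKaux_small_zero {R : Type*} [CommRing R] {k : ℤ} :
    UKaux_small D k (0 : Matrix (Idx D) (Idx D) R) := by
  intro i j _
  rfl

theorem UKaux_small_smul {R : Type*} [CommRing R] {k : ℤ} {A : Matrix (Idx D) (Idx D) R}
    (c : R) (hA : UKaux_small D k A) : UKaux_small D k (c • A) := by
  intro i j h
  rw [Matrix.smul_apply, hA i j h, smul_zero]

theorem UKaux_small_mono {R : Type*} [CommRing R] {k k' : ℤ} {A : Matrix (Idx D) (Idx D) R}
    (h : k ≤ k') (hA : UKaux_small D k' A) : UKaux_small D k A := by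
  intro i j h1
  exact hA i j (by omega)

theorem UKaux_small_mul {R : Type*} [CommRing R] {k k' : ℤ} {A B : Matrix (Idx D) (Idx D) R}
    (hA : UKaux_small D k A) (hB : UKaux_small D k' B) : UKaux_small D (k + k') (A * B) := by
  intro i j h
  rw [Matrix.mul_apply]
  apply Finset.sum_eq_zero
  intro m _
  by_cases h1 : deg D i < deg D m + k
  · rw [hA i m h1, zero_mul]
  · rw [hB m j (by omega), mul_zero]

theorem UKaux_E {R : Type*} [CommRing R] (β : Root D) :
    UKaux_small D (ht β.1) ((E D β).map (Int.cast : ℤ → R)) := by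
  intro i j h
  rw [Matrix.map_apply]
  have h2 : E D β i j = 0 := by
    rcases i with i | γ <;> rcases j with j | δ
    · rfl
    · show (if δ.1 = -β.1 then - β.1 i else 0) = 0
      rw [if_neg]
      intro h3
      have h4 : (0 : ℤ) < ht δ.1 + ht β.1 := h
      rw [h3, ht_neg] at h4
      omega
    · show (if γ = β then - bil D β.1 (Pi.single j 1) else 0) = 0
      rw [if_neg]
      intro h3
      have h4 : ht γ.1 < 0 + ht β.1 := h
      rw [h3] at h4
      omega
    · show (if γ.1 = β.1 + δ.1 then sgn D β.1 δ.1 else 0) = 0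
      rw [if_neg]
      intro h3
      have h4 : ht γ.1 < ht δ.1 + ht β.1 := h
      rw [h3, ht_add] at h4
      omega
  rw [h2, Int.cast_zero]

theorem UKaux_F {R : Type*} [CommRing R] (β : Root D) :
    UKaux_small D (ht β.1 + ht β.1) ((F D β).map (Int.cast : ℤ → R)) := by
  intro i j h
  rw [Matrix.map_apply]
  have h2 : F D β i j = 0 := by
    rcases i with i | γ <;> rcases j with j | δ
    · rfl
    · rfl
    · rfl
    · show (if γ = β ∧ δ.1 = -β.1 then (1 : ℤ) else 0) = 0
      rw [if_neg]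
      rintro ⟨h3, h5⟩
      have h4 : ht γ.1 < ht δ.1 + (ht β.1 + ht β.1) := h
      rw [h3, h5, ht_neg] at h4
      omega
  rw [h2, Int.cast_zero]

theorem UKaux_xM {R : Type*} [CommRing R] (β : Root D) (t : R) (k : ℤ) (hk : 0 ≤ k)
    (h : k ≤ ht β.1) : UKaux_small D k (xM D β t - 1) := by
  have e : xM D β t - 1 = t • (E D β).map (Int.cast : ℤ → R) +
      t ^ 2 • (F D β).map (Int.cast : ℤ → R) := by
    unfold xM
    abel
  rw [e]
  exact UKaux_small_add D (UKaux_small_smul D _ (UKaux_small_mono D h (UKaux_E D β)))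
    (UKaux_small_smul D _ (UKaux_small_mono D (by omega) (UKaux_F D β)))

theorem UKaux_mat_mul {R : Type*} [CommRing R] (k : ℤ) (hk : 0 ≤ k)
    {A B : Matrix (Idx D) (Idx D) R} (hA : UKaux_small D k (A - 1))
    (hB : UKaux_small D k (B - 1)) : UKaux_small D k (A * B - 1) := by
  have e : A * B - 1 = (A - 1) * (B - 1) + ((A - 1) + (B - 1)) := by noncomm_ring
  rw [e]
  exact UKaux_small_add D (UKaux_small_mono D (by omega) (UKaux_small_mul D hA hB))
    (UKaux_small_add D hA hB)

theorem UKaux_mat {R : Type*} [CommRing R] (k : ℤ) (hk : 0 ≤ k) (u : G D R)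
    (hu : u ∈ UK D R k) : UKaux_small D k (mat D u - 1) := by
  unfold UK at hu
  induction hu using Subgroup.closure_induction_right with
  | one =>
    rw [mat_one, sub_self]
    exact UKaux_small_zero D
  | mul_right x _ y hy ih =>
    obtain ⟨β, t, hβ, h, rfl⟩ := hy
    rw [mat_mul, mat_xg]
    exact UKaux_mat_mul D k hk ih (UKaux_xM D β t k hk h)
  | mul_inv_cancel x _ y hy ih =>
    obtain ⟨β, t, hβ, h, rfl⟩ := hy
    rw [← xg_neg, mat_mul, mat_xg]
    exact UKaux_mat_mul D k hk ih (UKaux_xM D β _ k hk h)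

theorem UKaux_list_sum {R : Type*} [CommRing R] (k : ℤ) (s : Root D → R)
    (L : List (Root D)) (hL : ∀ α ∈ L, ht α.1 = k) :
    UKaux_small D k (L.map fun β => s β • (E D β).map (Int.cast : ℤ → R)).sum := by
  induction L with
  | nil => exact UKaux_small_zero D
  | cons α L ih =>
    rw [List.map_cons, List.sum_cons]
    have h1 := hL α List.mem_cons_self
    refine UKaux_small_add D (UKaux_small_smul D _ ?_)
      (ih fun α' h => hL α' (List.mem_cons_of_mem _ h))
    rw [← h1]
    exact UKaux_E D α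

theorem UKaux_list_mat {R : Type*} [CommRing R] (k : ℤ) (hk : 1 ≤ k) (s : Root D → R)
    (L : List (Root D)) (hL : ∀ α ∈ L, ht α.1 = k) :
    UKaux_small D (k + 1) (mat D (L.map fun β => xg D β (s β)).prod - 1 -
      (L.map fun β => s β • (E D β).map (Int.cast : ℤ → R)).sum) := by
  induction L with
  | nil =>
    simp only [List.map_nil, List.prod_nil, List.sum_nil, mat_one, sub_self]
    exact UKaux_small_zero D
  | cons α L ih =>
    have hL' : ∀ α ∈ L, ht α.1 = k := fun α' h => hL α' (List.mem_cons_of_mem _ h)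
    have h1 := hL α List.mem_cons_self
    have ih' := ih hL'
    have hS := UKaux_list_sum D k s L hL'
    rw [List.map_cons, List.prod_cons, List.map_cons, List.sum_cons, mat_mul, mat_xg]
    obtain ⟨P, hP⟩ : ∃ P, P = mat D (L.map fun β => xg D β (s β)).prod := ⟨_, rfl⟩
    obtain ⟨S, hS'⟩ : ∃ S, S = (L.map fun β => s β • (E D β).map (Int.cast : ℤ → R)).sum :=
      ⟨_, rfl⟩
    rw [← hP, ← hS'] at ih' ⊢
    rw [← hS'] at hS
    have hx : UKaux_small D k (xM D α (s α) - 1) := UKaux_xM D α _ k (by omega) (by omega)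
    have hPS : UKaux_small D k (P - 1) := by
      have e : P - 1 = (P - 1 - S) + S := by abel
      rw [e]
      exact UKaux_small_add D (UKaux_small_mono D (by omega) ih') hS
    have hF : UKaux_small D (k + 1) (s α ^ 2 • (F D α).map (Int.cast : ℤ → R)) := by
      apply UKaux_small_smul
      exact UKaux_small_mono D (by omega) (UKaux_F D α)
    have e : xM D α (s α) * P - 1 - (s α • (E D α).map (Int.cast : ℤ → R) + S) =
        (xM D α (s α) - 1) * (P - 1) + (s α ^ 2 • (F D α).map (Int.cast : ℤ → R) +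
          (P - 1 - S)) := by
      have e2 : s α • (E D α).map (Int.cast : ℤ → R) = xM D α (s α) - 1 -
          s α ^ 2 • (F D α).map (Int.cast : ℤ → R) := by
        unfold xM
        abel
      rw [e2]
      noncomm_ring
    rw [e]
    exact UKaux_small_add D (UKaux_small_mono D (by omega) (UKaux_small_mul D hx hPS))
      (UKaux_small_add D hF ih')

/-- graded pieces of the unipotent group: matrix coefficients. An element of `U_k` acts as
`1 + ∑ s_β E_β` (sum over `β` of height `k`) modulo terms of higher degree. -/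
theorem UK_coeff {R : Type*} [CommRing R] (k : ℤ) (hk : 1 ≤ k) (s : Root D → R) (u' : G D R)
    (hu' : u' ∈ UK D R (k + 1)) (i j : Idx D) (hij : deg D i = deg D j + k) :
    mat D (((Finset.univ.filter fun β : Root D => ht β.1 = k).toList.map
        fun β => xg D β (s β)).prod * u') i j =
      ∑ β ∈ Finset.univ.filter (fun β : Root D => ht β.1 = k), s β * ((E D β i j : ℤ) : R) := by
  have hL : ∀ α ∈ (Finset.univ.filter fun β : Root D => ht β.1 = k).toList, ht α.1 = k := by
    intro α hα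
    simpa using hα
  have h1 := UKaux_list_mat D k hk s _ hL
  have h2 := UKaux_mat D (k + 1) (by omega) u' hu'
  have hS := UKaux_list_sum D k s _ hL
  rw [mat_mul]
  obtain ⟨P, hP⟩ : ∃ P, P = mat D ((Finset.univ.filter fun β : Root D => ht β.1 = k).toList.map
    fun β => xg D β (s β)).prod := ⟨_, rfl⟩
  obtain ⟨S, hS'⟩ : ∃ S, S = ((Finset.univ.filter fun β : Root D => ht β.1 = k).toList.map
    fun β => s β • (E D β).map (Int.cast : ℤ → R)).sum := ⟨_, rfl⟩
  rw [← hP] at h1 ⊢
  rw [← hS'] at h1 hS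
  have hP0 : UKaux_small D 0 P := by
    intro a b hab
    have h3 : (P - 1 - S) a b = 0 := h1 a b (by omega)
    have h4 : S a b = 0 := hS a b (by omega)
    have h5 : (1 : Matrix (Idx D) (Idx D) R) a b = 0 := by
      apply Matrix.one_apply_ne
      rintro rfl
      omega
    rw [Matrix.sub_apply, Matrix.sub_apply, h4, h5, sub_zero, sub_zero] at h3
    exact h3
  have e : P * mat D u' = 1 + S + ((P - 1 - S) + P * (mat D u' - 1)) := by noncomm_ring
  have h3 : UKaux_small D (k + 1) ((P - 1 - S) + P * (mat D u' - 1)) := by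
    refine UKaux_small_add D h1 ?_
    have h4 := UKaux_small_mul D hP0 h2
    rw [zero_add] at h4
    exact h4
  have h5 : (1 : Matrix (Idx D) (Idx D) R) i j = 0 := by
    apply Matrix.one_apply_ne
    rintro rfl
    omega
  rw [e, Matrix.add_apply, Matrix.add_apply, h3 i j (by omega), h5, zero_add, add_zero, hS',
    Finset.sum_map_toList, Matrix.sum_apply]
  rfl

theorem mulVec_ev_apply {R : Type*} [CommRing R] (A : Matrix (Idx D) (Idx D) R) (β : Root D)
    (i : Idx D) : (A *ᵥ ev D R β) i = A i (Sum.inr β) := by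
  simp [ev]

/-- elements fixing all `e_γ`, `γ ∈ P` -/
noncomputable def stabP {R : Type*} [CommRing R] (P : Finset (Root D)) : Subgroup (G D R) where
  carrier := {g | ∀ γ ∈ P, mat D g *ᵥ ev D R γ = ev D R γ}
  mul_mem' := by
    intro a b ha hb γ hγ
    rw [mat_mul, ← Matrix.mulVec_mulVec, hb γ hγ, ha γ hγ]
  one_mem' := by
    intro γ _
    rw [mat_one, Matrix.one_mulVec]
  inv_mem' := by
    intro a ha γ hγ
    have h1 : mat D a⁻¹ *ᵥ (mat D a *ᵥ ev D R γ) = ev D R γ := by
      rw [Matrix.mulVec_mulVec, ← mat_mul, inv_mul_cancel, mat_one, Matrix.one_mulVec]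
    rwa [ha γ hγ] at h1

theorem AG_le_stabP {R : Type*} [CommRing R] (P : Finset (Root D)) (hP : AbIdeal D P) :
    AG D R P ≤ stabP D P := by
  rw [AG, Subgroup.closure_le]
  rintro g ⟨β, t, hβ, rfl⟩ γ hγ
  rw [mat_xg]
  exact xM_ev_fix D β γ (hP.comm β hβ γ hγ) t

theorem torus_trivial {K : Type*} [Field K] (P : Finset (Root D)) (hP : AbIdeal D P)
    (t : G D K) (χ : Root D → K) (ht : Mono D t (AddEquiv.refl _) χ)
    (h1 : ∀ γ ∈ P, χ γ = 1) : t = 1 := by
  have hpos : ∀ d : Root D, Pos d.1 → χ d = 1 := by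
    intro d hd
    by_cases hdP : d ∈ P
    · exact h1 d hdP
    · obtain ⟨γ, hγ, hb⟩ := hP.selfc d hd hdP
      have hroot : bil D (d.1 + γ.1) (d.1 + γ.1) = 2 := (add_root_iff D d γ).2 hb
      have hδ : (⟨d.1 + γ.1, hroot⟩ : Root D) ∈ P :=
        hP.ideal γ hγ d ⟨d.1 + γ.1, hroot⟩ hd (add_comm _ _)
      have hm := ht.hmul d γ ⟨d.1 + γ.1, hroot⟩ rfl
      rw [h1 _ hδ, h1 _ hγ, mul_one, mul_one] at hm
      have hs : ((sgn D d.1 γ.1 : ℤ) : K) * ((sgn D d.1 γ.1 : ℤ) : K) = 1 := by
        rw [← Int.cast_mul, sgn_mul_self, Int.cast_one]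
      have hm2 : ((sgn D d.1 γ.1 : ℤ) : K) = ((sgn D d.1 γ.1 : ℤ) : K) * χ d := hm
      calc χ d = (((sgn D d.1 γ.1 : ℤ) : K) * ((sgn D d.1 γ.1 : ℤ) : K)) * χ d := by
            rw [hs, one_mul]
        _ = ((sgn D d.1 γ.1 : ℤ) : K) * (((sgn D d.1 γ.1 : ℤ) : K) * χ d) := by ring
        _ = ((sgn D d.1 γ.1 : ℤ) : K) * ((sgn D d.1 γ.1 : ℤ) : K) := by rw [← hm2]
        _ = 1 := hs
  have hall : ∀ d : Root D, χ d = 1 := by
    intro d
    rcases pos_or_neg D d with hd | hd
    · exact hpos d hd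
    · have h2 := ht.hneg d
      rw [hpos (rneg D d) hd, mul_one] at h2
      exact h2
  apply mat_injective D
  apply mat_ext D
  · intro β
    rw [ht.he β β rfl, hall, one_smul, mat_one, Matrix.one_mulVec]
  · intro y
    rw [ht.hh y, mat_one, Matrix.one_mulVec]
    rfl

theorem mono_diag_entry {K : Type*} [Field K] (t u : G D K) (χ : Root D → K)
    (ht : Mono D t (AddEquiv.refl _) χ) (g : Root D) (j : Idx D) :
    mat D (t * u) (Sum.inr g) j = χ g * mat D u (Sum.inr g) j := by
  rw [mat_mul, Matrix.mul_apply, Finset.sum_eq_single (Sum.inr g)]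
  · congr 1
    have h1 := congrFun (ht.he g g rfl) (Sum.inr g)
    rw [mulVec_ev_apply] at h1
    rw [h1]
    simp [ev]
  · intro i _ hi
    rcases i with i | β
    · have h1 := congrFun (ht.hh (Pi.single i 1)) (Sum.inr g)
      have h2 : hv D K (Pi.single i (1 : ℤ)) = Pi.single (Sum.inl i) 1 := by
        funext k
        rcases k with k | k
        · by_cases hk : k = i
          · subst hk; simp [hv]
          · rw [Pi.single_eq_of_ne (by simpa using hk)]
            simp [hv, Pi.single_eq_of_ne hk]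
        · simp [hv]
      rw [h2] at h1
      have h3 : mat D t (Sum.inr g) (Sum.inl i) = 0 := by
        have h4 : (mat D t *ᵥ (Pi.single (Sum.inl i) 1 : Idx D → K)) (Sum.inr g) =
            mat D t (Sum.inr g) (Sum.inl i) := by simp
        rw [← h4, h1]
        rfl
      rw [h3, zero_mul]
    · have h1 := congrFun (ht.he β β rfl) (Sum.inr g)
      rw [mulVec_ev_apply] at h1
      rw [h1]
      have hne : (Sum.inr g : Idx D) ≠ Sum.inr β := fun e => hi e.symm
      simp [ev, Pi.single_eq_of_ne hne]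
  · intro h; exact absurd (Finset.mem_univ _) h

theorem UG_le_UK {R : Type*} [CommRing R] : UG D R ≤ UK D R 1 := by
  rw [UG, Subgroup.closure_le]
  rintro g ⟨β, t, hβ, rfl⟩
  apply Subgroup.subset_closure
  refine ⟨β, t, hβ, ?_, rfl⟩
  have := (pos_iff_ht D β).1 hβ
  omega

theorem UK_trivial {R : Type*} [CommRing R] : ∃ N : ℕ, UK D R ((N : ℤ) + 1) = ⊥ := by
  refine ⟨∑ β : Root D, (ht β.1).natAbs, ?_⟩
  rw [UK, Subgroup.closure_eq_bot_iff]
  rintro g ⟨β, t, hβ, hk, rfl⟩
  exfalso
  have h1 : (ht β.1).natAbs ≤ ∑ β : Root D, (ht β.1).natAbs :=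
    Finset.single_le_sum (f := fun β : Root D => (ht β.1).natAbs) (fun _ _ => Nat.zero_le _)
      (Finset.mem_univ β)
  omega

theorem step_centralizer {K : Type*} [Field K] (P : Finset (Root D)) (hP : AbIdeal D P)
    (k : ℤ) (hk : 1 ≤ k) (u : G D K) (hu : u ∈ UK D K k) (hs : u ∈ stabP D P) :
    ∃ a ∈ AG D K P, ∃ u' ∈ UK D K (k + 1), u = a * u' := by
  obtain ⟨s, u', hu', he⟩ := UK_decomp D k hk u hu
  refine ⟨_, ?_, u', hu', he⟩
  have hz : ∀ d : Root D, ht d.1 = k → d ∉ P → s d = 0 := by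
    intro d hd hdP
    have hpos : Pos d.1 := (pos_iff_ht D d).2 (by omega)
    obtain ⟨γ, hγ, hb⟩ := hP.selfc d hpos hdP
    have hroot : bil D (d.1 + γ.1) (d.1 + γ.1) = 2 := (add_root_iff D d γ).2 hb
    set δ : Root D := ⟨d.1 + γ.1, hroot⟩ with hδ
    have hδ1 : δ.1 = d.1 + γ.1 := rfl
    have hdeg : deg D (Sum.inr δ) = deg D (Sum.inr γ) + k := by
      show ht δ.1 = ht γ.1 + k
      rw [hδ1, ht_add, hd, add_comm]
    have hc := UK_coeff D k hk s u' hu' (Sum.inr δ) (Sum.inr γ) hdeg
    rw [← he, ← mulVec_ev_apply D (mat D u) γ (Sum.inr δ), hs γ hγ, Finset.sum_eq_single d] at hc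
    · have hne : δ ≠ γ := by
        intro e
        have e1 : d.1 = 0 := by
          have e2 := congrArg (fun z : Root D => z.1) e
          have e3 : d.1 + γ.1 = γ.1 := e2
          exact left_eq_add.1 (by rw [add_comm] at e3; exact e3.symm)
        have e4 := d.2
        rw [e1, bil_zero_left] at e4
        exact absurd e4 (by norm_num)
      have h0 : ev D K γ (Sum.inr δ) = 0 := by
        have hne' : (Sum.inr δ : Idx D) ≠ Sum.inr γ := fun e => hne (Sum.inr.inj e)
        simp [ev, Pi.single_eq_of_ne hne']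
      have hE : E D d (Sum.inr δ) (Sum.inr γ) = sgn D d.1 γ.1 := by
        simp [E, hδ1]
      rw [h0, hE] at hc
      have hsg : ((sgn D d.1 γ.1 : ℤ) : K) ≠ 0 := by
        intro e
        have h5 : ((sgn D d.1 γ.1 : ℤ) : K) * ((sgn D d.1 γ.1 : ℤ) : K) = 1 := by
          rw [← Int.cast_mul, sgn_mul_self, Int.cast_one]
        rw [e, zero_mul] at h5
        exact zero_ne_one h5
      rcases mul_eq_zero.1 hc.symm with h | h
      · exact h
      · exact absurd h hsg
    · intro β _ hβ
      have hE : E D β (Sum.inr δ) (Sum.inr γ) = 0 := by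
        have : ¬ (δ.1 = β.1 + γ.1) := by
          intro e
          apply hβ
          apply root_ext
          rw [hδ1] at e
          exact (add_right_cancel e).symm
        simp [E, this]
      rw [hE, Int.cast_zero, mul_zero]
    · intro h
      exact absurd (by simp [hd]) h
  apply Subgroup.list_prod_mem
  intro x hx
  rw [List.mem_map] at hx
  obtain ⟨β, hβ, rfl⟩ := hx
  rw [Finset.mem_toList, Finset.mem_filter] at hβ
  by_cases hβP : β ∈ P
  · exact Subgroup.subset_closure ⟨β, s β, hβP, rfl⟩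
  · rw [hz β hβ.2 hβP, xg_zero]
    exact Subgroup.one_mem _

/-- the centraliser of the abelian group in the Borel subgroup -/
theorem BG_centralizer {K : Type*} [Field K] (P : Finset (Root D)) (hP : AbIdeal D P)
    (b : G D K) (hb : b ∈ BG D K)
    (h : ∀ γ ∈ P, ∀ δ : Root D, mat D b (Sum.inr δ) (Sum.inr γ) = if δ = γ then 1 else 0) :
    b ∈ AG D K P := by
  obtain ⟨t, ⟨χ, ht⟩, u, hu, rfl⟩ := mem_BG D b hb
  have hχ : ∀ γ ∈ P, χ γ = 1 := by
    intro γ hγ
    have h1 := h γ hγ γ
    rw [if_pos rfl, mono_diag_entry D t u χ ht, (UG_unitri D u hu).2, mul_one] at h1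
    exact h1
  have ht1 : t = 1 := torus_trivial D P hP t χ ht hχ
  subst ht1
  rw [one_mul] at hb h ⊢
  have hst : u ∈ stabP D P := by
    intro γ hγ
    funext i
    rw [mulVec_ev_apply]
    by_cases hi : ∃ δ ∈ P, i = Sum.inr δ
    · obtain ⟨δ, hδ, rfl⟩ := hi
      rw [h γ hγ δ]
      by_cases e : δ = γ
      · subst e; simp [ev]
      · have hne' : (Sum.inr δ : Idx D) ≠ Sum.inr γ := fun e' => e (Sum.inr.inj e')
        rw [if_neg e]
        simp [ev, Pi.single_eq_of_ne hne']
    · push Not at hi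
      rw [BG_support D P hP u hb γ hγ i hi]
      simp [ev, Pi.single_eq_of_ne (hi γ hγ)]
  have key : ∀ n : ℕ, ∃ a ∈ AG D K P, ∃ u' ∈ UK D K ((n : ℤ) + 1), u = a * u' := by
    intro n
    induction n with
    | zero => exact ⟨1, Subgroup.one_mem _, u, by simpa using UG_le_UK D hu, (one_mul u).symm⟩
    | succ n ih =>
      obtain ⟨a, ha, u', hu', e⟩ := ih
      have hs' : u' ∈ stabP D P := by
        have e2 : u' = a⁻¹ * u := by rw [e, inv_mul_cancel_left]
        rw [e2]
        exact Subgroup.mul_mem _ (Subgroup.inv_mem _ (AG_le_stabP D P hP ha)) hst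
      obtain ⟨a', ha', u'', hu'', e'⟩ := step_centralizer D P hP ((n : ℤ) + 1) (by omega) u' hu' hs'
      refine ⟨a * a', Subgroup.mul_mem _ ha ha', u'', ?_, ?_⟩
      · push_cast; exact hu''
      · rw [e, e', mul_assoc]
  obtain ⟨N, hN⟩ := UK_trivial (R := K) D
  obtain ⟨a, ha, u', hu', e⟩ := key N
  rw [hN, Subgroup.mem_bot] at hu'
  rw [e, hu', mul_one]
  exact ha

end Pool.Agent.Helper255.CR
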