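import Mathlib

set_option autoImplicit false

namespace Pool.Agent.Helper255.CR

open Matrix

/-- A simply laced Cartan datum of finite type: `C = M + Mᵀ` is a Cartan matrix (diagonal 2, off
diagonal entries nonpositive integers, positive definite, indecomposable: types A, D, E).  The
choice of `M` also fixes the sign cocycle `(-1)^(xᵀ M y)`. -/
structure SLCartan (l : ℕ) where
  M : Matrix (Fin l) (Fin l) ℤ
  diag : ∀ i, M i i = 1
  off : ∀ i j, i ≠ j → M i j + M j i ≤ 0
  pos : ∀ x : Fin l → ℤ, x ≠ 0 → 0 < x ⬝ᵥ (M *ᵥ x)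
  conn : ∀ s : Finset (Fin l), s.Nonempty →
    (∀ i ∈ s, ∀ j, j ∉ s → M i j + M j i = 0) → s = Finset.univ

variable {l : ℕ} (D : SLCartan l)

/-- the bilinear form `xᵀ M y` -/
def eta (x y : Fin l → ℤ) : ℤ := x ⬝ᵥ (D.M *ᵥ y)

/-- the invariant form on the root lattice `ℤ^l`: `xᵀ C y` with `C = M + Mᵀ` -/
def bil (x y : Fin l → ℤ) : ℤ := eta D x y + eta D y x

/-- the sign cocycle `(-1)^(xᵀ M y)` -/
def sgn (x y : Fin l → ℤ) : ℤ := ((eta D x y).negOnePow : ℤ)

/-- the roots: vectors of norm 2 of the root lattice -/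
def Root : Type := {x : Fin l → ℤ // bil D x x = 2}

instance : DecidableEq (Root D) := fun a b => decidable_of_iff (a.1 = b.1) (by
  constructor
  · intro h; exact Subtype.ext h
  · intro h; rw [h])

theorem eta_add_left (x y z : Fin l → ℤ) : eta D (x + y) z = eta D x z + eta D y z := by
  simp [eta, add_dotProduct]

theorem eta_add_right (x y z : Fin l → ℤ) : eta D x (y + z) = eta D x y + eta D x z := by
  simp [eta, mulVec_add, dotProduct_add]

theorem eta_neg_left (x y : Fin l → ℤ) : eta D (-x) y = - eta D x y := by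
  simp [eta]

theorem eta_neg_right (x y : Fin l → ℤ) : eta D x (-y) = - eta D x y := by
  simp [eta, mulVec_neg]

theorem eta_zero_left (y : Fin l → ℤ) : eta D 0 y = 0 := by simp [eta]

theorem eta_zero_right (x : Fin l → ℤ) : eta D x 0 = 0 := by simp [eta]

theorem eta_smul_left (c : ℤ) (x y : Fin l → ℤ) : eta D (c • x) y = c * eta D x y := by
  rw [eta, smul_dotProduct, smul_eq_mul, eta]

theorem eta_smul_right (c : ℤ) (x y : Fin l → ℤ) : eta D x (c • y) = c * eta D x y := by
  rw [eta, mulVec_smul, dotProduct_smul, smul_eq_mul, eta]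

theorem eta_sum_left {ι : Type*} (s : Finset ι) (f : ι → Fin l → ℤ) (y : Fin l → ℤ) :
    eta D (∑ i ∈ s, f i) y = ∑ i ∈ s, eta D (f i) y := by
  classical
  induction s using Finset.induction_on with
  | empty => simp [eta_zero_left]
  | insert a s ha ih => rw [Finset.sum_insert ha, Finset.sum_insert ha, eta_add_left, ih]

theorem eta_sum_right {ι : Type*} (s : Finset ι) (x : Fin l → ℤ) (f : ι → Fin l → ℤ) :
    eta D x (∑ i ∈ s, f i) = ∑ i ∈ s, eta D x (f i) := by
  classical
  induction s using Finset.induction_on with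
  | empty => simp [eta_zero_right]
  | insert a s ha ih => rw [Finset.sum_insert ha, Finset.sum_insert ha, eta_add_right, ih]

theorem bil_comm (x y : Fin l → ℤ) : bil D x y = bil D y x := by
  rw [bil, bil, add_comm]

theorem bil_add_left (x y z : Fin l → ℤ) : bil D (x + y) z = bil D x z + bil D y z := by
  simp only [bil, eta_add_left, eta_add_right]; ring

theorem bil_add_right (x y z : Fin l → ℤ) : bil D x (y + z) = bil D x y + bil D x z := by
  simp only [bil, eta_add_left, eta_add_right]; ring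

theorem bil_neg_left (x y : Fin l → ℤ) : bil D (-x) y = - bil D x y := by
  simp only [bil, eta_neg_left, eta_neg_right]; ring

theorem bil_neg_right (x y : Fin l → ℤ) : bil D x (-y) = - bil D x y := by
  simp only [bil, eta_neg_left, eta_neg_right]; ring

theorem bil_sub_left (x y z : Fin l → ℤ) : bil D (x - y) z = bil D x z - bil D y z := by
  rw [sub_eq_add_neg, bil_add_left, bil_neg_left, sub_eq_add_neg]

theorem bil_sub_right (x y z : Fin l → ℤ) : bil D x (y - z) = bil D x y - bil D x z := by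
  rw [sub_eq_add_neg, bil_add_right, bil_neg_right, sub_eq_add_neg]

theorem bil_smul_left (c : ℤ) (x y : Fin l → ℤ) : bil D (c • x) y = c * bil D x y := by
  simp only [bil, eta_smul_left, eta_smul_right]; ring

theorem bil_smul_right (c : ℤ) (x y : Fin l → ℤ) : bil D x (c • y) = c * bil D x y := by
  simp only [bil, eta_smul_left, eta_smul_right]; ring

theorem bil_zero_left (y : Fin l → ℤ) : bil D 0 y = 0 := by
  simp [bil, eta_zero_left, eta_zero_right]

theorem bil_zero_right (x : Fin l → ℤ) : bil D x 0 = 0 := by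
  simp [bil, eta_zero_left, eta_zero_right]

theorem bil_sum_left {ι : Type*} (s : Finset ι) (f : ι → Fin l → ℤ) (y : Fin l → ℤ) :
    bil D (∑ i ∈ s, f i) y = ∑ i ∈ s, bil D (f i) y := by
  simp only [bil, eta_sum_left, eta_sum_right, Finset.sum_add_distrib]

theorem bil_sum_right {ι : Type*} (s : Finset ι) (x : Fin l → ℤ) (f : ι → Fin l → ℤ) :
    bil D x (∑ i ∈ s, f i) = ∑ i ∈ s, bil D x (f i) := by
  simp only [bil, eta_sum_left, eta_sum_right, Finset.sum_add_distrib]

theorem eta_single (i j : Fin l) : eta D (Pi.single i 1) (Pi.single j 1) = D.M i j := by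
  simp [eta]

theorem bil_single (i j : Fin l) :
    bil D (Pi.single i 1) (Pi.single j 1) = D.M i j + D.M j i := by
  rw [bil, eta_single, eta_single]

theorem bil_pos (x : Fin l → ℤ) (hx : x ≠ 0) : 0 < bil D x x := by
  have := D.pos x hx
  rw [bil, eta]; linarith

theorem bil_nonneg (x : Fin l → ℤ) : 0 ≤ bil D x x := by
  by_cases h : x = 0
  · subst h; simp [bil_zero_left]
  · exact (bil_pos D x h).le

theorem root_ext {α β : Root D} (h : α.1 = β.1) : α = β := Subtype.ext h

theorem root_norm (α : Root D) : bil D α.1 α.1 = 2 := α.2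

/-- the simple roots -/
def sr (i : Fin l) : Root D := ⟨Pi.single i 1, by rw [bil_single, D.diag]; norm_num⟩

/-- the negative of a root -/
def rneg (α : Root D) : Root D := ⟨-α.1, by rw [bil_neg_left, bil_neg_right, neg_neg]; exact α.2⟩

theorem eq_sum_single (z : Fin l → ℤ) : z = ∑ j, z j • (Pi.single j (1 : ℤ) : Fin l → ℤ) := by
  funext k
  simp [Finset.sum_apply, Pi.single_apply]

theorem abs_bil_le (α : Root D) (j : Fin l) : |bil D α.1 (Pi.single j 1)| ≤ 2 := by
  have h1 := bil_nonneg D (α.1 + Pi.single j 1)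
  have h2 := bil_nonneg D (α.1 - Pi.single j 1)
  have h3 : bil D (Pi.single j 1) (Pi.single j 1) = 2 := (sr D j).2
  rw [bil_add_left, bil_add_right, bil_add_right, bil_comm D (Pi.single j 1) α.1, α.2, h3] at h1
  rw [bil_sub_left, bil_sub_right, bil_sub_right, bil_comm D (Pi.single j 1) α.1, α.2, h3] at h2
  rw [abs_le]; constructor <;> linarith

theorem eq_of_bil_single (x y : Fin l → ℤ)
    (h : ∀ j, bil D x (Pi.single j 1) = bil D y (Pi.single j 1)) : x = y := by
  by_contra hne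
  have h0 : ∀ z, bil D (x - y) z = 0 := by
    intro z
    rw [eq_sum_single z, bil_sum_right]
    refine Finset.sum_eq_zero fun j _ => ?_
    rw [bil_smul_right, bil_sub_left, h j, sub_self, mul_zero]
  have := bil_pos D (x - y) (sub_ne_zero.2 hne)
  rw [h0] at this
  exact lt_irrefl _ this

theorem root_finite : Finite (Root D) := by
  let f : Root D → (Fin l → Finset.Icc (-2 : ℤ) 2) := fun α j =>
    ⟨bil D α.1 (Pi.single j 1), by
      have := abs_le.1 (abs_bil_le D α j)
      exact Finset.mem_Icc.2 ⟨this.1, this.2⟩⟩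
  refine Finite.of_injective f ?_
  intro α β h
  apply root_ext
  apply eq_of_bil_single D
  intro j
  have := congrFun h j
  exact congrArg (fun z : Finset.Icc (-2 : ℤ) 2 => z.1) this

noncomputable instance : Fintype (Root D) := @Fintype.ofFinite _ (root_finite D)

/-- index set of the basis `h_1, ..., h_l, (e_β)` of the Lie algebra -/
abbrev Idx := Fin l ⊕ Root D

/-- the matrix of `ad e_α` in the basis `h_j, e_β` of the Lie algebra with
`[h, e_β] = (h, β) e_β`, `[e_α, e_{-α}] = -h_α`, `[e_α, e_γ] = (-1)^(αᵀ M γ) e_{α + γ}` -/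
def E (α : Root D) : Matrix (Idx D) (Idx D) ℤ := Matrix.of fun i j =>
  match i, j with
  | Sum.inl _, Sum.inl _ => 0
  | Sum.inr β, Sum.inl j => if β = α then - bil D α.1 (Pi.single j 1) else 0
  | Sum.inl i, Sum.inr γ => if γ.1 = -α.1 then - α.1 i else 0
  | Sum.inr β, Sum.inr γ => if β.1 = α.1 + γ.1 then sgn D α.1 γ.1 else 0

/-- the matrix of `(ad e_α)^2 / 2` -/
def F (α : Root D) : Matrix (Idx D) (Idx D) ℤ := Matrix.of fun i j =>
  match i, j with
  | Sum.inr β, Sum.inr γ => if β = α ∧ γ.1 = -α.1 then 1 else 0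
  | _, _ => 0

/-- `x_α(t) = exp (t ad e_α)` as a matrix over any commutative ring -/
noncomputable def xM {R : Type*} [CommRing R] (α : Root D) (t : R) : Matrix (Idx D) (Idx D) R :=
  1 + t • (E D α).map (Int.cast : ℤ → R) + t ^ 2 • (F D α).map (Int.cast : ℤ → R)

/-- the adjoint Chevalley group: the group of matrices generated by all `x_α(t)` -/
noncomputable def G (R : Type*) [CommRing R] : Subgroup (GL (Idx D) R) :=
  Subgroup.closure {g | ∃ (α : Root D) (t : R), (g : Matrix (Idx D) (Idx D) R) = xM D α t}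

/-! lattice lemmas -/

theorem bil_eq (x y : Fin l → ℤ) : bil D x y = eta D x y + eta D y x := rfl

theorem sgn_add_left (x y z : Fin l → ℤ) : sgn D (x + y) z = sgn D x z * sgn D y z := by
  simp [sgn, eta_add_left, Int.negOnePow_add]

theorem sgn_add_right (x y z : Fin l → ℤ) : sgn D x (y + z) = sgn D x y * sgn D x z := by
  simp [sgn, eta_add_right, Int.negOnePow_add]

theorem sgn_neg_left (x y : Fin l → ℤ) : sgn D (-x) y = sgn D x y := by
  simp [sgn, eta_neg_left, Int.negOnePow_neg]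

theorem sgn_neg_right (x y : Fin l → ℤ) : sgn D x (-y) = sgn D x y := by
  simp [sgn, eta_neg_right, Int.negOnePow_neg]

theorem sgn_mul_self (x y : Fin l → ℤ) : sgn D x y * sgn D x y = 1 := by
  rw [sgn, ← Units.val_mul, Int.units_mul_self, Units.val_one]

theorem sgn_mul_swap (x y : Fin l → ℤ) : sgn D x y * sgn D y x = ((bil D x y).negOnePow : ℤ) := by
  simp [sgn, bil, Int.negOnePow_add]

theorem sgn_self (α : Root D) : sgn D α.1 α.1 = -1 := by
  have h1 := α.2
  have h2 : eta D α.1 α.1 = 1 := by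
    rw [bil] at h1
    linarith
  rw [sgn, h2, Int.negOnePow_one]
  rfl

theorem sgn_swap_of_odd (x y : Fin l → ℤ) (h : bil D x y = -1 ∨ bil D x y = 1) :
    sgn D y x = - sgn D x y := by
  have h1 := sgn_mul_swap D x y
  have h2 := sgn_mul_self D x y
  have h3 : ((bil D x y).negOnePow : ℤ) = -1 := by
    rcases h with h | h
    · rw [h, Int.negOnePow_neg, Int.negOnePow_one]; rfl
    · rw [h, Int.negOnePow_one]; rfl
  rw [h3] at h1
  calc sgn D y x = (sgn D x y * sgn D x y) * sgn D y x := by rw [h2, one_mul]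
    _ = sgn D x y * (sgn D x y * sgn D y x) := by ring
    _ = - sgn D x y := by rw [h1]; ring

theorem sgn_swap_of_even (x y : Fin l → ℤ) (h : bil D x y = 0) : sgn D y x = sgn D x y := by
  have h1 := sgn_mul_swap D x y
  have h2 := sgn_mul_self D x y
  have h3 : ((bil D x y).negOnePow : ℤ) = 1 := by
    rw [h, Int.negOnePow_zero]; rfl
  rw [h3] at h1
  calc sgn D y x = (sgn D x y * sgn D x y) * sgn D y x := by rw [h2, one_mul]
    _ = sgn D x y * (sgn D x y * sgn D y x) := by ring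
    _ = sgn D x y := by rw [h1]; ring

theorem bil_range (α β : Root D) : -2 ≤ bil D α.1 β.1 ∧ bil D α.1 β.1 ≤ 2 := by
  have h1 := bil_nonneg D (α.1 + β.1)
  have h2 := bil_nonneg D (α.1 - β.1)
  rw [bil_add_left, bil_add_right, bil_add_right, bil_comm D β.1 α.1, α.2, β.2] at h1
  rw [bil_sub_left, bil_sub_right, bil_sub_right, bil_comm D β.1 α.1, α.2, β.2] at h2
  constructor <;> linarith

theorem bil_eq_two_iff (α β : Root D) : bil D α.1 β.1 = 2 ↔ α = β := by
  constructor
  · intro h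
    apply root_ext
    by_contra hne
    have h2 := bil_pos D (α.1 - β.1) (sub_ne_zero.2 hne)
    rw [bil_sub_left, bil_sub_right, bil_sub_right, bil_comm D β.1 α.1, α.2, β.2, h] at h2
    linarith
  · rintro rfl
    exact α.2

theorem bil_eq_neg_two_iff (α β : Root D) : bil D α.1 β.1 = -2 ↔ β.1 = -α.1 := by
  constructor
  · intro h
    by_contra hne
    have h0 : α.1 + β.1 ≠ 0 := by
      intro h0
      apply hne
      exact (neg_eq_of_add_eq_zero_right h0).symm
    have h1 := bil_pos D (α.1 + β.1) h0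
    rw [bil_add_left, bil_add_right, bil_add_right, bil_comm D β.1 α.1, α.2, β.2, h] at h1
    linarith
  · intro h
    rw [h, bil_neg_right, α.2]

theorem add_root_iff (α β : Root D) :
    bil D (α.1 + β.1) (α.1 + β.1) = 2 ↔ bil D α.1 β.1 = -1 := by
  rw [bil_add_left, bil_add_right, bil_add_right, bil_comm D β.1 α.1, α.2, β.2]
  constructor <;> intro h <;> linarith

/-- all coordinates are nonnegative -/
def Pos (x : Fin l → ℤ) : Prop := ∀ i, 0 ≤ x i

/-- sum of coordinates -/
def ht (x : Fin l → ℤ) : ℤ := ∑ i, x i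

theorem ht_add (x y : Fin l → ℤ) : ht (x + y) = ht x + ht y := by
  simp [ht, Finset.sum_add_distrib]

theorem ht_neg (x : Fin l → ℤ) : ht (-x) = - ht x := by
  simp [ht]

theorem ht_single (i : Fin l) : ht (Pi.single i 1 : Fin l → ℤ) = 1 := by
  simp [ht]

theorem bil_disj (x y : Fin l → ℤ) (hx : ∀ i, 0 ≤ x i) (hy : ∀ i, 0 ≤ y i)
    (hxy : ∀ i, x i * y i = 0) : bil D x y ≤ 0 := by
  have h1 : bil D x y = ∑ i, ∑ j, x i * (y j * (D.M i j + D.M j i)) := by
    calc bil D x y = bil D (∑ i, x i • (Pi.single i (1 : ℤ) : Fin l → ℤ)) y := by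
          rw [← eq_sum_single]
      _ = ∑ i, x i * bil D (Pi.single i 1) y := by
          rw [bil_sum_left]
          exact Finset.sum_congr rfl fun i _ => bil_smul_left D _ _ _
      _ = ∑ i, ∑ j, x i * (y j * (D.M i j + D.M j i)) := by
          refine Finset.sum_congr rfl fun i _ => ?_
          have h2 : bil D (Pi.single i 1) y = ∑ j, y j * (D.M i j + D.M j i) := by
            calc bil D (Pi.single i 1) y
                = bil D (Pi.single i 1) (∑ j, y j • (Pi.single j (1 : ℤ) : Fin l → ℤ)) := by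
                  rw [← eq_sum_single]
              _ = ∑ j, y j * (D.M i j + D.M j i) := by
                  rw [bil_sum_right]
                  refine Finset.sum_congr rfl fun j _ => ?_
                  rw [bil_smul_right, bil_single]
          rw [h2, Finset.mul_sum]
  rw [h1]
  refine Finset.sum_nonpos fun i _ => Finset.sum_nonpos fun j _ => ?_
  by_cases hij : i = j
  · subst hij
    rw [← mul_assoc, hxy i, zero_mul]
  · rw [← mul_assoc]
    exact mul_nonpos_of_nonneg_of_nonpos (mul_nonneg (hx i) (hy j)) (D.off i j hij)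

theorem root_ne_zero (α : Root D) : α.1 ≠ 0 := by
  intro h
  have h1 := α.2
  rw [h, bil_zero_left] at h1
  norm_num at h1

theorem pos_or_neg (α : Root D) : Pos α.1 ∨ Pos (-α.1) := by
  by_contra hc
  push Not at hc
  obtain ⟨h1, h2⟩ := hc
  set p : Fin l → ℤ := fun i => max (α.1 i) 0 with hp
  set m : Fin l → ℤ := fun i => max (-α.1 i) 0 with hm
  have hpm : α.1 = p - m := by
    funext i
    simp only [Pi.sub_apply, hp, hm]
    rcases le_total 0 (α.1 i) with h | h
    · rw [max_eq_left h, max_eq_right (by linarith)]; ring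
    · rw [max_eq_right h, max_eq_left (by linarith)]; ring
  have hp0 : p ≠ 0 := by
    intro h
    apply h2
    intro i
    have : max (α.1 i) 0 = 0 := congrFun h i
    have h3 := le_max_left (α.1 i) 0
    rw [this] at h3
    show 0 ≤ -α.1 i
    linarith
  have hm0 : m ≠ 0 := by
    intro h
    apply h1
    intro i
    have : max (-α.1 i) 0 = 0 := congrFun h i
    have h3 := le_max_left (-α.1 i) 0
    rw [this] at h3
    linarith
  have hb : bil D p m ≤ 0 := by
    apply bil_disj
    · intro i; exact le_max_right _ _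
    · intro i; exact le_max_right _ _
    · intro i
      simp only [hp, hm]
      rcases le_total 0 (α.1 i) with h | h
      · rw [max_eq_right (a := -α.1 i) (by linarith), mul_zero]
      · rw [max_eq_right h, zero_mul]
  have hpp := bil_pos D p hp0
  have hmm := bil_pos D m hm0
  have e1 : bil D p p = 2 * eta D p p := by rw [bil_eq]; ring
  have e2 : bil D m m = 2 * eta D m m := by rw [bil_eq]; ring
  have h2' := α.2
  rw [hpm, bil_sub_left, bil_sub_right, bil_sub_right, bil_comm D m p] at h2'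
  omega

theorem pos_iff_ht (α : Root D) : Pos α.1 ↔ 0 < ht α.1 := by
  constructor
  · intro h
    have h1 : 0 ≤ ht α.1 := Finset.sum_nonneg fun i _ => h i
    rcases h1.lt_or_eq with h2 | h2
    · exact h2
    · exfalso
      apply root_ne_zero D α
      funext i
      have := (Finset.sum_eq_zero_iff_of_nonneg (fun i _ => h i)).1 h2.symm i (Finset.mem_univ i)
      exact this
  · intro h
    rcases pos_or_neg D α with h1 | h1
    · exact h1
    · exfalso
      have h2 : 0 ≤ ht (-α.1) := Finset.sum_nonneg fun i _ => h1 i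
      rw [ht_neg] at h2
      linarith

theorem eq_simple_of_neg (β : Root D) (i : Fin l) (hβ : Pos β.1)
    (h : Pos (-(β.1 - (sr D i).1))) : β = sr D i := by
  have h0 : ∀ j, j ≠ i → β.1 j = 0 := by
    intro j hj
    have h1 := h j
    simp only [sr, Pi.neg_apply, Pi.sub_apply, Pi.single_apply, if_neg hj] at h1
    have h2 := hβ j
    omega
  have hi : β.1 i ≤ 1 := by
    have h1 := h i
    simp only [sr, Pi.neg_apply, Pi.sub_apply, Pi.single_apply, if_true] at h1
    omega
  have hi0 := hβ i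
  have hi1 : β.1 i ≠ 0 := by
    intro h1
    apply root_ne_zero D β
    funext j
    by_cases hj : j = i
    · rw [hj]; exact h1
    · exact h0 j hj
  apply root_ext
  funext j
  show β.1 j = (Pi.single i 1 : Fin l → ℤ) j
  rw [Pi.single_apply]
  by_cases hj : j = i
  · rw [if_pos hj, hj]; omega
  · rw [if_neg hj]; exact h0 j hj

/-- a positive root which is not simple has a simple root at angle 60 degrees, and subtracting it
gives a positive root -/
theorem exists_simple_sub (β : Root D) (hβ : Pos β.1) (hns : ∀ i, β ≠ sr D i) :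
    ∃ i, ∃ γ : Root D, γ.1 = β.1 - (sr D i).1 ∧ Pos γ.1 ∧ bil D (sr D i).1 γ.1 = -1 := by
  have hsum : ∑ i, β.1 i * bil D (Pi.single i 1) β.1 = 2 := by
    calc ∑ i, β.1 i * bil D (Pi.single i 1) β.1
        = bil D (∑ i, β.1 i • (Pi.single i (1 : ℤ) : Fin l → ℤ)) β.1 := by
          rw [bil_sum_left]
          exact Finset.sum_congr rfl fun i _ => (bil_smul_left D _ _ _).symm
      _ = bil D β.1 β.1 := by rw [← eq_sum_single]
      _ = 2 := β.2
  obtain ⟨i, hi⟩ : ∃ i, 0 < β.1 i * bil D (Pi.single i 1) β.1 := by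
    by_contra hc
    push Not at hc
    have := Finset.sum_nonpos fun i (_ : i ∈ Finset.univ) => hc i
    rw [hsum] at this
    norm_num at this
  have hb0 : 0 < bil D (sr D i).1 β.1 := by
    show 0 < bil D (Pi.single i 1) β.1
    by_contra hc
    push Not at hc
    have := mul_nonpos_of_nonneg_of_nonpos (hβ i) hc
    linarith
  have hr := bil_range D (sr D i) β
  have hn2 : bil D (sr D i).1 β.1 ≠ 2 := by
    intro h
    exact hns i ((bil_eq_two_iff D (sr D i) β).1 h).symm
  have hb1 : bil D (sr D i).1 β.1 = 1 := by omega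
  have hnorm : bil D (β.1 - (sr D i).1) (β.1 - (sr D i).1) = 2 := by
    rw [bil_sub_left, bil_sub_right, bil_sub_right, bil_comm D β.1 (sr D i).1, β.2, (sr D i).2,
      hb1]
    norm_num
  refine ⟨i, ⟨β.1 - (sr D i).1, hnorm⟩, rfl, ?_, ?_⟩
  · rcases pos_or_neg D ⟨β.1 - (sr D i).1, hnorm⟩ with h | h
    · exact h
    · exact absurd (eq_simple_of_neg D β i hβ h) (hns i)
  · show bil D (sr D i).1 (β.1 - (sr D i).1) = -1
    rw [bil_sub_right, hb1, (sr D i).2]
    norm_num

/-- subtracting a simple root from a positive root other than it -/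
theorem pos_sub_simple (β γ : Root D) (i : Fin l) (hβ : Pos β.1) (hne : β ≠ sr D i)
    (hγ : γ.1 = β.1 - (sr D i).1) : Pos γ.1 ∧ γ ≠ sr D i := by
  constructor
  · rcases pos_or_neg D γ with h | h
    · exact h
    · rw [hγ] at h
      exact absurd (eq_simple_of_neg D β i hβ h) hne
  · intro h
    rw [h] at hγ
    have h1 : β.1 = (2 : ℤ) • (sr D i).1 := by
      rw [two_smul]
      nth_rewrite 1 [hγ]
      rw [sub_add_cancel]
    have h2 := β.2
    rw [h1, bil_smul_left, bil_smul_right, (sr D i).2] at h2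
    norm_num at h2

theorem pos_simple (i : Fin l) : Pos (sr D i).1 := by
  intro j
  show 0 ≤ (Pi.single i 1 : Fin l → ℤ) j
  rw [Pi.single_apply]
  split_ifs <;> norm_num

theorem bil_exp658 (x y : Fin l → ℤ) : bil D x y = ∑ j, x j * bil D (Pi.single j 1) y := by
  calc bil D x y = bil D (∑ j, x j • (Pi.single j (1 : ℤ) : Fin l → ℤ)) y := by
        rw [← eq_sum_single x]
    _ = _ := by
        rw [bil_sum_left]
        exact Finset.sum_congr rfl fun j _ => bil_smul_left D _ _ _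

theorem bil_nonneg658 (x y : Fin l → ℤ) (hx : Pos x) (hy : ∀ i, 0 ≤ bil D (Pi.single i 1) y) :
    0 ≤ bil D x y := by
  rw [bil_exp658]
  exact Finset.sum_nonneg fun j _ => mul_nonneg (hx j) (hy j)

theorem dom658 (γ : Root D) (hγ : Pos γ.1) (h : ∀ i, bil D (sr D i).1 γ.1 ≠ -1) (i : Fin l) :
    0 ≤ bil D (Pi.single i 1) γ.1 := by
  have h1 : bil D (Pi.single i 1) γ.1 = bil D (sr D i).1 γ.1 := rfl
  rw [h1]
  have h2 := bil_range D (sr D i) γ
  have h3 : bil D (sr D i).1 γ.1 ≠ -2 := by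
    intro h4
    have h5 := (bil_eq_neg_two_iff D (sr D i) γ).1 h4
    have h6 := hγ i
    rw [h5] at h6
    have h7 : (-(sr D i).1) i = -1 := by
      show -((Pi.single i 1 : Fin l → ℤ) i) = -1
      rw [Pi.single_eq_same]
    rw [h7] at h6
    omega
  have h4 := h i
  omega

theorem full658 (γ : Root D) (hγ : Pos γ.1) (h : ∀ i, 0 ≤ bil D (Pi.single i 1) γ.1) (i : Fin l) :
    0 < γ.1 i := by
  have hs : (Finset.univ.filter fun i => 0 < γ.1 i) = Finset.univ := by
    refine D.conn _ ?_ ?_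
    · by_contra hne
      rw [Finset.not_nonempty_iff_eq_empty, Finset.filter_eq_empty_iff] at hne
      have h0 : γ.1 = 0 := by
        funext j
        have h1 := hγ j
        have h2 := hne (Finset.mem_univ j)
        show γ.1 j = 0
        omega
      have h1 := γ.2
      rw [h0, bil_zero_left] at h1
      omega
    · intro i hi j hj
      have hi' : 0 < γ.1 i := (Finset.mem_filter.1 hi).2
      have hj' : γ.1 j = 0 := by
        have h1 := hγ j
        have h2 : ¬ 0 < γ.1 j := fun h3 => hj (Finset.mem_filter.2 ⟨Finset.mem_univ j, h3⟩)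
        omega
      have h1 := h j
      rw [bil_comm, bil_exp658] at h1
      have h2 : ∀ k ∈ (Finset.univ : Finset (Fin l)),
          γ.1 k * bil D (Pi.single k 1) (Pi.single j 1) ≤ 0 := by
        intro k _
        by_cases hk : k = j
        · rw [hk, hj', zero_mul]
        · rw [bil_single]
          exact mul_nonpos_of_nonneg_of_nonpos (hγ k) (D.off k j hk)
      have h3 : ∑ k, γ.1 k * bil D (Pi.single k 1) (Pi.single j 1) = 0 :=
        le_antisymm (Finset.sum_nonpos h2) h1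
      have h4 := (Finset.sum_eq_zero_iff_of_nonpos h2).1 h3 i (Finset.mem_univ i)
      rw [bil_single] at h4
      exact (mul_eq_zero.1 h4).resolve_left hi'.ne'
  have h1 : i ∈ (Finset.univ.filter fun i => 0 < γ.1 i) := by
    rw [hs]; exact Finset.mem_univ i
  exact (Finset.mem_filter.1 h1).2

theorem uniq658 (α γ : Root D) (hα : Pos α.1) (hγ : Pos γ.1)
    (h1 : ∀ i, 0 ≤ bil D (Pi.single i 1) α.1) (h2 : ∀ i, 0 ≤ bil D (Pi.single i 1) γ.1) :
    α = γ := by
  by_contra hne
  have h3 : 0 ≤ bil D γ.1 α.1 := bil_nonneg658 D _ _ hγ h1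
  have h4 : bil D γ.1 α.1 ≠ 0 := by
    intro h0
    rw [bil_exp658] at h0
    have h5 := (Finset.sum_eq_zero_iff_of_nonneg
      (fun j _ => mul_nonneg (hγ j) (h1 j))).1 h0
    have h6 : bil D α.1 α.1 = 0 := by
      rw [bil_exp658]
      refine Finset.sum_eq_zero fun j hj => ?_
      have h7 := (mul_eq_zero.1 (h5 j hj)).resolve_left (full658 D γ hγ h2 j).ne'
      rw [h7, mul_zero]
    rw [α.2] at h6
    omega
  have h5 : bil D γ.1 α.1 ≠ 2 := fun h6 => hne ((bil_eq_two_iff D γ α).1 h6).symm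
  have h6 := bil_range D γ α
  have h7 : bil D γ.1 α.1 = 1 := by omega
  have h8 : bil D α.1 γ.1 = 1 := by rw [bil_comm]; exact h7
  have h9 : bil D (α.1 - γ.1) (α.1 - γ.1) = 2 := by
    rw [bil_sub_left, bil_sub_right, bil_sub_right, α.2, γ.2, h7, h8]
    norm_num
  rcases pos_or_neg D ⟨α.1 - γ.1, h9⟩ with h10 | h10
  · have h11 : 0 ≤ bil D (α.1 - γ.1) γ.1 := bil_nonneg658 D _ _ h10 h2
    rw [bil_sub_left, h8, γ.2] at h11
    omega
  · have h11 : 0 ≤ bil D (-(α.1 - γ.1)) α.1 := bil_nonneg658 D _ _ h10 h1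
    rw [bil_neg_left, bil_sub_left, h7, α.2] at h11
    omega

/-- the highest root -/
theorem exists_highest (hl : 0 < l) : ∃ α₀ : Root D, Pos α₀.1 ∧
    ∀ γ : Root D, Pos γ.1 → γ ≠ α₀ → ht γ.1 < ht α₀.1 ∧
      ∃ i, bil D (sr D i).1 γ.1 = -1 := by
  classical
  obtain ⟨α₀, hα₀, hmax⟩ := Finset.exists_max_image
    (Finset.univ.filter fun α : Root D => Pos α.1) (fun α => ht α.1)
    ⟨sr D ⟨0, hl⟩, Finset.mem_filter.2 ⟨Finset.mem_univ _, pos_simple D _⟩⟩
  have hpos : Pos α₀.1 := (Finset.mem_filter.1 hα₀).2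
  have hadd : ∀ γ : Root D, Pos γ.1 → ∀ i, bil D (sr D i).1 γ.1 = -1 → ht γ.1 < ht α₀.1 := by
    intro γ hγ i hi
    have h1 := (add_root_iff D (sr D i) γ).2 hi
    have h2 : Pos ((sr D i).1 + γ.1) := fun j => add_nonneg (pos_simple D i j) (hγ j)
    have h3 := hmax ⟨(sr D i).1 + γ.1, h1⟩ (Finset.mem_filter.2 ⟨Finset.mem_univ _, h2⟩)
    have h4 : ht ((sr D i).1 + γ.1) = 1 + ht γ.1 := by
      rw [ht_add]
      congr 1
      exact ht_single i
    have h5 : ht ((sr D i).1 + γ.1) ≤ ht α₀.1 := h3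
    omega
  refine ⟨α₀, hpos, fun γ hγ hne => ?_⟩
  have hdom : ∀ i, 0 ≤ bil D (Pi.single i 1) α₀.1 :=
    dom658 D α₀ hpos fun i hi => lt_irrefl _ (hadd α₀ hpos i hi)
  have hex : ∃ i, bil D (sr D i).1 γ.1 = -1 := by
    by_contra hcon
    push Not at hcon
    exact hne (uniq658 D α₀ γ hpos hγ hdom (dom658 D γ hγ hcon)).symm
  obtain ⟨i, hi⟩ := hex
  exact ⟨hadd γ hγ i hi, i, hi⟩

theorem ei_ht_pos {β : Root D} (hβ : Pos β.1) : 0 < ht β.1 := (pos_iff_ht D β).1 hβ

theorem ei_ne_neg_two {β γ : Root D} (hβ : Pos β.1) (hγ : Pos γ.1) : bil D β.1 γ.1 ≠ -2 := by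
  intro h
  rw [bil_eq_neg_two_iff] at h
  have h1 := ei_ht_pos D hβ
  have h2 := ei_ht_pos D hγ
  rw [h, ht_neg] at h2
  linarith

theorem ei_ge {β γ : Root D} (hβ : Pos β.1) (hγ : Pos γ.1) (h : bil D β.1 γ.1 ≠ -1) :
    0 ≤ bil D β.1 γ.1 := by
  have h1 := (bil_range D β γ).1
  have h2 := ei_ne_neg_two D hβ hγ
  omega

theorem ei_add_bil {β γ δ : Root D} (h : δ.1 = γ.1 + β.1) : bil D γ.1 β.1 = -1 := by
  rw [← add_root_iff, ← h]
  exact δ.2

/-- a maximal abelian ideal of positive roots -/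
theorem exists_ideal (α₀ : Root D) (hα₀ : Pos α₀.1)
    (hhigh : ∀ γ : Root D, Pos γ.1 → γ ≠ α₀ → ht γ.1 < ht α₀.1 ∧
      ∃ i, bil D (sr D i).1 γ.1 = -1) :
    ∃ P : Finset (Root D), α₀ ∈ P ∧ (∀ γ ∈ P, Pos γ.1) ∧
      (∀ γ ∈ P, ∀ β δ : Root D, Pos β.1 → δ.1 = γ.1 + β.1 → δ ∈ P) ∧
      (∀ γ ∈ P, ∀ δ ∈ P, 0 ≤ bil D γ.1 δ.1) ∧
      (∀ δ : Root D, Pos δ.1 → δ ∉ P → ∃ γ ∈ P, bil D δ.1 γ.1 = -1) := by
  classical
  let Good : Finset (Root D) → Prop := fun P => α₀ ∈ P ∧ (∀ γ ∈ P, Pos γ.1) ∧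
      (∀ γ ∈ P, ∀ β δ : Root D, Pos β.1 → δ.1 = γ.1 + β.1 → δ ∈ P) ∧
      (∀ γ ∈ P, ∀ δ ∈ P, 0 ≤ bil D γ.1 δ.1)
  have h0 : Good {α₀} := by
    refine ⟨Finset.mem_singleton_self _, ?_, ?_, ?_⟩
    · intro γ hγ
      rw [Finset.mem_singleton] at hγ
      rw [hγ]; exact hα₀
    · intro γ hγ β δ hβ hδ
      rw [Finset.mem_singleton] at hγ
      subst hγ
      exfalso
      have h1 : ht δ.1 = ht γ.1 + ht β.1 := by rw [hδ, ht_add]
      have h2 := ei_ht_pos D hβ
      have h3 := ei_ht_pos D hα₀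
      have h4 : Pos δ.1 := (pos_iff_ht D δ).2 (by linarith)
      have h5 : δ ≠ γ := by
        intro h6
        rw [h6] at h1
        linarith
      have h7 := (hhigh δ h4 h5).1
      linarith
    · intro γ hγ δ hδ
      rw [Finset.mem_singleton] at hγ hδ
      rw [hγ, hδ, α₀.2]; norm_num
  obtain ⟨P, hP, hmax⟩ := Finset.exists_max_image (Finset.univ.filter Good) Finset.card
    ⟨{α₀}, Finset.mem_filter.2 ⟨Finset.mem_univ _, h0⟩⟩
  have hPG : Good P := (Finset.mem_filter.1 hP).2
  obtain ⟨hP1, hP2, hP3, hP4⟩ := hPG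
  refine ⟨P, hP1, hP2, hP3, hP4, ?_⟩
  intro δ₀ hδ₀ hδ₀P
  by_contra hcon
  push Not at hcon
  obtain ⟨δ, hδ, hδmax⟩ := Finset.exists_max_image
    (Finset.univ.filter fun δ : Root D => Pos δ.1 ∧ δ ∉ P ∧ ∀ γ ∈ P, bil D δ.1 γ.1 ≠ -1)
    (fun δ => ht δ.1) ⟨δ₀, Finset.mem_filter.2 ⟨Finset.mem_univ _, hδ₀, hδ₀P, hcon⟩⟩
  obtain ⟨-, hδpos, hδP, hδb⟩ := Finset.mem_filter.1 hδ
  have hδge : ∀ γ ∈ P, 0 ≤ bil D δ.1 γ.1 := fun γ hγ => ei_ge D hδpos (hP2 γ hγ) (hδb γ hγ)
  have hkey : ∀ β δ' : Root D, Pos β.1 → δ'.1 = δ.1 + β.1 → δ' ∈ P := by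
    intro β δ' hβ hδ'
    by_contra hn
    have h1 : ht δ'.1 = ht δ.1 + ht β.1 := by rw [hδ', ht_add]
    have h2 := ei_ht_pos D hβ
    have h3 := ei_ht_pos D hδpos
    have h4 : Pos δ'.1 := (pos_iff_ht D δ').2 (by linarith)
    have h5 : ∀ γ ∈ P, bil D δ'.1 γ.1 ≠ -1 := by
      intro γ hγ
      have e1 : bil D δ'.1 γ.1 = bil D δ.1 γ.1 + bil D β.1 γ.1 := by rw [hδ', bil_add_left]
      have e2 := hδge γ hγ
      by_cases e3 : bil D β.1 γ.1 = -1
      · have e4 : bil D (γ.1 + β.1) (γ.1 + β.1) = 2 := by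
          rw [add_root_iff, bil_comm]; exact e3
        have e5 : (⟨γ.1 + β.1, e4⟩ : Root D) ∈ P := hP3 γ hγ β _ hβ rfl
        have e6 := hδge _ e5
        have e7 : bil D δ.1 (γ.1 + β.1) = bil D δ.1 γ.1 + bil D δ.1 β.1 := bil_add_right D _ _ _
        have e8 := ei_add_bil D hδ'
        have e9 : 0 ≤ bil D δ.1 (γ.1 + β.1) := e6
        omega
      · have e4 := ei_ge D hβ (hP2 γ hγ) e3
        omega
    have h6 := hδmax δ' (Finset.mem_filter.2 ⟨Finset.mem_univ _, h4, hn, h5⟩)
    have h7 : ht δ'.1 ≤ ht δ.1 := h6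
    linarith
  have hG : Good (insert δ P) := by
    refine ⟨Finset.mem_insert_of_mem hP1, ?_, ?_, ?_⟩
    · intro γ hγ
      rcases Finset.mem_insert.1 hγ with h | h
      · rw [h]; exact hδpos
      · exact hP2 γ h
    · intro γ hγ β δ' hβ hδ'
      rcases Finset.mem_insert.1 hγ with h | h
      · rw [h] at hδ'
        exact Finset.mem_insert_of_mem (hkey β δ' hβ hδ')
      · exact Finset.mem_insert_of_mem (hP3 γ h β δ' hβ hδ')
    · intro γ hγ γ' hγ'
      rcases Finset.mem_insert.1 hγ with h | h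
      · rcases Finset.mem_insert.1 hγ' with h' | h'
        · rw [h, h', δ.2]; norm_num
        · rw [h]; exact hδge γ' h'
      · rcases Finset.mem_insert.1 hγ' with h' | h'
        · rw [h', bil_comm]; exact hδge γ h
        · exact hP4 γ h γ' h'
  have hle := hmax (insert δ P) (Finset.mem_filter.2 ⟨Finset.mem_univ _, hG⟩)
  rw [Finset.card_insert_of_notMem hδP] at hle
  omega

theorem exists_generic_aux {ι : Type} (s : Finset ι) (φ : ι → ((Fin l → ℤ) →+ ℤ))
    (h : ∀ i ∈ s, ∃ v, φ i v ≠ 0) : ∃ μ, ∀ i ∈ s, φ i μ ≠ 0 := by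
  classical
  induction s using Finset.induction_on with
  | empty => exact ⟨0, fun i hi => absurd hi (Finset.notMem_empty i)⟩
  | insert a s ha ih =>
    obtain ⟨μ, hμ⟩ := ih (fun i hi => h i (Finset.mem_insert_of_mem hi))
    by_cases h0 : φ a μ = 0
    · obtain ⟨v, hv⟩ := h a (Finset.mem_insert_self a s)
      refine ⟨(1 + ∑ i ∈ s, |φ i v|) • μ + v, ?_⟩
      intro i hi
      rw [map_add, map_zsmul, smul_eq_mul]
      rcases Finset.mem_insert.1 hi with rfl | hi
      · rw [h0, mul_zero, zero_add]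
        exact hv
      · intro heq
        have h1 : |φ i v| ≤ ∑ i ∈ s, |φ i v| :=
          Finset.single_le_sum (f := fun i => |φ i v|) (fun _ _ => abs_nonneg _) hi
        have h2 : 1 ≤ |φ i μ| := Int.one_le_abs (hμ i hi)
        have h3 : (1 + ∑ i ∈ s, |φ i v|) * φ i μ = - φ i v := by linarith
        have h4 : |(1 + ∑ i ∈ s, |φ i v|) * φ i μ| = |φ i v| := by rw [h3, abs_neg]
        have h5 : 0 ≤ ∑ i ∈ s, |φ i v| := Finset.sum_nonneg fun _ _ => abs_nonneg _
        rw [abs_mul, abs_of_nonneg (by linarith)] at h4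
        nlinarith
    · refine ⟨μ, ?_⟩
      intro i hi
      rcases Finset.mem_insert.1 hi with rfl | hi
      · exact h0
      · exact hμ i hi

theorem exists_generic_fin : {w : (Fin l → ℤ) ≃+ (Fin l → ℤ) |
    ∀ x y, bil D (w x) (w y) = bil D x y}.Finite := by
  haveI := root_finite D
  let f : {w : (Fin l → ℤ) ≃+ (Fin l → ℤ) // ∀ x y, bil D (w x) (w y) = bil D x y} →
      (Fin l → Root D) := fun w j => ⟨w.1 (sr D j).1, by rw [w.2]; exact (sr D j).2⟩
  have hf : Function.Injective f := by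
    intro w w' hww
    apply Subtype.ext
    apply AddEquiv.ext
    intro x
    have h1 : ∀ j, w.1 (Pi.single j 1) = w'.1 (Pi.single j 1) := fun j =>
      congrArg Subtype.val (congrFun hww j)
    rw [eq_sum_single x, map_sum, map_sum]
    refine Finset.sum_congr rfl fun j _ => ?_
    rw [map_zsmul, map_zsmul, h1]
  have hfin := Finite.of_injective f hf
  exact Set.finite_coe_iff.1 hfin

/-- a generic lattice vector, moved by every isometry other than the identity, detectably so on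
roots with a uniform bound -/
theorem exists_generic : ∃ (μ : Fin l → ℤ) (N : ℕ), ∀ w : (Fin l → ℤ) ≃+ (Fin l → ℤ),
    (∀ x y, bil D (w x) (w y) = bil D x y) → (∃ x, w x ≠ x) →
    ∃ γ : Root D, bil D γ.1 (w μ - μ) ≠ 0 ∧ (bil D γ.1 (w μ - μ)).natAbs < N := by
  classical
  have hW : {w : (Fin l → ℤ) ≃+ (Fin l → ℤ) |
    (∀ x y, bil D (w x) (w y) = bil D x y) ∧ ∃ x, w x ≠ x}.Finite :=
    (exists_generic_fin D).subset fun w hw => hw.1
  have hφ : ∀ w : (Fin l → ℤ) ≃+ (Fin l → ℤ), ∃ φ : (Fin l → ℤ) →+ ℤ,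
      ((∃ x, w x ≠ x) → ∃ v, φ v ≠ 0) ∧ ∀ x, φ x ≠ 0 → w x ≠ x := by
    intro w
    by_cases h : ∃ x, w x ≠ x
    · obtain ⟨x, hx⟩ := h
      obtain ⟨i, hi⟩ := Function.ne_iff.1 hx
      refine ⟨(Pi.evalAddMonoidHom (fun _ : Fin l => ℤ) i).comp
        ((w : (Fin l → ℤ) →+ (Fin l → ℤ)) - AddMonoidHom.id _), fun _ => ⟨x, ?_⟩, ?_⟩
      · show (w x - x) i ≠ 0
        rw [Pi.sub_apply]
        exact sub_ne_zero.2 hi
      · intro y hy hwy
        apply hy
        show (w y - y) i = 0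
        rw [hwy, sub_self, Pi.zero_apply]
    · exact ⟨0, fun h' => absurd h' h, fun x hx => absurd rfl hx⟩
  choose φ hφ1 hφ2 using hφ
  obtain ⟨μ, hμ⟩ := exists_generic_aux hW.toFinset φ (fun w hw =>
    hφ1 w ((hW.mem_toFinset).1 hw).2)
  refine ⟨μ, 1 + ∑ w ∈ hW.toFinset, ∑ γ : Root D, (bil D γ.1 (w μ - μ)).natAbs, ?_⟩
  intro w hw1 hw2
  have hw : w ∈ hW.toFinset := (hW.mem_toFinset).2 ⟨hw1, hw2⟩
  have hne : w μ - μ ≠ 0 := sub_ne_zero.2 (hφ2 w μ (hμ w hw))
  have hex : ∃ j, bil D (sr D j).1 (w μ - μ) ≠ 0 := by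
    by_contra hcon
    push Not at hcon
    apply hne
    apply eq_of_bil_single D
    intro j
    rw [bil_zero_left, bil_comm]
    exact hcon j
  obtain ⟨j, hj⟩ := hex
  refine ⟨sr D j, hj, ?_⟩
  have h1 : (bil D (sr D j).1 (w μ - μ)).natAbs ≤
      ∑ γ : Root D, (bil D γ.1 (w μ - μ)).natAbs :=
    Finset.single_le_sum (f := fun γ : Root D => (bil D γ.1 (w μ - μ)).natAbs)
      (fun _ _ => Nat.zero_le _) (Finset.mem_univ _)
  have h2 : ∑ γ : Root D, (bil D γ.1 (w μ - μ)).natAbs ≤
      ∑ w ∈ hW.toFinset, ∑ γ : Root D, (bil D γ.1 (w μ - μ)).natAbs :=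
    Finset.single_le_sum (f := fun w : (Fin l → ℤ) ≃+ (Fin l → ℤ) =>
      ∑ γ : Root D, (bil D γ.1 (w μ - μ)).natAbs) (fun _ _ => Nat.zero_le _) hw
  omega

theorem exists_rho_bil_vecMul (v x : Fin l → ℤ) :
    bil D v x = (v ᵥ* (D.M + D.Mᵀ)) ⬝ᵥ x := by
  rw [bil, eta, eta, vecMul_add, add_dotProduct, vecMul_transpose, dotProduct_mulVec,
    dotProduct_comm x (D.M *ᵥ v)]

/-- a positive multiple of the sum of fundamental weights is in the lattice -/
theorem exists_rho : ∃ (ν : Fin l → ℤ) (d : ℕ), 1 ≤ d ∧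
    ∀ x : Fin l → ℤ, bil D ν x = d * ht x := by
  have hdet : (D.M + D.Mᵀ).det ≠ 0 := by
    intro h
    obtain ⟨v, hv, hv2⟩ := Matrix.exists_vecMul_eq_zero_iff.2 h
    have h1 := bil_pos D v hv
    rw [exists_rho_bil_vecMul, hv2, zero_dotProduct] at h1
    exact lt_irrefl _ h1
  refine ⟨Int.sign (D.M + D.Mᵀ).det • ((fun _ => 1) ᵥ* (D.M + D.Mᵀ).adjugate),
    (D.M + D.Mᵀ).det.natAbs, Nat.one_le_iff_ne_zero.2 (Int.natAbs_ne_zero.2 hdet), fun x => ?_⟩
  rw [exists_rho_bil_vecMul, smul_vecMul, vecMul_vecMul, adjugate_mul, vecMul_smul, vecMul_one,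
    smul_smul, Int.sign_mul_self_eq_natAbs, smul_dotProduct, smul_eq_mul]
  congr 1
  simp [dotProduct, ht]

end Pool.Agent.Helper255.CR
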