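import Mathlib

set_option autoImplicit false

namespace Pool.Agent.Helper255.CR

open MvPolynomial

/-- value of a polynomial with `MvPolynomial` coefficients -/
noncomputable def cnv {K : Type} [Field K] {n : ℕ} (F : Polynomial (MvPolynomial (Fin n) K)) (c : K)
    (y : Fin n → K) : K := Polynomial.eval c (F.map (eval y))

theorem cnv_eq {K : Type} [Field K] {n : ℕ} (F : Polynomial (MvPolynomial (Fin n) K)) (c : K)
    (y : Fin n → K) : cnv F c y = eval y (F.eval (C c)) := by
  unfold cnv
  rw [Polynomial.eval_map, ← Polynomial.eval₂_hom]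
  rw [MvPolynomial.eval_C]

theorem cnv_div {K : Type} [Field K] {n : ℕ} (F : Polynomial (MvPolynomial (Fin n) K)) (c : K)
    (D : ℕ) (hF : ∀ i, F.coeff i ≠ 0 → (F.coeff i).totalDegree + i ≤ D)
    (h0 : ∀ y, cnv F c y = 0) :
    ∃ G : Polynomial (MvPolynomial (Fin n) K),
      (∀ i, G.coeff i ≠ 0 → (G.coeff i).totalDegree + i + 1 ≤ D) ∧
      ∀ c' y, cnv F c' y = (c' - c) * cnv G c' y := by
  classical
  refine ⟨F /ₘ (Polynomial.X - Polynomial.C (C c)), ?_, ?_⟩
  · intro i hi
    rw [Polynomial.coeff_divByMonic_X_sub_C] at hi ⊢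
    have hex : ∃ j ∈ Finset.Icc (i + 1) F.natDegree, (C c : MvPolynomial (Fin n) K) ^ (j - (i + 1)) * F.coeff j ≠ 0 := by
      by_contra hcon
      push Not at hcon
      exact hi (Finset.sum_eq_zero hcon)
    obtain ⟨j0, hj0, hne0⟩ := hex
    have hD : i + 1 ≤ D := by
      have h1 : F.coeff j0 ≠ 0 := right_ne_zero_of_mul hne0
      have h2 := hF j0 h1
      have h3 := (Finset.mem_Icc.mp hj0).1
      omega
    have hle : (∑ j ∈ Finset.Icc (i + 1) F.natDegree,
        (C c : MvPolynomial (Fin n) K) ^ (j - (i + 1)) * F.coeff j).totalDegree ≤ D - (i + 1) := by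
      refine (totalDegree_finsetSum _ _).trans (Finset.sup_le fun j hj => ?_)
      by_cases hz : F.coeff j = 0
      · rw [hz, mul_zero]; simp
      · have h2 := hF j hz
        have h3 := (Finset.mem_Icc.mp hj).1
        have h4 : ((C c : MvPolynomial (Fin n) K) ^ (j - (i + 1)) * F.coeff j).totalDegree ≤
            (F.coeff j).totalDegree := by
          refine (totalDegree_mul _ _).trans ?_
          have : ((C c : MvPolynomial (Fin n) K) ^ (j - (i + 1))).totalDegree = 0 := by
            rw [← C_pow]; exact totalDegree_C _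
          omega
        omega
    omega
  · intro c' y
    have h1 : F = Polynomial.C (F.eval (C c)) + (Polynomial.X - Polynomial.C (C c)) *
        (F /ₘ (Polynomial.X - Polynomial.C (C c))) := by
      have := Polynomial.modByMonic_add_div F (Polynomial.X - Polynomial.C (C c : MvPolynomial (Fin n) K))
      rw [Polynomial.modByMonic_X_sub_C_eq_C_eval] at this
      exact this.symm
    have h2 : eval y (F.eval (C c)) = 0 := by rw [← cnv_eq]; exact h0 y
    rw [cnv_eq, cnv_eq]
    conv_lhs => rw [h1]
    simp only [Polynomial.eval_add, Polynomial.eval_mul, Polynomial.eval_sub, Polynomial.eval_X,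
      Polynomial.eval_C, map_add, map_mul, map_sub, eval_C, h2, zero_add]

theorem cnv_divs {K : Type} [Field K] [DecidableEq K] {n : ℕ}
    (F : Polynomial (MvPolynomial (Fin n) K))
    (D : ℕ) (hF : ∀ i, F.coeff i ≠ 0 → (F.coeff i).totalDegree + i ≤ D) (B : Finset K)
    (h0 : ∀ c ∈ B, ∀ y, cnv F c y = 0) :
    ∃ G : Polynomial (MvPolynomial (Fin n) K),
      (∀ i, G.coeff i ≠ 0 → (G.coeff i).totalDegree + i + B.card ≤ D) ∧
      ∀ c' y, cnv F c' y = (∏ c ∈ B, (c' - c)) * cnv G c' y := by
  induction B using Finset.induction_on with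
  | empty => exact ⟨F, by simpa using hF, by simp⟩
  | insert c B hc ih =>
    obtain ⟨G, hG, hv⟩ := ih (fun c' hc' => h0 c' (Finset.mem_insert_of_mem hc'))
    have hz : ∀ y, cnv G c y = 0 := by
      intro y
      have h1 := h0 c (Finset.mem_insert_self _ _) y
      rw [hv c y] at h1
      rcases mul_eq_zero.mp h1 with h | h
      · exfalso
        obtain ⟨b, hb, hb2⟩ := Finset.prod_eq_zero_iff.mp h
        have : c = b := sub_eq_zero.mp hb2
        exact hc (this ▸ hb)
      · exact h
    have hG' : ∀ i, G.coeff i ≠ 0 → (G.coeff i).totalDegree + i ≤ D - B.card := by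
      intro i hi; have := hG i hi; omega
    obtain ⟨G', hG2, hv2⟩ := cnv_div G c (D - B.card) hG' hz
    refine ⟨G', ?_, ?_⟩
    · intro i hi
      have := hG2 i hi
      rw [Finset.card_insert_of_notMem hc]; omega
    · intro c' y
      rw [hv c' y, hv2 c' y, Finset.prod_insert hc]; ring

theorem card_nonzeros_fin {K : Type} [Field K] [Fintype K] [DecidableEq K] (n : ℕ) :
    ∀ (f : MvPolynomial (Fin n) K) (D : ℕ) (_ : f.totalDegree ≤ D) (x₀ : Fin n → K)
    (_ : eval x₀ f ≠ 0),
    Fintype.card K ^ n ≤
      (Finset.univ.filter fun x : Fin n → K => eval x f ≠ 0).card * Fintype.card K ^ D := by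
  classical
  have hq : 1 ≤ Fintype.card K := Fintype.card_pos
  induction n with
  | zero =>
    intro f D _ x₀ hx₀
    have h1 : 1 ≤ (Finset.univ.filter fun x : Fin 0 → K => eval x f ≠ 0).card :=
      Finset.card_pos.mpr ⟨x₀, Finset.mem_filter.mpr ⟨Finset.mem_univ _, hx₀⟩⟩
    have h2 : 1 ≤ Fintype.card K ^ D := Nat.one_le_pow _ _ hq
    simpa using Nat.mul_le_mul h1 h2
  | succ n ih =>
    intro f D hD x₀ hx₀
    set F := finSuccEquiv K n f with hFdef
    have hval : ∀ (c : K) (y : Fin n → K), eval (Fin.cons c y : Fin (n + 1) → K) f = cnv F c y := by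
      intro c y
      rw [eval_eq_eval_mv_eval']; rfl
    have hF : ∀ i, F.coeff i ≠ 0 → (F.coeff i).totalDegree + i ≤ D := fun i hi =>
      (totalDegree_coeff_finSuccEquiv_add_le f i hi).trans hD
    set B : Finset K := Finset.univ.filter fun c => ∀ y : Fin n → K, cnv F c y = 0 with hB
    obtain ⟨G, hG, hv⟩ := cnv_divs F D hF B (fun c hc => (Finset.mem_filter.mp hc).2)
    have hx0 : x₀ = Fin.cons (x₀ 0) (Fin.tail x₀) := (Fin.cons_self_tail x₀).symm
    have hgood0 : x₀ 0 ∉ B := by
      intro h
      apply hx₀
      rw [hx0, hval]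
      exact (Finset.mem_filter.mp h).2 _
    -- some coefficient of `G` is nonzero
    have hBD : B.card ≤ D := by
      have hne : G ≠ 0 := by
        rintro rfl
        apply hx₀
        rw [hx0, hval, hv]
        simp [cnv]
      obtain ⟨i, hi⟩ : ∃ i, G.coeff i ≠ 0 := by
        by_contra hcon
        push Not at hcon
        exact hne (Polynomial.ext (by simpa using hcon))
      have := hG i hi; omega
    have hslice : ∀ c ∉ B, Fintype.card K ^ n ≤
        (Finset.univ.filter fun y : Fin n → K => cnv F c y ≠ 0).card *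
          Fintype.card K ^ (D - B.card) := by
      intro c hc
      have hprod : (∏ b ∈ B, (c - b)) ≠ 0 := by
        rw [Finset.prod_ne_zero_iff]
        intro b hb h
        exact hc ((sub_eq_zero.mp h) ▸ hb)
      have hiff : ∀ y, cnv F c y ≠ 0 ↔ eval y (G.eval (C c)) ≠ 0 := by
        intro y
        rw [hv c y, ← cnv_eq]
        simp [hprod]
      have hex : ∃ y, eval y (G.eval (C c)) ≠ 0 := by
        by_contra hcon
        push Not at hcon
        apply hc
        refine Finset.mem_filter.mpr ⟨Finset.mem_univ _, fun y => ?_⟩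
        by_contra h
        exact (hiff y).mp h (hcon y)
      obtain ⟨y0, hy0⟩ := hex
      have hdeg : (G.eval (C c)).totalDegree ≤ D - B.card := by
        rw [Polynomial.eval_eq_sum_range]
        refine (totalDegree_finsetSum _ _).trans (Finset.sup_le fun j hj => ?_)
        by_cases hz : G.coeff j = 0
        · rw [hz, zero_mul]; simp
        · have h2 := hG j hz
          have h4 : (G.coeff j * (C c : MvPolynomial (Fin n) K) ^ j).totalDegree ≤
              (G.coeff j).totalDegree := by
            refine (totalDegree_mul _ _).trans ?_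
            have : ((C c : MvPolynomial (Fin n) K) ^ j).totalDegree = 0 := by
              rw [← C_pow]; exact totalDegree_C _
            omega
          omega
      have := ih (G.eval (C c)) (D - B.card) hdeg y0 hy0
      have he : (Finset.univ.filter fun y : Fin n → K => cnv F c y ≠ 0) =
          (Finset.univ.filter fun y : Fin n → K => eval y (G.eval (C c)) ≠ 0) := by
        ext y; simp only [Finset.mem_filter, Finset.mem_univ, true_and]; exact hiff y
      rw [he]; exact this
    -- count
    have hcount : ∑ c ∈ Bᶜ, (Finset.univ.filter fun y : Fin n → K => cnv F c y ≠ 0).card ≤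
        (Finset.univ.filter fun x : Fin (n + 1) → K => eval x f ≠ 0).card := by
      have h1 : ∑ c : K, (Finset.univ.filter fun y : Fin n → K => cnv F c y ≠ 0).card =
          (Finset.univ.filter fun x : Fin (n + 1) → K => eval x f ≠ 0).card := by
        rw [← Finset.card_sigma]
        refine Finset.card_bij (fun p _ => (Fin.cons p.1 p.2 : Fin (n + 1) → K)) ?_ ?_ ?_
        · intro p hp
          simp only [Finset.mem_sigma, Finset.mem_univ, true_and, Finset.mem_filter] at hp ⊢
          rw [hval]; exact hp
        · rintro ⟨a, b⟩ _ ⟨a', b'⟩ _ h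
          obtain ⟨h1, h2⟩ := Fin.cons_inj.mp h
          simp only at h1 h2
          subst h1; subst h2; rfl
        · intro x hx
          simp only [Finset.mem_filter, Finset.mem_univ, true_and] at hx
          refine ⟨⟨x 0, Fin.tail x⟩, ?_, Fin.cons_self_tail x⟩
          simp only [Finset.mem_sigma, Finset.mem_univ, true_and, Finset.mem_filter]
          rw [← hval, Fin.cons_self_tail]; exact hx
      rw [← h1]
      exact Finset.sum_le_sum_of_subset (Finset.subset_univ _)
    have hm : Bᶜ.card + B.card = Fintype.card K := by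
      rw [Finset.card_compl]
      have := Finset.card_le_univ B
      omega
    have hmpos : 1 ≤ Bᶜ.card := Finset.card_pos.mpr ⟨x₀ 0, Finset.mem_compl.mpr hgood0⟩
    have hsum : Bᶜ.card * Fintype.card K ^ n ≤
        (∑ c ∈ Bᶜ, (Finset.univ.filter fun y : Fin n → K => cnv F c y ≠ 0).card) *
          Fintype.card K ^ (D - B.card) := by
      rw [Finset.sum_mul, ← smul_eq_mul, ← Finset.sum_const]
      exact Finset.sum_le_sum fun c hc => hslice c (Finset.mem_compl.mp hc)
    have hkey : Fintype.card K ≤ Bᶜ.card * Fintype.card K ^ B.card := by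
      rcases Nat.eq_zero_or_pos B.card with h | h
      · rw [h, pow_zero, mul_one]; omega
      · calc Fintype.card K = 1 * Fintype.card K ^ 1 := by ring
          _ ≤ Bᶜ.card * Fintype.card K ^ B.card :=
            Nat.mul_le_mul hmpos (Nat.pow_le_pow_right hq h)
    calc Fintype.card K ^ (n + 1) = Fintype.card K ^ n * Fintype.card K := pow_succ _ _
      _ ≤ Fintype.card K ^ n * (Bᶜ.card * Fintype.card K ^ B.card) := Nat.mul_le_mul_left _ hkey
      _ = (Bᶜ.card * Fintype.card K ^ n) * Fintype.card K ^ B.card := by ring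
      _ ≤ ((∑ c ∈ Bᶜ, (Finset.univ.filter fun y : Fin n → K => cnv F c y ≠ 0).card) *
          Fintype.card K ^ (D - B.card)) * Fintype.card K ^ B.card := Nat.mul_le_mul_right _ hsum
      _ = (∑ c ∈ Bᶜ, (Finset.univ.filter fun y : Fin n → K => cnv F c y ≠ 0).card) *
          Fintype.card K ^ D := by
        rw [mul_assoc, ← pow_add]; congr 2; omega
      _ ≤ _ := Nat.mul_le_mul_right _ hcount

/-- a polynomial of degree at most `D` over a finite field of size `q` that is somewhere nonzero
is nonzero on at least `q ^ (n - D)` points -/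
theorem card_nonzeros {K : Type} [Field K] [Fintype K] [DecidableEq K] {σ : Type} [Fintype σ]
    [DecidableEq σ] (f : MvPolynomial σ K) (D : ℕ) (hD : f.totalDegree ≤ D) (x₀ : σ → K)
    (hx₀ : eval x₀ f ≠ 0) :
    Fintype.card K ^ Fintype.card σ ≤
      (Finset.univ.filter fun x : σ → K => eval x f ≠ 0).card * Fintype.card K ^ D := by
  classical
  set e := Fintype.equivFin σ with he
  have hev : ∀ x : σ → K, eval x f = eval (x ∘ e.symm) (rename e f) := by
    intro x
    rw [eval_rename]
    congr 2
    ext i; simp
  have h1 := card_nonzeros_fin (K := K) (Fintype.card σ) (rename e f) D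
    ((totalDegree_rename_le e f).trans hD) (x₀ ∘ e.symm) (by rw [← hev]; exact hx₀)
  have h2 : (Finset.univ.filter fun x : σ → K => eval x f ≠ 0).card =
      (Finset.univ.filter fun x : Fin (Fintype.card σ) → K => eval x (rename e f) ≠ 0).card := by
    refine Finset.card_bij (fun x _ => x ∘ e.symm) ?_ ?_ ?_
    · intro x hx
      simp only [Finset.mem_filter, Finset.mem_univ, true_and] at hx ⊢
      rw [← hev]; exact hx
    · intro x _ y _ h
      funext i
      have := congrFun h (e i)
      simpa using this
    · intro x hx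
      simp only [Finset.mem_filter, Finset.mem_univ, true_and] at hx
      refine ⟨x ∘ e, ?_, ?_⟩
      · simp only [Finset.mem_filter, Finset.mem_univ, true_and]
        rw [hev]
        have : (x ∘ e) ∘ e.symm = x := by ext i; simp
        rw [this]; exact hx
      · ext i; simp
  rw [h2]; exact h1

/-- many common zeros -/
theorem card_common_zeros {K : Type} [Field K] [Fintype K] [DecidableEq K] {σ : Type} [Fintype σ]
    [DecidableEq σ] {Γ : Type} [Fintype Γ] (g : Γ → MvPolynomial σ K) (D : ℕ)
    (hD : ∀ γ, (g γ).totalDegree ≤ D) (x₀ : σ → K) (hx₀ : ∀ γ, eval x₀ (g γ) = 0) :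
    Fintype.card K ^ Fintype.card σ ≤
      (Finset.univ.filter fun x : σ → K => ∀ γ, eval x (g γ) = 0).card *
        Fintype.card K ^ (Fintype.card Γ * (D * (Fintype.card K - 1))) := by
  classical
  set q := Fintype.card K with hq
  have hq1 : 0 < q - 1 := Nat.sub_pos_of_lt Fintype.one_lt_card
  let f : MvPolynomial σ K := ∏ γ : Γ, (1 - (g γ) ^ (q - 1))
  have hev : ∀ x : σ → K, eval x f ≠ 0 ↔ ∀ γ, eval x (g γ) = 0 := by
    intro x
    have e : eval x f = ∏ γ : Γ, (1 - (eval x (g γ)) ^ (q - 1)) := by
      simp only [f, map_prod, map_sub, map_one, map_pow]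
    rw [e, Finset.prod_ne_zero_iff]
    constructor
    · intro h γ
      by_contra hne
      apply h γ (Finset.mem_univ _)
      rw [hq, FiniteField.pow_card_sub_one_eq_one _ hne, sub_self]
    · intro h γ _
      rw [h γ, zero_pow hq1.ne', sub_zero]
      exact one_ne_zero
  have hdeg : f.totalDegree ≤ Fintype.card Γ * (D * (q - 1)) := by
    refine le_trans (MvPolynomial.totalDegree_finsetProd _ _) ?_
    have : ∀ γ ∈ (Finset.univ : Finset Γ), (1 - (g γ) ^ (q - 1)).totalDegree ≤ D * (q - 1) := by
      intro γ _
      refine le_trans (MvPolynomial.totalDegree_sub _ _) ?_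
      rw [MvPolynomial.totalDegree_one]
      refine max_le (Nat.zero_le _) ?_
      refine le_trans (MvPolynomial.totalDegree_pow _ _) ?_
      rw [mul_comm]
      exact Nat.mul_le_mul_right _ (hD γ)
    refine le_trans (Finset.sum_le_sum this) ?_
    rw [Finset.sum_const, smul_eq_mul, Finset.card_univ]
  have h := card_nonzeros f _ hdeg x₀ ((hev x₀).2 hx₀)
  have e : (Finset.univ.filter fun x : σ → K => eval x f ≠ 0) =
      (Finset.univ.filter fun x : σ → K => ∀ γ, eval x (g γ) = 0) := by
    apply Finset.filter_congr
    intro x _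
    exact hev x
  rw [e] at h
  exact h

theorem totalDegree_bind_le {L : Type} [Field L] {σ τ : Type}
    (F : σ → MvPolynomial τ L) (hF : ∀ i, (F i).totalDegree ≤ 1) (f : MvPolynomial σ L) :
    (bind₁ F f).totalDegree ≤ f.totalDegree := by
  classical
  have hsum : bind₁ F f = ∑ m ∈ f.support, C (coeff m f) * ∏ i ∈ m.support, F i ^ m i := by
    conv_lhs => rw [f.as_sum]
    rw [map_sum]
    apply Finset.sum_congr rfl
    intro m _
    rw [bind₁_monomial]
  rw [hsum]
  apply totalDegree_finsetSum_le
  intro m hm
  calc (C (coeff m f) * ∏ i ∈ m.support, F i ^ m i).totalDegree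
      ≤ (C (coeff m f)).totalDegree + (∏ i ∈ m.support, F i ^ m i).totalDegree :=
        totalDegree_mul _ _
    _ = (∏ i ∈ m.support, F i ^ m i).totalDegree := by rw [totalDegree_C, zero_add]
    _ ≤ ∑ i ∈ m.support, (F i ^ m i).totalDegree := totalDegree_finsetProd _ _
    _ ≤ ∑ i ∈ m.support, m i := by
        apply Finset.sum_le_sum
        intro i _
        calc (F i ^ m i).totalDegree ≤ m i * (F i).totalDegree := totalDegree_pow _ _
          _ ≤ m i * 1 := Nat.mul_le_mul_left _ (hF i)
          _ = m i := mul_one _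
    _ ≤ f.totalDegree := le_totalDegree hm

/-- Weil restriction of the trace of a polynomial -/
theorem exists_trace_poly {K L : Type} [Field K] [Field L] [Algebra K L] {σ ι : Type} [Fintype ι]
    [Fintype σ] (b : Module.Basis ι K L) (f : MvPolynomial σ L) (D : ℕ) (hD : f.totalDegree ≤ D) :
    ∃ g : MvPolynomial (σ × ι) K, g.totalDegree ≤ D ∧ ∀ s : σ × ι → K,
      eval s g = Algebra.trace K L (eval (fun i => ∑ j, s (i, j) • b j) f) := by
  classical
  set F : MvPolynomial (σ × ι) L := bind₁ (fun i => ∑ j, C (b j) * X (i, j)) f with hFdef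
  have hFdeg : F.totalDegree ≤ D := by
    refine le_trans (totalDegree_bind_le _ ?_ f) hD
    intro i
    apply totalDegree_finsetSum_le
    intro j _
    calc (C (b j) * X (i, j) : MvPolynomial (σ × ι) L).totalDegree
        ≤ (C (b j) : MvPolynomial (σ × ι) L).totalDegree + (X (i, j)).totalDegree :=
          totalDegree_mul _ _
      _ = 1 := by rw [totalDegree_C, totalDegree_X]
      _ ≤ 1 := le_refl _
  refine ⟨∑ m ∈ F.support, monomial m (Algebra.trace K L (coeff m F)), ?_, ?_⟩
  · apply totalDegree_finsetSum_le
    intro m hm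
    refine le_trans (totalDegree_monomial_le _ _) ?_
    exact le_trans (le_totalDegree hm) hFdeg
  · intro s
    have hev : eval (fun i => ∑ j, s (i, j) • b j) f = eval (fun x => algebraMap K L (s x)) F := by
      rw [hFdef]
      have h := eval₂Hom_bind₁ (RingHom.id L) (fun x => algebraMap K L (s x))
        (fun i => ∑ j, C (b j) * X (i, j)) f
      have h1 : eval (fun x => algebraMap K L (s x))
          (bind₁ (fun i => ∑ j, C (b j) * X (i, j)) f) =
          eval₂Hom (RingHom.id L) (fun x => algebraMap K L (s x))
            (bind₁ (fun i => ∑ j, C (b j) * X (i, j)) f) := rfl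
      rw [h1, h]
      change eval₂ (RingHom.id L) _ f = eval₂ (RingHom.id L) _ f
      congr 1
      funext i
      simp only [map_sum, map_mul, eval₂Hom_C, eval₂Hom_X', RingHom.id_apply, Algebra.smul_def]
      apply Finset.sum_congr rfl
      intro j _
      ring
    rw [hev]
    conv_rhs => rw [eval_eq]
    rw [map_sum, map_sum]
    apply Finset.sum_congr rfl
    intro m _
    rw [eval_monomial]
    have h2 : (∏ i ∈ m.support, algebraMap K L (s i) ^ m i) =
        algebraMap K L (∏ i ∈ m.support, s i ^ m i) := by
      rw [map_prod]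
      simp only [map_pow]
    rw [h2, mul_comm (coeff m F), ← Algebra.smul_def, map_smul, smul_eq_mul, mul_comm]
    rfl

theorem pm_sz {L : Type} [Field L] [Fintype L] [DecidableEq L] {τ : Type} [Fintype τ]
    [DecidableEq τ] (P : MvPolynomial τ L) (hP : P ≠ 0) :
    (Finset.univ.filter fun y : τ → L => eval y P = 0).card * Fintype.card L ≤
      P.totalDegree * Fintype.card L ^ Fintype.card τ := by
  classical
  set e : τ ≃ Fin (Fintype.card τ) := Fintype.equivFin τ with he
  have hP' : rename e P ≠ 0 := by
    intro h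
    apply hP
    apply rename_injective e e.injective
    rw [h, map_zero]
  have h1 := schwartz_zippel_totalDegree hP' (Finset.univ : Finset L)
  have hcard : (Finset.filter (fun f : Fin (Fintype.card τ) → L => eval f (rename e P) = 0)
      (Fintype.piFinset fun _ => (Finset.univ : Finset L))).card =
      (Finset.univ.filter fun y : τ → L => eval y P = 0).card := by
    rw [Fintype.piFinset_univ]
    apply Finset.card_bij (fun f _ => f ∘ e)
    · intro f hf
      rw [Finset.mem_filter] at hf ⊢
      refine ⟨Finset.mem_univ _, ?_⟩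
      rw [← eval_rename]
      exact hf.2
    · intro f _ g _ hfg
      funext i
      have := congrFun hfg (e.symm i)
      simpa using this
    · intro y hy
      rw [Finset.mem_filter] at hy
      refine ⟨y ∘ e.symm, ?_, ?_⟩
      · rw [Finset.mem_filter]
        refine ⟨Finset.mem_univ _, ?_⟩
        rw [eval_rename]
        have : (y ∘ e.symm) ∘ e = y := by
          funext i; simp
        rw [this]
        exact hy.2
      · funext i
        simp
  rw [hcard] at h1
  have hLpos : 0 < Fintype.card L := Fintype.card_pos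
  rw [Finset.card_univ] at h1
  have h2 : ((Finset.univ.filter fun y : τ → L => eval y P = 0).card : ℚ≥0) *
      (Fintype.card L : ℚ≥0) ≤ ((rename e P).totalDegree : ℚ≥0) *
      (Fintype.card L : ℚ≥0) ^ Fintype.card τ := by
    have hq : (0 : ℚ≥0) < (Fintype.card L : ℚ≥0) := by exact_mod_cast hLpos
    rwa [div_le_div_iff₀ (pow_pos hq _) hq] at h1
  have h3 : (Finset.univ.filter fun y : τ → L => eval y P = 0).card * Fintype.card L ≤
      (rename e P).totalDegree * Fintype.card L ^ Fintype.card τ := by
    exact_mod_cast h2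
  refine h3.trans (Nat.mul_le_mul_right _ ?_)
  exact totalDegree_rename_le e P

/-- the polynomial method: over a large extension `L` of `K` the traces of `c ^ k * f` can be
made zero without killing the `K`-combinations of the `f` -/
theorem poly_method {K : Type} [Field K] [Finite K] {σ Γ : Type} [Fintype σ] [Fintype Γ]
    (D : ℕ) : ∃ N₀ : ℕ, ∀ (L : Type) [Field L] [Finite L] [Algebra K L],
      N₀ ≤ Module.finrank K L → ∀ (f : Γ → MvPolynomial σ L) (k : Γ → ℕ),
      (∀ γ, (f γ).totalDegree ≤ D) → (∀ γ, 1 ≤ k γ ∧ k γ ≤ D) →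
      ∃ (c : L) (s : σ → L), c ≠ 0 ∧
        (∀ γ, Algebra.trace K L (c ^ k γ * eval s (f γ)) = 0) ∧
        ∀ a : Γ → K, (∑ γ, C (algebraMap K L (a γ)) * f γ) ≠ 0 →
          (∑ γ, algebraMap K L (a γ) * (c ^ k γ * eval s (f γ))) ≠ 0 := by
  classical
  haveI : Fintype K := Fintype.ofFinite K
  set q := Fintype.card K with hq
  have hq2 : 1 < q := Fintype.one_lt_card
  set E := 1 + q ^ Fintype.card Γ * (D + D) with hE
  set W := q ^ (Fintype.card Γ * ((D + D) * (q - 1))) with hW
  obtain ⟨N₀, hN₀⟩ : ∃ N₀ : ℕ, E * W < q ^ N₀ := ⟨E * W, Nat.lt_pow_self hq2⟩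
  refine ⟨N₀, ?_⟩
  intro L _ _ _ hN f k hf hk
  haveI : Fintype L := Fintype.ofFinite L
  haveI : Module.Finite K L := Module.Finite.of_finite
  set N := Module.finrank K L with hNdef
  set b : Module.Basis (Fin N) K L := Module.finBasis K L with hb
  have hcardL : Fintype.card L = q ^ N := Module.card_eq_pow_finrank
  set G : Γ → MvPolynomial (Option σ) L := fun γ => X none ^ k γ * rename some (f γ) with hG
  have hGdeg : ∀ γ, (G γ).totalDegree ≤ D + D := by
    intro γ
    refine (totalDegree_mul _ _).trans (add_le_add ?_ ?_)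
    · refine (totalDegree_pow _ _).trans ?_
      rw [totalDegree_X, mul_one]
      exact (hk γ).2
    · exact (totalDegree_rename_le _ _).trans (hf γ)
  have hGeval : ∀ γ (y : Option σ → L), eval y (G γ) =
      y none ^ k γ * eval (fun i => y (some i)) (f γ) := by
    intro γ y
    simp only [hG, map_mul, map_pow, eval_X, eval_rename]
    rfl
  choose g hg1 hg2 using fun γ => exists_trace_poly b (G γ) (D + D) (hGdeg γ)
  have h0 : ∀ γ, eval (0 : Option σ × Fin N → K) (g γ) = 0 := by
    intro γ
    rw [hg2 γ, hGeval]
    simp only [Pi.zero_apply, zero_smul, Finset.sum_const_zero]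
    rw [zero_pow (by have := (hk γ).1; omega), zero_mul, map_zero]
  have hcz := card_common_zeros g (D + D) hg1 0 h0
  set Z := Finset.univ.filter fun x : Option σ × Fin N → K => ∀ γ, eval x (g γ) = 0 with hZ
  -- the map to points of `L`
  set Φ : (Option σ × Fin N → K) → (Option σ → L) := fun x i => ∑ j, x (i, j) • b j with hΦ
  have hΦinj : Function.Injective Φ := by
    intro x x' h
    funext ⟨i, j⟩
    have h1 := congrFun h i
    simp only [hΦ] at h1
    have h2 := congrArg (fun v => b.repr v j) h1
    simpa [Finsupp.single_apply] using h2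
  -- the combinations
  set F : (Γ → K) → MvPolynomial (Option σ) L :=
    fun a => ∑ γ, C (algebraMap K L (a γ)) * G γ with hF
  have hFdeg : ∀ a, (F a).totalDegree ≤ D + D := by
    intro a
    refine totalDegree_finsetSum_le ?_
    intro γ _
    refine (totalDegree_mul _ _).trans ?_
    rw [totalDegree_C, zero_add]
    exact hGdeg γ
  set P : MvPolynomial (Option σ) L :=
    X none * ∏ a ∈ Finset.univ.filter (fun a : Γ → K => F a ≠ 0), F a with hP
  have hP0 : P ≠ 0 := by
    refine mul_ne_zero (X_ne_zero _) ?_
    refine Finset.prod_ne_zero_iff.2 ?_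
    intro a ha
    exact (Finset.mem_filter.1 ha).2
  have hPdeg : P.totalDegree ≤ E := by
    refine (totalDegree_mul _ _).trans ?_
    rw [totalDegree_X]
    refine add_le_add le_rfl ?_
    refine (totalDegree_finsetProd _ _).trans ?_
    refine (Finset.sum_le_card_nsmul _ _ (D + D) (fun a _ => hFdeg a)).trans ?_
    rw [smul_eq_mul]
    refine Nat.mul_le_mul_right _ ?_
    refine (Finset.card_filter_le _ _).trans ?_
    rw [Finset.card_univ, Fintype.card_fun]
  have hsz := pm_sz P hP0
  set B := Finset.univ.filter fun y : Option σ → L => eval y P = 0 with hB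
  have hex : ∃ x ∈ Z, eval (Φ x) P ≠ 0 := by
    by_contra hcon
    push Not at hcon
    have hle : Z.card ≤ B.card := by
      apply Finset.card_le_card_of_injOn Φ
      · intro x hx
        simp only [hB, Finset.coe_filter, Finset.mem_univ, true_and]
        exact hcon x hx
      · exact hΦinj.injOn
    have hcard1 : Fintype.card (Option σ × Fin N) = (Fintype.card σ + 1) * N := by
      rw [Fintype.card_prod, Fintype.card_option, Fintype.card_fin]
    have hcard2 : Fintype.card (Option σ) = Fintype.card σ + 1 := Fintype.card_option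
    rw [hcard1] at hcz
    rw [hcard2, hcardL, ← pow_mul] at hsz
    have e1 : q ^ ((Fintype.card σ + 1) * N) = q ^ (N * Fintype.card σ) * q ^ N := by
      rw [← pow_add]; congr 1; ring
    have e2 : q ^ (N * (Fintype.card σ + 1)) = q ^ (N * Fintype.card σ) * q ^ N := by
      rw [← pow_add]; congr 1
    rw [e2] at hsz
    have hqN : 0 < q ^ N := pow_pos (by omega) _
    have hqs : 0 < q ^ (N * Fintype.card σ) := pow_pos (by omega) _
    have h1 : B.card ≤ P.totalDegree * q ^ (N * Fintype.card σ) := by
      apply Nat.le_of_mul_le_mul_right _ hqN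
      rw [mul_assoc]
      exact hsz
    have h2 : q ^ (N * Fintype.card σ) * q ^ N ≤
        E * q ^ (N * Fintype.card σ) * W := by
      rw [← e1]
      refine hcz.trans (Nat.mul_le_mul_right _ ?_)
      exact hle.trans (h1.trans (Nat.mul_le_mul_right _ hPdeg))
    have h3 : q ^ N ≤ E * W := by
      apply Nat.le_of_mul_le_mul_left _ hqs
      calc _ ≤ E * q ^ (N * Fintype.card σ) * W := h2
        _ = _ := by ring
    have h4 : q ^ N₀ ≤ q ^ N := Nat.pow_le_pow_right (by omega) hN
    omega
  obtain ⟨x, hxZ, hxP⟩ := hex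
  have hxZ' := (Finset.mem_filter.1 hxZ).2
  rw [hP, map_mul, eval_X] at hxP
  have hc := left_ne_zero_of_mul hxP
  have hprod := right_ne_zero_of_mul hxP
  rw [map_prod] at hprod
  refine ⟨Φ x none, fun i => Φ x (some i), hc, ?_, ?_⟩
  · intro γ
    rw [← hGeval]
    have h1 := hg2 γ x
    rw [hxZ' γ] at h1
    exact h1.symm
  · intro a ha
    have hFa : F a ≠ 0 := by
      intro h
      apply ha
      have h1 := congrArg (aeval (fun o : Option σ => (match o with
        | none => (1 : MvPolynomial σ L)
        | some i => X i))) h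
      rw [map_zero, hF] at h1
      simp only [map_sum, map_mul] at h1
      rw [← h1]
      apply Finset.sum_congr rfl
      intro γ _
      rw [algHom_C]
      congr 1
      simp only [hG, map_mul, map_pow, aeval_X, one_pow, one_mul, aeval_rename]
      have : ((fun o : Option σ => (match o with
        | none => (1 : MvPolynomial σ L)
        | some i => X i)) ∘ some) = (X : σ → MvPolynomial σ L) := by
        funext i; rfl
      rw [this, aeval_X_left, AlgHom.id_apply]
    have h1 := Finset.prod_ne_zero_iff.1 hprod a
      (Finset.mem_filter.2 ⟨Finset.mem_univ _, hFa⟩)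
    intro h2
    apply h1
    rw [← h2, hF]
    simp only [map_sum, map_mul, eval_C]
    apply Finset.sum_congr rfl
    intro γ _
    rw [hGeval]

end Pool.Agent.Helper255.CR
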