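import Pool.Agent.Helper255.CR.Grp
import Pool.Agent.Helper255.CR.Gen
import Pool.Agent.Helper255.CR.Poly

set_option autoImplicit false

namespace Pool.Agent.Helper255.CR

open Matrix

variable {l : ℕ} (D : SLCartan l)

/-! words and generic elements -/

/-- `α₀` is the highest root -/
def IsHighest (α₀ : Root D) : Prop := Pos α₀.1 ∧
  ∀ γ : Root D, Pos γ.1 → γ ≠ α₀ → ht γ.1 < ht α₀.1 ∧ ∃ i, bil D (sr D i).1 γ.1 = -1

/-- products of root elements along a list of roots -/
noncomputable def wd {R : Type*} [CommRing R] (L : List (Root D)) (s : Fin L.length → R) :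
    G D R := (List.ofFn fun i => xg D (L.get i) (s i)).prod

theorem wd_poly_aux {n : ℕ} (l : List (G D (MvPolynomial (Fin n) ℤ)))
    (h : ∀ g ∈ l, ∀ i j, (mat D g i j).totalDegree ≤ 2) (i j : Idx D) :
    (mat D l.prod i j).totalDegree ≤ 2 * l.length := by
  induction l generalizing i j with
  | nil =>
    rw [List.prod_nil, mat_one]
    by_cases hij : i = j
    · subst hij; simp
    · simp [Matrix.one_apply_ne hij]
  | cons a t ih =>
    rw [List.prod_cons, mat_mul, Matrix.mul_apply]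
    refine (MvPolynomial.totalDegree_finsetSum_le (d := 2 * (a :: t).length) ?_)
    intro k _
    refine (MvPolynomial.totalDegree_mul _ _).trans ?_
    have h1 := h a (by simp) i k
    have h2 := ih (fun g hg => h g (by simp [hg])) k j
    rw [List.length_cons]
    omega

theorem xM_deg {n : ℕ} (α : Root D) (k : Fin n) (i j : Idx D) :
    (xM D α (MvPolynomial.X k : MvPolynomial (Fin n) ℤ) i j).totalDegree ≤ 2 := by
  have hc : ∀ z : ℤ, ((z : ℤ) : MvPolynomial (Fin n) ℤ) = MvPolynomial.C z := by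
    intro z; simp
  rw [xM, Matrix.add_apply, Matrix.add_apply, Matrix.smul_apply, Matrix.smul_apply,
    Matrix.map_apply, Matrix.map_apply, smul_eq_mul, smul_eq_mul, hc, hc]
  refine (MvPolynomial.totalDegree_add _ _).trans (max_le ?_ ?_)
  · refine (MvPolynomial.totalDegree_add _ _).trans (max_le ?_ ?_)
    · by_cases hij : i = j
      · subst hij; simp
      · simp [Matrix.one_apply_ne hij]
    · refine (MvPolynomial.totalDegree_mul _ _).trans ?_
      rw [MvPolynomial.totalDegree_X, MvPolynomial.totalDegree_C]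
      omega
  · refine (MvPolynomial.totalDegree_mul _ _).trans ?_
    rw [MvPolynomial.totalDegree_X_pow, MvPolynomial.totalDegree_C]

theorem Gmap_wd {R S : Type*} [CommRing R] [CommRing S] (f : R →+* S) (L : List (Root D))
    (s : Fin L.length → R) : Gmap D f (wd D L s) = wd D L (fun i => f (s i)) := by
  rw [wd, wd, map_list_prod, List.map_ofFn]
  congr 2
  funext i
  exact Gmap_xg D f _ _

theorem wd_poly (L : List (Root D)) : ∃ Q : Idx D → Idx D → MvPolynomial (Fin L.length) ℤ,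
    (∀ i j, (Q i j).totalDegree ≤ 2 * L.length) ∧
    ∀ (R : Type) [CommRing R] (s : Fin L.length → R) (i j : Idx D),
      mat D (wd D L s) i j = MvPolynomial.aeval s (Q i j) := by
  refine ⟨fun i j => mat D (wd D L fun k => (MvPolynomial.X k : MvPolynomial (Fin L.length) ℤ)) i j,
    ?_, ?_⟩
  · intro i j
    have h := wd_poly_aux D (List.ofFn fun i => xg D (L.get i)
      (MvPolynomial.X i : MvPolynomial (Fin L.length) ℤ)) ?_ i j
    · rw [List.length_ofFn] at h
      exact h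
    · intro g hg i j
      rw [List.mem_ofFn] at hg
      obtain ⟨k, rfl⟩ := hg
      rw [mat_xg]
      exact xM_deg D _ _ _ _
  · intro R _ s i j
    have h := Gmap_wd D (MvPolynomial.aeval s : MvPolynomial (Fin L.length) ℤ →ₐ[ℤ] R).toRingHom L
      (fun k => MvPolynomial.X k)
    have h2 := congrArg (fun g => mat D g i j) h
    simp only [mat_Gmap, Matrix.map_apply] at h2
    have h3 : (fun k => (MvPolynomial.aeval s : MvPolynomial (Fin L.length) ℤ →ₐ[ℤ] R).toRingHom
        (MvPolynomial.X k)) = s := by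
      funext k
      simp
    rw [h3] at h2
    rw [← h2]
    rfl

theorem wd_of_pairs {R : Type*} [CommRing R] (l : List (Root D × R)) :
    ∃ s : Fin (l.map Prod.fst).length → R,
      (l.map fun p => xg D p.1 p.2).prod = wd D (l.map Prod.fst) s := by
  refine ⟨fun i => (l.get ⟨i.1, by simpa using i.2⟩).2, ?_⟩
  rw [wd]
  congr 1
  apply List.ext_getElem
  · simp
  · intro i h1 h2
    simp

theorem wd_cover_aux {K : Type} [Field K] (S : Finset (G D K)) :
    ∃ L : List (Root D), ∀ g ∈ S, ∃ l : List (Root D × K), l.map Prod.fst = L ∧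
      g = (l.map fun p => xg D p.1 p.2).prod := by
  classical
  have hz : ∀ L : List (Root D), ((L.map fun a => (a, (0 : K))).map
      fun p => xg D p.1 p.2).prod = 1 := by
    intro L
    rw [List.map_map]
    apply List.prod_eq_one
    intro x hx
    rw [List.mem_map] at hx
    obtain ⟨a, -, rfl⟩ := hx
    exact xg_zero D a
  have hf : ∀ L : List (Root D), (L.map fun a => (a, (0 : K))).map Prod.fst = L := by
    intro L
    rw [List.map_map]
    exact List.map_id _
  have hone : ∀ g : G D K, ∃ l : List (Root D × K), g = (l.map fun p => xg D p.1 p.2).prod := by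
    intro g
    refine G_induction D (p := fun g => ∃ l : List (Root D × K),
      g = (l.map fun p => xg D p.1 p.2).prod) ⟨[], by simp⟩ ?_ g
    rintro g α t ⟨l, rfl⟩
    exact ⟨l ++ [(α, t)], by simp⟩
  induction S using Finset.induction_on with
  | empty => exact ⟨[], by simp⟩
  | insert a S ha ih =>
    obtain ⟨L, hL⟩ := ih
    obtain ⟨la, hla⟩ := hone a
    refine ⟨la.map Prod.fst ++ L, ?_⟩
    intro g hg
    rw [Finset.mem_insert] at hg
    rcases hg with rfl | hg
    · refine ⟨la ++ L.map fun a => (a, (0 : K)), ?_, ?_⟩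
      · rw [List.map_append, hf]
      · rw [List.map_append, List.prod_append, hz, mul_one]
        exact hla
    · obtain ⟨l, hl1, hl2⟩ := hL g hg
      refine ⟨((la.map Prod.fst).map fun a => (a, (0 : K))) ++ l, ?_, ?_⟩
      · rw [List.map_append, hf, hl1]
      · rw [List.map_append, List.prod_append, hz, one_mul]
        exact hl2

theorem wd_cover (K : Type) [Field K] [Finite K] :
    ∃ L : List (Root D), ∀ g : G D K, ∃ s : Fin L.length → K, g = wd D L s := by
  classical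
  have : Finite (G D K) := by
    have : Finite (Matrix (Idx D) (Idx D) K) := by unfold Matrix; infer_instance
    exact Finite.of_injective (mat D (R := K)) (mat_injective D)
  have := Fintype.ofFinite (G D K)
  obtain ⟨L, hL⟩ := wd_cover_aux D (Finset.univ : Finset (G D K))
  refine ⟨L, fun g => ?_⟩
  obtain ⟨l, rfl, hl2⟩ := hL g (Finset.mem_univ g)
  obtain ⟨s, hs⟩ := wd_of_pairs D l
  exact ⟨s, by rw [hl2, hs]⟩

theorem emh_pos {R : Type*} [CommRing R] (α₀ : Root D) (h₀ : IsHighest D α₀) (k : ℕ) :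
    ∀ β : Root D, Pos β.1 → ht α₀.1 - ht β.1 ≤ (k : ℤ) →
    ∃ (n : G D R) (w : (Fin l → ℤ) ≃+ (Fin l → ℤ)) (χ : Root D → R),
      Mono D n w χ ∧ w α₀.1 = β.1 := by
  induction k with
  | zero =>
    intro β hβ hk
    by_cases hne : β = α₀
    · refine ⟨1, AddEquiv.refl _, fun _ => 1, Mono.one D, ?_⟩
      rw [hne]; rfl
    · have := (h₀.2 β hβ hne).1
      simp only [Nat.cast_zero] at hk
      omega
  | succ k ih =>
    intro β hβ hk
    by_cases hne : β = α₀
    · refine ⟨1, AddEquiv.refl _, fun _ => 1, Mono.one D, ?_⟩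
      rw [hne]; rfl
    · obtain ⟨-, i, hi⟩ := h₀.2 β hβ hne
      have hg : bil D ((sr D i).1 + β.1) ((sr D i).1 + β.1) = 2 := (add_root_iff D (sr D i) β).2 hi
      have hpos : Pos ((sr D i).1 + β.1) := fun j => add_nonneg (pos_simple D i j) (hβ j)
      have hht : ht ((sr D i).1 + β.1) = 1 + ht β.1 := by
        rw [ht_add]
        congr 1
        exact ht_single i
      obtain ⟨n', w', χ', hM, hw⟩ := ih ⟨(sr D i).1 + β.1, hg⟩ hpos (by
        show ht α₀.1 - ht ((sr D i).1 + β.1) ≤ (k : ℤ)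
        rw [hht]
        push_cast at hk
        linarith)
      obtain ⟨χ, hχ⟩ := ng_mono (R := R) D (sr D i) 1
      refine ⟨_, _, _, Mono.mul D hχ hM, ?_⟩
      have h1 : bil D (sr D i).1 ((sr D i).1 + β.1) = 1 := by
        rw [bil_add_right, hi, (sr D i).2]; norm_num
      show (refl D (sr D i)) (w' α₀.1) = β.1
      rw [hw]
      show ((sr D i).1 + β.1) - bil D (sr D i).1 ((sr D i).1 + β.1) • (sr D i).1 = β.1
      rw [h1, one_smul]
      abel

theorem exists_mono_highest {R : Type*} [CommRing R] (α₀ : Root D) (h₀ : IsHighest D α₀)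
    (β : Root D) : ∃ (n : G D R) (w : (Fin l → ℤ) ≃+ (Fin l → ℤ)) (χ : Root D → R),
      Mono D n w χ ∧ w α₀.1 = β.1 := by
  rcases pos_or_neg D β with hβ | hβ
  · exact emh_pos D α₀ h₀ (ht α₀.1 - ht β.1).toNat β hβ (Int.self_le_toNat _)
  · obtain ⟨n', w', χ', hM, hw⟩ := emh_pos (R := R) D α₀ h₀
      (ht α₀.1 - ht (rneg D β).1).toNat (rneg D β) hβ (Int.self_le_toNat _)
    obtain ⟨χ, hχ⟩ := ng_mono (R := R) D β 1
    refine ⟨_, _, _, Mono.mul D hχ hM, ?_⟩
    show (refl D β) (w' α₀.1) = β.1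
    rw [hw]
    show (-β.1) - bil D β.1 (-β.1) • β.1 = β.1
    rw [bil_neg_right, β.2]
    funext i
    simp only [Pi.sub_apply, Pi.smul_apply, Pi.neg_apply, smul_eq_mul]
    ring

private theorem j20081_rneg (b : Root D) : rneg D (rneg D b) = b :=
  root_ext D (neg_neg b.1)

private theorem j20081_ne_zero (b : Root D) : b.1 ≠ 0 := by
  intro h
  have h3 := root_norm D b
  rw [h, bil_zero_left] at h3
  norm_num at h3

private theorem j20081_ne (b : Root D) : rneg D b ≠ b := by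
  intro h
  have h1 : -b.1 = b.1 := congrArg Subtype.val h
  apply j20081_ne_zero D b
  funext i
  have h2 := congrFun h1 i
  simp only [Pi.neg_apply] at h2
  simp only [Pi.zero_apply]
  omega

private theorem j20081_coord {K : Type*} [Field K] (b : Root D) : ∃ i, ((b.1 i : ℤ) : K) ≠ 0 := by
  by_contra hcon
  push Not at hcon
  have h1 : eta D b.1 b.1 = 1 := by
    have h := root_norm D b
    rw [bil] at h
    omega
  have h2 : ((eta D b.1 b.1 : ℤ) : K) = 0 := by
    rw [eta, dotProduct, Int.cast_sum]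
    refine Finset.sum_eq_zero fun i _ => ?_
    rw [Int.cast_mul, hcon i, zero_mul]
  rw [h1] at h2
  simp at h2

private theorem j20081_hv_neg {R : Type*} [CommRing R] (y : Fin l → ℤ) :
    hv D R (-y) = - hv D R y := by
  funext i
  cases i with
  | inl i => simp [hv]
  | inr b => simp [hv]

private theorem j20081_hv_sum {R : Type*} [CommRing R] (y : Fin l → ℤ) :
    hv D R y = ∑ j, ((y j : ℤ) : R) • hv D R (Pi.single j 1) := by
  funext i
  rw [Finset.sum_apply]
  cases i with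
  | inl i =>
    have h1 : ∀ j, (((y j : ℤ) : R) • hv D R (Pi.single j 1)) (Sum.inl i) =
        if i = j then ((y i : ℤ) : R) else 0 := by
      intro j
      by_cases hj : i = j
      · subst hj
        simp [hv]
      · simp [hv, hj]
    simp only [h1]
    simp [hv]
  | inr b => simp [hv]

private theorem j20081_E {R : Type*} [CommRing R] (b : Root D) :
    (E D b).map (Int.cast : ℤ → R) *ᵥ ev D R (rneg D b) = - hv D R b.1 := by
  funext i
  rw [ev, Matrix.mulVec_single_one]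
  cases i with
  | inl i =>
    have h1 : (rneg D b).1 = -b.1 := rfl
    simp [E, hv, h1, Matrix.col]
  | inr c =>
    have hc : ¬ (c.1 = b.1 + (rneg D b).1) := by
      intro h
      apply j20081_ne_zero D c
      rw [h]
      show b.1 + -b.1 = 0
      simp
    simp [E, hv, hc, Matrix.col]

private theorem j20081_adM_ev {R : Type*} [CommRing R] (b : Root D) :
    adM D (ev D R b) = (E D b).map (Int.cast : ℤ → R) := by
  unfold adM
  have h1 : ∀ j : Fin l, ev D R b (Sum.inl j) = 0 := by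
    intro j
    simp [ev]
  have h2 : (∑ β : Root D, ev D R b (Sum.inr β) • (E D β).map (Int.cast : ℤ → R)) =
      (E D b).map (Int.cast : ℤ → R) := by
    rw [Finset.sum_eq_single b]
    · simp [ev]
    · intro c _ hc
      have h3 : ev D R b (Sum.inr c) = 0 := by
        rw [ev]
        apply Pi.single_eq_of_ne
        intro h
        exact hc (Sum.inr.inj h)
      rw [h3, zero_smul]
    · intro h
      exact absurd (Finset.mem_univ b) h
  rw [h2]
  simp [h1]

private theorem j20081_adM_smul {R : Type*} [CommRing R] (c : R) (v : Idx D → R) :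
    adM D (c • v) = c • adM D v := by
  unfold adM
  rw [smul_add, Finset.smul_sum, Finset.smul_sum]
  simp only [Pi.smul_apply, smul_eq_mul, mul_smul]

private theorem j20081_cancel {K : Type*} [Field K] (A : Matrix (Idx D) (Idx D) K) (x c : K)
    (hx : x ≠ 0) (v : Idx D → K) (h : A *ᵥ (x • v) = c • (x • v)) : A *ᵥ v = c • v := by
  rw [Matrix.mulVec_smul, smul_comm c x v] at h
  exact smul_right_injective (Idx D → K) hx h

/-- elements fixing all lines in the orbit of the highest root line are trivial -/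
theorem eq_one_of_line {K : Type*} [Field K] (α₀ : Root D) (h₀ : IsHighest D α₀) (h : G D K)
    (H : ∀ g : G D K, ∃ c : K, mat D (g⁻¹ * h * g) *ᵥ ev D K α₀ = c • ev D K α₀) : h = 1 := by
  classical
  have key : ∀ g : G D K, ∃ c : K,
      mat D h *ᵥ (mat D g *ᵥ ev D K α₀) = c • (mat D g *ᵥ ev D K α₀) := by
    intro g
    obtain ⟨c, hc⟩ := H g
    refine ⟨c, ?_⟩
    have h1 : mat D h * mat D g = mat D g * mat D (g⁻¹ * h * g) := by
      rw [← mat_mul, ← mat_mul]
      congr 1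
      group
    rw [Matrix.mulVec_mulVec, h1, ← Matrix.mulVec_mulVec, hc, Matrix.mulVec_smul]
  -- the two families of fixed lines
  have fam : ∀ b : Root D, ∃ c c' : K, mat D h *ᵥ ev D K b = c • ev D K b ∧
      mat D h *ᵥ (ev D K b + hv D K b.1 + ev D K (rneg D b)) =
        c' • (ev D K b + hv D K b.1 + ev D K (rneg D b)) := by
    intro b
    obtain ⟨n, w, χ, hn, hw⟩ := exists_mono_highest D (R := K) α₀ h₀ b
    have hχ : χ α₀ ≠ 0 := by
      intro h0
      have h1 := hn.hneg α₀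
      rw [h0, zero_mul] at h1
      exact zero_ne_one h1
    have he := hn.he α₀ b hw.symm
    obtain ⟨c, hc⟩ := key n
    obtain ⟨c', hc'⟩ := key (xg D (rneg D b) (1 : K) * n)
    refine ⟨c, c', ?_, ?_⟩
    · rw [he] at hc
      exact j20081_cancel D _ _ _ hχ _ hc
    · have e1 : mat D (xg D (rneg D b) (1 : K) * n) *ᵥ ev D K α₀ =
          χ α₀ • (ev D K b + hv D K b.1 + ev D K (rneg D b)) := by
        rw [mat_mul, ← Matrix.mulVec_mulVec, he, Matrix.mulVec_smul, mat_xg]
        congr 1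
        have h2 := xM_ev_neg D (rneg D b) (1 : K)
        rw [j20081_rneg] at h2
        rw [h2]
        have h3 : (rneg D b).1 = -b.1 := rfl
        rw [h3, j20081_hv_neg, one_pow, one_smul, one_smul, sub_neg_eq_add]
      rw [e1] at hc'
      exact j20081_cancel D _ _ _ hχ _ hc'
  have hev : ∀ b : Root D, ∃ c : K, mat D h *ᵥ ev D K b = c • ev D K b := by
    intro b
    obtain ⟨c, -, hc, -⟩ := fam b
    exact ⟨c, hc⟩
  have hhv : ∀ (b : Root D) (c d : K), mat D h *ᵥ ev D K b = c • ev D K b →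
      mat D h *ᵥ ev D K (rneg D b) = d • ev D K (rneg D b) →
      mat D h *ᵥ hv D K b.1 = (c * d) • hv D K b.1 := by
    intro b c d hc hd
    have h1 := mat_adM D h (ev D K b)
    rw [hc, j20081_adM_smul, j20081_adM_ev] at h1
    have h2 : (mat D h * (E D b).map (Int.cast : ℤ → K)) *ᵥ ev D K (rneg D b) =
        ((c • (E D b).map (Int.cast : ℤ → K)) * mat D h) *ᵥ ev D K (rneg D b) := by rw [h1]
    rw [← Matrix.mulVec_mulVec, ← Matrix.mulVec_mulVec, hd, j20081_E, Matrix.mulVec_smul,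
      Matrix.smul_mulVec, j20081_E, Matrix.mulVec_neg, smul_neg, smul_neg, smul_smul] at h2
    rw [neg_inj] at h2
    rw [h2, mul_comm]
  have fin : ∀ b : Root D, mat D h *ᵥ ev D K b = ev D K b ∧
      mat D h *ᵥ hv D K b.1 = hv D K b.1 := by
    intro b
    obtain ⟨c, c', hc, hc'⟩ := fam b
    obtain ⟨d, hd⟩ := hev (rneg D b)
    have hh := hhv b c d hc hd
    rw [Matrix.mulVec_add, Matrix.mulVec_add, hc, hd, hh] at hc'
    have hne : (Sum.inr b : Idx D) ≠ Sum.inr (rneg D b) := by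
      intro h1
      exact j20081_ne D b (Sum.inr.inj h1).symm
    -- coefficients
    have q1 : c = c' := by
      have h1 := congrFun hc' (Sum.inr b)
      simpa [ev, hv, hne, Pi.single_eq_of_ne hne] using h1
    have q2 : d = c' := by
      have h1 := congrFun hc' (Sum.inr (rneg D b))
      simpa [ev, hv, hne.symm, Pi.single_eq_of_ne hne.symm] using h1
    have q3 : c * d = c' := by
      obtain ⟨i, hi⟩ := j20081_coord D (K := K) b
      have h1 := congrFun hc' (Sum.inl i)
      have h2 : (c * d) * ((b.1 i : ℤ) : K) = c' * ((b.1 i : ℤ) : K) := by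
        simpa [ev, hv] using h1
      exact mul_right_cancel₀ hi h2
    have hc0 : c' ≠ 0 := by
      intro h0
      rw [q1, h0, zero_smul] at hc
      have h3 : ev D K b = 0 := by
        have h4 : mat D h⁻¹ *ᵥ (mat D h *ᵥ ev D K b) = ev D K b := by
          rw [Matrix.mulVec_mulVec, ← mat_mul, inv_mul_cancel, mat_one, Matrix.one_mulVec]
        rw [hc, Matrix.mulVec_zero] at h4
        exact h4.symm
      have h5 := congrFun h3 (Sum.inr b)
      simp [ev] at h5
    have hc1 : c' = 1 := by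
      rw [q1, q2] at q3
      have h6 : c' * c' = c' * 1 := by rw [q3, mul_one]
      exact mul_left_cancel₀ hc0 h6
    refine ⟨?_, ?_⟩
    · rw [hc, q1, hc1, one_smul]
    · rw [hh, q3, hc1, one_smul]
  apply mat_injective D
  rw [mat_one]
  apply mat_ext D
  · intro β
    rw [(fin β).1, Matrix.one_mulVec]
  · intro y
    rw [Matrix.one_mulVec, j20081_hv_sum D (R := K) y, Matrix.mulVec_sum]
    refine Finset.sum_congr rfl fun j _ => ?_
    rw [Matrix.mulVec_smul]
    congr 1
    exact (fin (sr D j)).2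

theorem egx_finite (K : Type) [Field K] [Finite K] : Finite (G D K) := by
  have : Finite (GL (Idx D) K) := inferInstance
  infer_instance

/-- polynomial vector of the generic point of the orbit -/
noncomputable def egxY (K : Type) [Field K] {n : ℕ} (α₀ : Root D)
    (Q : Idx D → Idx D → MvPolynomial (Fin n) ℤ) (i : Idx D) : MvPolynomial (Fin n) K :=
  MvPolynomial.map (algebraMap ℤ K) (Q i (Sum.inr α₀))

/-- its image under `h` -/
noncomputable def egxH (K : Type) [Field K] {n : ℕ} (α₀ : Root D)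
    (Q : Idx D → Idx D → MvPolynomial (Fin n) ℤ) (h : G D K) (i : Idx D) : MvPolynomial (Fin n) K :=
  ∑ j, MvPolynomial.C (mat D h i j) * egxY D K α₀ Q j

/-- the minors -/
noncomputable def egxP (K : Type) [Field K] {n : ℕ} (α₀ : Root D)
    (Q : Idx D → Idx D → MvPolynomial (Fin n) ℤ) (h : G D K) (i j : Idx D) :
    MvPolynomial (Fin n) K :=
  egxH D K α₀ Q h i * egxY D K α₀ Q j - egxH D K α₀ Q h j * egxY D K α₀ Q i

theorem egxY_deg (K : Type) [Field K] {n d : ℕ} (α₀ : Root D)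
    (Q : Idx D → Idx D → MvPolynomial (Fin n) ℤ) (hQ : ∀ i j, (Q i j).totalDegree ≤ d) (i : Idx D) :
    (egxY D K α₀ Q i).totalDegree ≤ d := by
  refine le_trans ?_ (hQ i (Sum.inr α₀))
  unfold egxY MvPolynomial.totalDegree
  exact Finset.sup_mono (MvPolynomial.support_map_subset _ _)

theorem egxH_deg (K : Type) [Field K] {n d : ℕ} (α₀ : Root D)
    (Q : Idx D → Idx D → MvPolynomial (Fin n) ℤ) (hQ : ∀ i j, (Q i j).totalDegree ≤ d)
    (h : G D K) (i : Idx D) :
    (egxH D K α₀ Q h i).totalDegree ≤ d := by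
  unfold egxH
  apply MvPolynomial.totalDegree_finsetSum_le
  intro j _
  refine (MvPolynomial.totalDegree_mul _ _).trans ?_
  rw [MvPolynomial.totalDegree_C, zero_add]
  exact egxY_deg D K α₀ Q hQ j

theorem egxP_deg (K : Type) [Field K] {n d : ℕ} (α₀ : Root D)
    (Q : Idx D → Idx D → MvPolynomial (Fin n) ℤ) (hQ : ∀ i j, (Q i j).totalDegree ≤ d)
    (h : G D K) (i j : Idx D) :
    (egxP D K α₀ Q h i j).totalDegree ≤ d + d := by
  unfold egxP
  refine (MvPolynomial.totalDegree_sub _ _).trans (max_le ?_ ?_)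
  · exact (MvPolynomial.totalDegree_mul _ _).trans
      (add_le_add (egxH_deg D K α₀ Q hQ h i) (egxY_deg D K α₀ Q hQ j))
  · exact (MvPolynomial.totalDegree_mul _ _).trans
      (add_le_add (egxH_deg D K α₀ Q hQ h j) (egxY_deg D K α₀ Q hQ i))

theorem egx_ev {R : Type*} [CommRing R] (A : Matrix (Idx D) (Idx D) R) (β : Root D) (i : Idx D) :
    (A *ᵥ ev D R β) i = A i (Sum.inr β) := by
  unfold ev
  rw [Matrix.mulVec_single_one]
  rfl

theorem egxY_eval (K L : Type) [Field K] [Field L] [Algebra K L] (W : List (Root D)) (α₀ : Root D)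
    (Q : Idx D → Idx D → MvPolynomial (Fin W.length) ℤ)
    (hQ : ∀ (R : Type) [CommRing R] (s : Fin W.length → R) (i j : Idx D),
      mat D (wd D W s) i j = MvPolynomial.aeval s (Q i j)) (s : Fin W.length → L) (i : Idx D) :
    MvPolynomial.aeval s (egxY D K α₀ Q i) = (mat D (wd D W s) *ᵥ ev D L α₀) i := by
  unfold egxY
  rw [egx_ev, hQ L s, MvPolynomial.aeval_map_algebraMap]

theorem egxH_eval (K L : Type) [Field K] [Field L] [Algebra K L] (W : List (Root D)) (α₀ : Root D)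
    (Q : Idx D → Idx D → MvPolynomial (Fin W.length) ℤ)
    (hQ : ∀ (R : Type) [CommRing R] (s : Fin W.length → R) (i j : Idx D),
      mat D (wd D W s) i j = MvPolynomial.aeval s (Q i j)) (s : Fin W.length → L) (h : G D K)
    (i : Idx D) :
    MvPolynomial.aeval s (egxH D K α₀ Q h i) =
      (mat D (Gmap D (algebraMap K L) h) *ᵥ (mat D (wd D W s) *ᵥ ev D L α₀)) i := by
  unfold egxH
  rw [map_sum, Matrix.mulVec, dotProduct]
  refine Finset.sum_congr rfl fun j _ => ?_
  rw [map_mul, egxY_eval D K L W α₀ Q hQ s j, MvPolynomial.aeval_C, mat_Gmap]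
  rfl

theorem egx_ev_ne {R : Type*} [Field R] (g : G D R) (β : Root D) :
    ∃ i, (mat D g *ᵥ ev D R β) i ≠ 0 := by
  by_contra hcon
  push Not at hcon
  have h0 : mat D g *ᵥ ev D R β = 0 := funext hcon
  have h1 : mat D g⁻¹ *ᵥ (mat D g *ᵥ ev D R β) = ev D R β := by
    rw [Matrix.mulVec_mulVec, ← mat_mul, inv_mul_cancel, mat_one, Matrix.one_mulVec]
  rw [h0, Matrix.mulVec_zero] at h1
  have h2 := congrFun h1 (Sum.inr β)
  simp [ev] at h2

theorem egxP_ne (K : Type) [Field K] (W : List (Root D)) (α₀ : Root D) (h₀ : IsHighest D α₀)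
    (hW : ∀ g : G D K, ∃ s : Fin W.length → K, g = wd D W s)
    (Q : Idx D → Idx D → MvPolynomial (Fin W.length) ℤ)
    (hQ : ∀ (R : Type) [CommRing R] (s : Fin W.length → R) (i j : Idx D),
      mat D (wd D W s) i j = MvPolynomial.aeval s (Q i j)) (h : G D K) (hh : h ≠ 1) :
    ∃ i j, egxP D K α₀ Q h i j ≠ 0 := by
  by_contra hcon
  push Not at hcon
  apply hh
  apply eq_one_of_line D α₀ h₀ h
  intro g
  obtain ⟨s, hs⟩ := hW g
  obtain ⟨j, hj⟩ := egx_ev_ne D g α₀
  have hG : Gmap D (algebraMap K K) h = h := by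
    apply mat_injective D
    rw [mat_Gmap]
    ext a b
    rfl
  have key : ∀ i, (mat D h *ᵥ (mat D g *ᵥ ev D K α₀)) i * (mat D g *ᵥ ev D K α₀) j =
      (mat D h *ᵥ (mat D g *ᵥ ev D K α₀)) j * (mat D g *ᵥ ev D K α₀) i := by
    intro i
    have h1 := congrArg (MvPolynomial.aeval (R := K) s) (hcon i j)
    unfold egxP at h1
    rw [map_sub, map_mul, map_mul, map_zero, egxH_eval D K K W α₀ Q hQ s h i,
      egxH_eval D K K W α₀ Q hQ s h j, egxY_eval D K K W α₀ Q hQ s i,
      egxY_eval D K K W α₀ Q hQ s j, hG, ← hs] at h1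
    exact sub_eq_zero.1 h1
  obtain ⟨c, hc⟩ : ∃ c, c = (mat D h *ᵥ (mat D g *ᵥ ev D K α₀)) j / (mat D g *ᵥ ev D K α₀) j :=
    ⟨_, rfl⟩
  refine ⟨c, ?_⟩
  have h2 : mat D h *ᵥ (mat D g *ᵥ ev D K α₀) = c • (mat D g *ᵥ ev D K α₀) := by
    funext i
    rw [Pi.smul_apply, smul_eq_mul, hc, div_mul_eq_mul_div, eq_div_iff hj]
    exact key i
  rw [mat_mul, mat_mul, ← Matrix.mulVec_mulVec, ← Matrix.mulVec_mulVec, h2,
    Matrix.mulVec_smul, Matrix.mulVec_mulVec, ← mat_mul, inv_mul_cancel, mat_one,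
    Matrix.one_mulVec]

theorem egx_point (K L : Type) [Field K] [Field L] [Finite L] [Algebra K L] {n : ℕ}
    (P : MvPolynomial (Fin n) K) (hP : P ≠ 0) (hd : P.totalDegree < Nat.card L) :
    ∃ s : Fin n → L, MvPolynomial.aeval s P ≠ 0 := by
  classical
  have : Fintype L := Fintype.ofFinite L
  by_contra hcon
  push Not at hcon
  apply hP
  have hinj := MvPolynomial.map_injective (σ := Fin n) (algebraMap K L) (algebraMap K L).injective
  apply hinj
  rw [map_zero]
  apply MvPolynomial.eq_zero_of_eval_zero_at_prod_finset _ (fun _ => (Finset.univ : Finset L))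
  · intro i
    refine lt_of_le_of_lt (MvPolynomial.degreeOf_le_totalDegree _ i) ?_
    rw [Finset.card_univ, ← Nat.card_eq_fintype_card]
    refine lt_of_le_of_lt ?_ hd
    unfold MvPolynomial.totalDegree
    exact Finset.sup_mono (MvPolynomial.support_map_subset _ _)
  · intro x _
    rw [MvPolynomial.eval_map, ← MvPolynomial.aeval_def]
    exact hcon x

theorem egx_card (K L : Type) [Field K] [Finite K] [Field L] [Finite L] [Algebra K L] :
    2 ^ Module.finrank K L ≤ Nat.card L := by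
  have : Fintype K := Fintype.ofFinite K
  have : Fintype L := Fintype.ofFinite L
  rw [Nat.card_eq_fintype_card, Module.card_eq_pow_finrank (K := K)]
  exact Nat.pow_le_pow_left Fintype.one_lt_card _

/-- over a large extension some conjugate of the small group meets the Borel subgroup (and even
the stabiliser of the highest root line) trivially -/
theorem exists_generic_x {K : Type} [Field K] [Finite K] (α₀ : Root D) (h₀ : IsHighest D α₀) :
    ∃ N₀ : ℕ, ∀ (L : Type) [Field L] [Finite L] [Algebra K L], N₀ ≤ Module.finrank K L →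
      ∃ x : G D L, ∀ h : G D K, h ≠ 1 → ∀ c : L,
        mat D (x⁻¹ * Gmap D (algebraMap K L) h * x) *ᵥ ev D L α₀ ≠ c • ev D L α₀ := by
  classical
  obtain ⟨W, hW⟩ := wd_cover D K
  obtain ⟨Q, hQd, hQ⟩ := wd_poly D W
  have hfin := egx_finite D K
  have : Fintype (G D K) := Fintype.ofFinite _
  choose ih jh hij using fun (h : {h : G D K // h ≠ 1}) => egxP_ne D K W α₀ h₀ hW Q hQ h.1 h.2
  have : Fintype {h : G D K // h ≠ 1} := Fintype.ofFinite _
  obtain ⟨P, hPdef⟩ : ∃ P : MvPolynomial (Fin W.length) K,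
    P = ∏ h : {h : G D K // h ≠ 1}, egxP D K α₀ Q h.1 (ih h) (jh h) := ⟨_, rfl⟩
  have hP0 : P ≠ 0 := by
    rw [hPdef]
    exact Finset.prod_ne_zero_iff.2 fun h _ => hij h
  refine ⟨P.totalDegree, ?_⟩
  intro L _ _ _ hN
  have hd : P.totalDegree < Nat.card L :=
    lt_of_le_of_lt hN (lt_of_lt_of_le Nat.lt_two_pow_self (egx_card K L))
  obtain ⟨s, hs⟩ := egx_point K L P hP0 hd
  refine ⟨wd D W s, ?_⟩
  intro h hh c hc
  apply hs
  rw [hPdef, map_prod]
  apply Finset.prod_eq_zero (Finset.mem_univ (⟨h, hh⟩ : {h : G D K // h ≠ 1}))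
  have h3 : mat D (Gmap D (algebraMap K L) h) *ᵥ (mat D (wd D W s) *ᵥ ev D L α₀) =
      c • (mat D (wd D W s) *ᵥ ev D L α₀) := by
    have h4 : mat D (wd D W s) *ᵥ (mat D ((wd D W s)⁻¹ * Gmap D (algebraMap K L) h * wd D W s) *ᵥ
        ev D L α₀) = mat D (wd D W s) *ᵥ (c • ev D L α₀) := by rw [hc]
    rw [Matrix.mulVec_mulVec, ← mat_mul, Matrix.mulVec_smul] at h4
    rw [← h4, Matrix.mulVec_mulVec, ← mat_mul]
    congr 2
    group
  unfold egxP
  rw [map_sub, map_mul, map_mul, egxH_eval D K L W α₀ Q hQ s h, egxH_eval D K L W α₀ Q hQ s h,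
    egxY_eval D K L W α₀ Q hQ s, egxY_eval D K L W α₀ Q hQ s, h3]
  simp only [Pi.smul_apply, smul_eq_mul]
  ring

/-- all simple roots, repeated `n` times -/
noncomputable def simpleWord (n : ℕ) : List (Root D) :=
  (List.replicate n ((List.finRange l).map (sr D))).flatten

theorem nv_nil {K : Type*} [Field K] : ∃ s : Fin ([] : List (Root D)).length → K,
    (1 : G D K) = wd D [] s := ⟨fun i => 0, by simp [wd]⟩

theorem nv_cons {K : Type*} [Field K] (α : Root D) (L : List (Root D)) (g : G D K) :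
    (∃ s : Fin (α :: L).length → K, g = wd D (α :: L) s) ↔
      ∃ (t : K) (g' : G D K), (∃ s : Fin L.length → K, g' = wd D L s) ∧ g = xg D α t * g' := by
  constructor
  · rintro ⟨s, rfl⟩
    refine ⟨s 0, wd D L (fun i => s i.succ), ⟨_, rfl⟩, ?_⟩
    unfold wd
    rw [show List.ofFn (fun i : Fin (α :: L).length => xg D ((α :: L).get i) (s i)) =
      xg D α (s 0) :: List.ofFn (fun i : Fin L.length => xg D (L.get i) (s i.succ)) from
        List.ofFn_succ, List.prod_cons]
  · rintro ⟨t, g', ⟨s, rfl⟩, rfl⟩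
    refine ⟨Fin.cons t s, ?_⟩
    unfold wd
    rw [show List.ofFn (fun i : Fin (α :: L).length => xg D ((α :: L).get i)
        ((Fin.cons t s : Fin (L.length + 1) → K) i)) =
      xg D α t :: List.ofFn (fun i : Fin L.length => xg D (L.get i) (s i)) from
        List.ofFn_succ, List.prod_cons]

theorem nv_append {K : Type*} [Field K] (L1 L2 : List (Root D)) (g1 g2 : G D K)
    (h1 : ∃ s : Fin L1.length → K, g1 = wd D L1 s)
    (h2 : ∃ s : Fin L2.length → K, g2 = wd D L2 s) :
    ∃ s : Fin (L1 ++ L2).length → K, g1 * g2 = wd D (L1 ++ L2) s := by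
  induction L1 generalizing g1 with
  | nil =>
    obtain ⟨s, rfl⟩ := h1
    have : wd D ([] : List (Root D)) s = 1 := by simp [wd]
    rw [this, one_mul]
    exact h2
  | cons α L ih =>
    obtain ⟨t, g', hg', rfl⟩ := (nv_cons D α L g1).1 h1
    rw [mul_assoc]
    exact (nv_cons D α (L ++ L2) _).2 ⟨t, g' * g2, ih g' hg', rfl⟩

theorem nv_one {K : Type*} [Field K] (L : List (Root D)) :
    ∃ s : Fin L.length → K, (1 : G D K) = wd D L s := by
  induction L with
  | nil => exact nv_nil D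
  | cons α L ih =>
    exact (nv_cons D α L _).2 ⟨0, 1, ih, by rw [xg_zero, one_mul]⟩

theorem nv_mem {K : Type*} [Field K] (L : List (Root D)) (α : Root D) (hα : α ∈ L) (t : K) :
    ∃ s : Fin L.length → K, xg D α t = wd D L s := by
  induction L with
  | nil => exact absurd hα (by simp)
  | cons β L ih =>
    rcases List.mem_cons.1 hα with h | h
    · rw [h]
      exact (nv_cons D β L _).2 ⟨t, 1, nv_one D L, by rw [mul_one]⟩
    · exact (nv_cons D β L _).2 ⟨0, _, ih h, by rw [xg_zero, one_mul]⟩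

theorem nv_succ {K : Type*} [Field K] (k : ℕ) (g : G D K) (i : Fin l)
    (hg : ∃ s : Fin (simpleWord D k).length → K, g = wd D (simpleWord D k) s) (t : K) :
    ∃ s : Fin (simpleWord D (k + 1)).length → K,
      g * xg D (sr D i) t = wd D (simpleWord D (k + 1)) s := by
  have h1 : simpleWord D (k + 1) = simpleWord D k ++ (List.finRange l).map (sr D) := by
    unfold simpleWord
    rw [List.replicate_succ', List.flatten_append, List.flatten_singleton]
  rw [h1]
  exact nv_append D _ _ _ _ hg (nv_mem D _ _ (List.mem_map.2 ⟨i, List.mem_finRange i, rfl⟩) t)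

theorem nv_succ' {K : Type*} [Field K] (k : ℕ) (g : G D K)
    (hg : ∃ s : Fin (simpleWord D k).length → K, g = wd D (simpleWord D k) s) :
    ∃ s : Fin (simpleWord D (k + 1)).length → K, g = wd D (simpleWord D (k + 1)) s := by
  have h1 : simpleWord D (k + 1) = simpleWord D k ++ (List.finRange l).map (sr D) := by
    unfold simpleWord
    rw [List.replicate_succ', List.flatten_append, List.flatten_singleton]
  rw [h1]
  have := nv_append D _ _ _ _ hg (nv_one (K := K) D ((List.finRange l).map (sr D)))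
  rwa [mul_one] at this

theorem nv_T {K : Type*} [Field K] (P : Finset (Root D)) (hP : AbIdeal D P) (i : Fin l)
    (γ : Root D) (hγ : γ ∈ P) :
    xM D (sr D i) (1 : K) *ᵥ ev D K γ - ev D K γ =
      ∑ δ ∈ P, (if δ.1 = (sr D i).1 + γ.1 then ((sgn D (sr D i).1 γ.1 : ℤ) : K) else 0) •
        ev D K δ := by
  classical
  obtain ⟨hb1, hb2⟩ := bil_range D (sr D i) γ
  by_cases h0 : 0 ≤ bil D (sr D i).1 γ.1
  · rw [xM_ev_fix D _ _ h0, sub_self]
    symm
    apply Finset.sum_eq_zero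
    intro δ _
    rw [if_neg, zero_smul]
    intro h
    have h2 := (add_root_iff D (sr D i) γ).1 (by rw [← h]; exact δ.2)
    omega
  · have h1 : bil D (sr D i).1 γ.1 ≠ -2 := by
      intro h2
      have h3 := (bil_eq_neg_two_iff D (sr D i) γ).1 h2
      have h4 := hP.pos γ hγ i
      rw [h3] at h4
      have h5 : (sr D i).1 i = 1 := by simp [sr]
      rw [Pi.neg_apply, h5] at h4
      omega
    have h2 : bil D (sr D i).1 γ.1 = -1 := by omega
    have h3 := (add_root_iff D (sr D i) γ).2 h2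
    obtain ⟨δ, hδ⟩ : ∃ δ : Root D, δ.1 = (sr D i).1 + γ.1 := ⟨⟨_, h3⟩, rfl⟩
    have hδP : δ ∈ P := hP.ideal γ hγ (sr D i) δ (pos_simple D i) (by rw [hδ, add_comm])
    rw [xM_ev_add D _ _ δ hδ, mul_one, add_sub_cancel_left, Finset.sum_eq_single δ]
    · rw [if_pos hδ]
    · intro δ' _ hne
      rw [if_neg, zero_smul]
      intro h
      exact hne (root_ext D (by rw [h, hδ]))
    · intro h; exact absurd hδP h

theorem nv_vec {K : Type*} [Field K] (P : Finset (Root D)) (a : Root D → K) (δ : Root D)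
    (A : Matrix (Idx D) (Idx D) K) :
    (A *ᵥ ∑ γ ∈ P, a γ • ev D K γ) (Sum.inr δ) =
      ∑ γ ∈ P, A (Sum.inr δ) (Sum.inr γ) * a γ := by
  rw [Matrix.mulVec_sum, Finset.sum_apply]
  refine Finset.sum_congr rfl (fun γ _ => ?_)
  rw [Matrix.mulVec_smul, Pi.smul_apply, smul_eq_mul, mul_comm]
  congr 1
  unfold ev
  simp

theorem nv_ind {K : Type*} [Field K] (α₀ : Root D) (h₀ : IsHighest D α₀)
    (P : Finset (Root D)) (hP : AbIdeal D P) (hα₀ : α₀ ∈ P) (lam : Root D → K)
    (hlam : lam α₀ ≠ 0) (k : ℕ) : ∀ a : Root D → K, (∃ γ ∈ P, a γ ≠ 0) →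
      (∀ γ ∈ P, a γ ≠ 0 → ht α₀.1 - k ≤ ht γ.1) →
      ∃ g : G D K, (∃ s : Fin (simpleWord D k).length → K, g = wd D (simpleWord D k) s) ∧
        ∑ δ ∈ P, lam δ * (mat D g *ᵥ ∑ γ ∈ P, a γ • ev D K γ) (Sum.inr δ) ≠ 0 := by
  classical
  induction k with
  | zero =>
    intro a ha hmin
    refine ⟨1, nv_one D _, ?_⟩
    have hz : ∀ γ ∈ P, γ ≠ α₀ → a γ = 0 := by
      intro γ hγ hne
      by_contra h
      have h1 := hmin γ hγ h
      have h2 := (h₀.2 γ (hP.pos γ hγ) hne).1
      push_cast at h1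
      omega
    have haα : a α₀ ≠ 0 := by
      obtain ⟨γ, hγ, hne⟩ := ha
      by_cases h : γ = α₀
      · rwa [h] at hne
      · exact absurd (hz γ hγ h) hne
    have hv : ∀ δ ∈ P, (mat D (1 : G D K) *ᵥ ∑ γ ∈ P, a γ • ev D K γ) (Sum.inr δ) = a δ := by
      intro δ hδ
      rw [nv_vec, mat_one, Finset.sum_eq_single δ]
      · simp
      · intro γ _ hne
        rw [Matrix.one_apply_ne, zero_mul]
        intro h
        exact hne (Sum.inr_injective h).symm
      · intro h; exact absurd hδ h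
    rw [Finset.sum_eq_single α₀]
    · rw [hv α₀ hα₀]
      exact mul_ne_zero hlam haα
    · intro δ hδ hne
      rw [hv δ hδ, hz δ hδ hne, mul_zero]
    · intro h; exact absurd hα₀ h
  | succ k ih =>
    intro a ha hmin
    by_cases hall : ∀ γ ∈ P, a γ ≠ 0 → ht α₀.1 - k ≤ ht γ.1
    · obtain ⟨g, hg, hne⟩ := ih a ha hall
      exact ⟨g, nv_succ' D k g hg, hne⟩
    · push Not at hall
      obtain ⟨γ₀, hγ₀, haγ, hht⟩ := hall
      have hne0 : γ₀ ≠ α₀ := by
        intro h
        rw [h] at hht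
        omega
      obtain ⟨i, hi⟩ := (h₀.2 γ₀ (hP.pos γ₀ hγ₀) hne0).2
      obtain ⟨b, hb⟩ : ∃ b : Root D → K, ∀ δ, b δ = ∑ γ ∈ P, a γ *
          (if δ.1 = (sr D i).1 + γ.1 then ((sgn D (sr D i).1 γ.1 : ℤ) : K) else 0) :=
        ⟨_, fun δ => rfl⟩
      have hTv : xM D (sr D i) (1 : K) *ᵥ (∑ γ ∈ P, a γ • ev D K γ) -
          ∑ γ ∈ P, a γ • ev D K γ = ∑ δ ∈ P, b δ • ev D K δ := by
        rw [Matrix.mulVec_sum, ← Finset.sum_sub_distrib]
        have e1 : ∀ γ ∈ P, xM D (sr D i) (1 : K) *ᵥ (a γ • ev D K γ) - a γ • ev D K γ =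
            ∑ δ ∈ P, (a γ * (if δ.1 = (sr D i).1 + γ.1 then
              ((sgn D (sr D i).1 γ.1 : ℤ) : K) else 0)) • ev D K δ := by
          intro γ hγ
          rw [Matrix.mulVec_smul, ← smul_sub, nv_T D P hP i γ hγ, Finset.smul_sum]
          refine Finset.sum_congr rfl (fun δ _ => ?_)
          rw [smul_smul]
        rw [Finset.sum_congr rfl e1, Finset.sum_comm]
        refine Finset.sum_congr rfl (fun δ _ => ?_)
        rw [hb, Finset.sum_smul]
      have h3 := (add_root_iff D (sr D i) γ₀).2 hi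
      obtain ⟨δ₀, hδ₀⟩ : ∃ δ : Root D, δ.1 = (sr D i).1 + γ₀.1 := ⟨⟨_, h3⟩, rfl⟩
      have hδP : δ₀ ∈ P := hP.ideal γ₀ hγ₀ (sr D i) δ₀ (pos_simple D i) (by rw [hδ₀, add_comm])
      have hbδ : b δ₀ ≠ 0 := by
        rw [hb, Finset.sum_eq_single γ₀]
        · rw [if_pos hδ₀]
          refine mul_ne_zero haγ ?_
          intro h
          have h5 := sgn_mul_self D (sr D i).1 γ₀.1
          have h6 : ((sgn D (sr D i).1 γ₀.1 : ℤ) : K) * ((sgn D (sr D i).1 γ₀.1 : ℤ) : K) = 1 := by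
            rw [← Int.cast_mul, h5, Int.cast_one]
          rw [h, zero_mul] at h6
          exact zero_ne_one h6
        · intro γ _ hne
          rw [if_neg, mul_zero]
          intro h
          apply hne
          apply root_ext
          rw [hδ₀] at h
          exact (add_left_cancel h).symm
        · intro h; exact absurd hγ₀ h
      have hbmin : ∀ δ ∈ P, b δ ≠ 0 → ht α₀.1 - k ≤ ht δ.1 := by
        intro δ _ hδ
        rw [hb] at hδ
        obtain ⟨γ, hγ, hne⟩ := Finset.exists_ne_zero_of_sum_ne_zero hδ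
        have hcond : δ.1 = (sr D i).1 + γ.1 := by
          by_contra h
          rw [if_neg h, mul_zero] at hne
          exact hne rfl
        have haγ' : a γ ≠ 0 := fun h => hne (by rw [h, zero_mul])
        have h7 := hmin γ hγ haγ'
        have h8 : ht δ.1 = 1 + ht γ.1 := by
          rw [hcond, ht_add]
          congr 1
          exact ht_single i
        push_cast at h7
        omega
      obtain ⟨g, hg, hne⟩ := ih b ⟨δ₀, hδP, hbδ⟩ hbmin
      by_cases hz : ∑ δ ∈ P, lam δ * (mat D g *ᵥ ∑ γ ∈ P, a γ • ev D K γ) (Sum.inr δ) = 0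
      · refine ⟨g * xg D (sr D i) 1, nv_succ D k g i hg 1, ?_⟩
        intro hz2
        apply hne
        rw [← hTv]
        have e2 : ∀ δ, (mat D g *ᵥ (xM D (sr D i) (1 : K) *ᵥ (∑ γ ∈ P, a γ • ev D K γ) -
            ∑ γ ∈ P, a γ • ev D K γ)) (Sum.inr δ) =
            (mat D (g * xg D (sr D i) 1) *ᵥ ∑ γ ∈ P, a γ • ev D K γ) (Sum.inr δ) -
            (mat D g *ᵥ ∑ γ ∈ P, a γ • ev D K γ) (Sum.inr δ) := by
          intro δ
          rw [Matrix.mulVec_sub, Pi.sub_apply, Matrix.mulVec_mulVec, mat_mul, mat_xg]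
        simp only [e2, mul_sub, Finset.sum_sub_distrib]
        rw [hz, hz2, sub_zero]
      · exact ⟨g, nv_succ' D k g hg, hz⟩

theorem nonvanish {K : Type*} [Field K] (α₀ : Root D) (h₀ : IsHighest D α₀)
    (P : Finset (Root D)) (hP : AbIdeal D P) (hα₀ : α₀ ∈ P) (lam a : Root D → K)
    (hlam : lam α₀ ≠ 0) (ha : ∃ γ ∈ P, a γ ≠ 0) (n : ℕ) (hn : ht α₀.1 ≤ n) :
    ∃ s : Fin (simpleWord D n).length → K,
      ∑ δ ∈ P, lam δ * ∑ γ ∈ P, mat D (wd D (simpleWord D n) s) (Sum.inr δ) (Sum.inr γ) * a γ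
        ≠ 0 := by
  obtain ⟨g, ⟨s, rfl⟩, hne⟩ := nv_ind D α₀ h₀ P hP hα₀ lam hlam n a ha (by
    intro γ hγ _
    have := (pos_iff_ht D γ).1 (hP.pos γ hγ)
    omega)
  refine ⟨s, ?_⟩
  simp only [nv_vec] at hne
  exact hne

/-- every character of the abelian group over `L` can be moved to one that is trivial over `K` and
has trivial stabiliser in the Borel subgroup over `K` modulo the abelian group -/
def GoodExt (P : Finset (Root D)) (α₀ : Root D) (K L : Type) [Field K] [Field L] [Algebra K L] :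
    Prop :=
  ∀ lam : Root D → L, lam α₀ ≠ 0 → ∃ (g : G D L) (lam' : Root D → L), g ∈ BG D L ∧
    (∀ γ ∈ P, lam' γ = ∑ δ ∈ P, lam δ * mat D g (Sum.inr δ) (Sum.inr γ)) ∧
    (∀ γ ∈ P, Algebra.trace K L (lam' γ) = 0) ∧
    ∀ b : G D K, b ∈ BG D K → b ∉ AG D K P → ∃ γ ∈ P,
      ∑ δ ∈ P, lam' δ * algebraMap K L
        (mat D b⁻¹ (Sum.inr δ) (Sum.inr γ) - if δ = γ then 1 else 0) ≠ 0

theorem ge_map_deg {σ : Type} {R S : Type*} [CommRing R] [CommRing S] (f : R →+* S)
    (p : MvPolynomial σ R) : (MvPolynomial.map f p).totalDegree ≤ p.totalDegree :=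
  Finset.sup_mono (MvPolynomial.support_map_subset _ _)

theorem ge_col {R : Type*} [CommRing R] (t : G D R) (χ : Root D → R)
    (ht : Mono D t (AddEquiv.refl _) χ) (w : G D R) (i : Idx D) (γ : Root D) :
    mat D (w * t) i (Sum.inr γ) = mat D w i (Sum.inr γ) * χ γ := by
  have h1 := ht.he γ γ rfl
  have h2 : ∀ A : Matrix (Idx D) (Idx D) R, (A *ᵥ ev D R γ) i = A i (Sum.inr γ) := by
    intro A
    unfold ev
    rw [Matrix.mulVec_single_one]
    rfl
  rw [← h2 (mat D (w * t)), mat_mul, ← Matrix.mulVec_mulVec, h1, Matrix.mulVec_smul,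
    Pi.smul_apply, h2, smul_eq_mul, mul_comm]

theorem ge_wd_mem {R : Type*} [CommRing R] (n : ℕ) (s : Fin (simpleWord D n).length → R) :
    wd D (simpleWord D n) s ∈ UG D R := by
  unfold wd
  apply Subgroup.list_prod_mem
  intro x hx
  rw [List.mem_ofFn] at hx
  obtain ⟨i, rfl⟩ := hx
  have h1 : (simpleWord D n).get i ∈ simpleWord D n := List.get_mem _ _
  obtain ⟨k, hk⟩ : ∃ k : Fin l, (simpleWord D n).get i = sr D k := by
    unfold simpleWord at h1
    rw [List.mem_flatten] at h1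
    obtain ⟨L', hL', hm⟩ := h1
    rw [List.eq_of_mem_replicate hL', List.mem_map] at hm
    obtain ⟨k, -, hk⟩ := hm
    exact ⟨k, hk.symm⟩
  exact Subgroup.subset_closure ⟨_, s i, by rw [hk]; exact pos_simple D k, rfl⟩

theorem exists_goodExt {K : Type} [Field K] [Finite K] (α₀ : Root D) (h₀ : IsHighest D α₀)
    (P : Finset (Root D)) (hP : AbIdeal D P) (hα₀ : α₀ ∈ P) :
    ∃ N₀ : ℕ, ∀ (L : Type) [Field L] [Finite L] [Algebra K L], N₀ ≤ Module.finrank K L →
      GoodExt D P α₀ K L := by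
  obtain ⟨ν, d, hd, hν⟩ := exists_rho D
  obtain ⟨n, hn⟩ : ∃ n : ℕ, n = (ht α₀.1).toNat := ⟨_, rfl⟩
  obtain ⟨Q, hQdeg, hQ⟩ := wd_poly D (simpleWord D n)
  obtain ⟨N0, hN0⟩ := poly_method (K := K) (σ := Fin (simpleWord D n).length)
    (Γ := {g : Root D // g ∈ P}) (2 * (simpleWord D n).length + d * (ht α₀.1).toNat)
  refine ⟨N0, ?_⟩
  intro L _ _ _ hL lam hlam
  have hhtpos : ∀ γ ∈ P, 0 < ht γ.1 := fun γ hγ => (pos_iff_ht D γ).1 (hP.pos γ hγ)
  have hhtle : ∀ γ ∈ P, ht γ.1 ≤ ht α₀.1 := by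
    intro γ hγ
    by_cases h : γ = α₀
    · rw [h]
    · exact (h₀.2 γ (hP.pos γ hγ) h).1.le
  obtain ⟨f, hf⟩ : ∃ f : {g : Root D // g ∈ P} → MvPolynomial (Fin (simpleWord D n).length) L,
      ∀ γ, f γ = ∑ δ ∈ P, MvPolynomial.C (lam δ) *
        MvPolynomial.map (Int.castRingHom L) (Q (Sum.inr δ) (Sum.inr γ.1)) := ⟨_, fun γ => rfl⟩
  have heval : ∀ (s : Fin (simpleWord D n).length → L) (γ : {g : Root D // g ∈ P}),
      MvPolynomial.eval s (f γ) = ∑ δ ∈ P, lam δ *
        mat D (wd D (simpleWord D n) s) (Sum.inr δ) (Sum.inr γ.1) := by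
    intro s γ
    rw [hf, map_sum]
    refine Finset.sum_congr rfl fun δ _ => ?_
    rw [map_mul, MvPolynomial.eval_C, MvPolynomial.eval_map, hQ L s]
    rfl
  have hfdeg : ∀ γ, (f γ).totalDegree ≤ 2 * (simpleWord D n).length + d * (ht α₀.1).toNat := by
    intro γ
    rw [hf]
    apply MvPolynomial.totalDegree_finsetSum_le
    intro δ _
    refine (MvPolynomial.totalDegree_mul _ _).trans ?_
    rw [MvPolynomial.totalDegree_C, zero_add]
    refine (ge_map_deg _ _).trans ((hQdeg _ _).trans ?_)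
    omega
  obtain ⟨k, hk⟩ : ∃ k : {g : Root D // g ∈ P} → ℕ, ∀ γ, k γ = d * (ht γ.1.1).toNat :=
    ⟨_, fun γ => rfl⟩
  have hkb : ∀ γ, 1 ≤ k γ ∧ k γ ≤ 2 * (simpleWord D n).length + d * (ht α₀.1).toNat := by
    intro γ
    have h1 := hhtpos γ.1 γ.2
    have h2 := hhtle γ.1 γ.2
    have h3 : 1 ≤ (ht γ.1.1).toNat := by omega
    have h4 : (ht γ.1.1).toNat ≤ (ht α₀.1).toNat := by omega
    rw [hk]
    refine ⟨Nat.one_le_iff_ne_zero.2 (Nat.mul_ne_zero (by omega) (by omega)), ?_⟩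
    exact (Nat.mul_le_mul_left d h4).trans (Nat.le_add_left _ _)
  obtain ⟨c, s, hc, htr, hne⟩ := hN0 L hL f k hfdeg hkb
  obtain ⟨t, ht'⟩ := exists_torus D ν (Units.mk0 c hc)
  have hχ : ∀ γ ∈ P, ((Units.mk0 c hc ^ (bil D ν γ.1) : Lˣ) : L) = c ^ (d * (ht γ.1).toNat) := by
    intro γ hγ
    have h1 := hhtpos γ hγ
    have h2 : bil D ν γ.1 = ((d * (ht γ.1).toNat : ℕ) : ℤ) := by
      rw [hν]
      push_cast
      rw [Int.toNat_of_nonneg h1.le]
    rw [h2, zpow_natCast, Units.val_pow_eq_pow_val, Units.val_mk0]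
  refine ⟨wd D (simpleWord D n) s * t, fun γ => c ^ (d * (ht γ.1).toNat) *
    ∑ δ ∈ P, lam δ * mat D (wd D (simpleWord D n) s) (Sum.inr δ) (Sum.inr γ), ?_, ?_, ?_, ?_⟩
  · exact mul_mem (Subgroup.mem_sup_right (ge_wd_mem D n s)) (Subgroup.mem_sup_left ⟨_, ht'⟩)
  · intro γ hγ
    show c ^ (d * (ht γ.1).toNat) * ∑ δ ∈ P, lam δ *
      mat D (wd D (simpleWord D n) s) (Sum.inr δ) (Sum.inr γ) = _
    rw [Finset.mul_sum]
    refine Finset.sum_congr rfl fun δ _ => ?_
    rw [ge_col D t _ ht', hχ γ hγ]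
    ring
  · intro γ hγ
    have h1 := htr ⟨γ, hγ⟩
    rw [heval, hk] at h1
    exact h1
  · intro b hb hbA
    have hb' : b⁻¹ ∈ BG D K := inv_mem hb
    have hbA' : b⁻¹ ∉ AG D K P := fun h => hbA (by simpa using inv_mem h)
    have h1 : ¬ ∀ γ ∈ P, ∀ δ : Root D,
        mat D b⁻¹ (Sum.inr δ) (Sum.inr γ) = if δ = γ then 1 else 0 :=
      fun h => hbA' (BG_centralizer D P hP b⁻¹ hb' h)
    push Not at h1
    obtain ⟨γ, hγ, δ₀, hδ₀⟩ := h1
    have hδ₀P : δ₀ ∈ P := by
      by_contra hnot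
      apply hδ₀
      rw [BG_support D P hP b⁻¹ hb' γ hγ (Sum.inr δ₀) (by
        intro δ hδ heq
        rw [Sum.inr.injEq] at heq
        rw [heq] at hnot
        exact hnot hδ), if_neg (by
        rintro rfl
        exact hnot hγ)]
    refine ⟨γ, hγ, ?_⟩
    obtain ⟨a, ha⟩ : ∃ a : Root D → K, ∀ δ, a δ =
        mat D b⁻¹ (Sum.inr δ) (Sum.inr γ) - if δ = γ then 1 else 0 := ⟨_, fun δ => rfl⟩
    have ha0 : a δ₀ ≠ 0 := by
      rw [ha]
      exact sub_ne_zero.2 hδ₀
    obtain ⟨s', hs'⟩ := nonvanish D α₀ h₀ P hP hα₀ lam (fun δ => algebraMap K L (a δ)) hlam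
      ⟨δ₀, hδ₀P, by
        rw [Ne, FaithfulSMul.algebraMap_eq_zero_iff]
        exact ha0⟩ n (by rw [hn]; exact Int.self_le_toNat _)
    have h2 : (∑ γ : {g : Root D // g ∈ P}, MvPolynomial.C (algebraMap K L (a γ.1)) * f γ) ≠ 0 := by
      intro h3
      apply hs'
      have h4 := congrArg (MvPolynomial.eval s') h3
      rw [map_sum, map_zero] at h4
      have h5 : ∀ γ : {g : Root D // g ∈ P},
          MvPolynomial.eval s' (MvPolynomial.C (algebraMap K L (a γ.1)) * f γ) =
          (fun γ : Root D => algebraMap K L (a γ) * ∑ δ ∈ P, lam δ *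
            mat D (wd D (simpleWord D n) s') (Sum.inr δ) (Sum.inr γ)) γ.1 := by
        intro γ
        rw [map_mul, MvPolynomial.eval_C, heval]
      rw [Finset.sum_congr rfl (fun γ _ => h5 γ)] at h4
      rw [Finset.sum_coe_sort P (fun γ : Root D => algebraMap K L (a γ) * ∑ δ ∈ P, lam δ *
            mat D (wd D (simpleWord D n) s') (Sum.inr δ) (Sum.inr γ))] at h4
      rw [← h4]
      simp only [Finset.mul_sum]
      rw [Finset.sum_comm]
      refine Finset.sum_congr rfl fun γ _ => Finset.sum_congr rfl fun δ _ => ?_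
      ring
    have h3 := hne (fun γ => a γ.1) h2
    have h4 : ∀ γ : {g : Root D // g ∈ P},
        algebraMap K L (a γ.1) * (c ^ k γ * MvPolynomial.eval s (f γ)) =
        (fun γ : Root D => algebraMap K L (a γ) * (c ^ (d * (ht γ.1).toNat) * ∑ δ ∈ P, lam δ *
            mat D (wd D (simpleWord D n) s) (Sum.inr δ) (Sum.inr γ))) γ.1 := by
      intro γ
      rw [heval, hk]
    rw [Finset.sum_congr rfl (fun γ _ => h4 γ)] at h3
    rw [Finset.sum_coe_sort P (fun γ : Root D => algebraMap K L (a γ) *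
      (c ^ (d * (ht γ.1).toNat) * ∑ δ ∈ P, lam δ *
            mat D (wd D (simpleWord D n) s) (Sum.inr δ) (Sum.inr γ)))] at h3
    intro h5
    apply h3
    rw [← h5]
    refine Finset.sum_congr rfl fun δ _ => ?_
    rw [← ha δ]
    ring

theorem j20180_map_sum {A M ι : Type*} [AddCommMonoid A] [CommMonoid M] (ψ : AddChar A M)
    (s : Finset ι) (f : ι → A) : ψ (∑ i ∈ s, f i) = ∏ i ∈ s, ψ (f i) := by
  classical
  induction s using Finset.induction_on with
  | empty => simp
  | insert a s ha ih =>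
    rw [Finset.sum_insert ha, Finset.prod_insert ha, AddChar.map_add_eq_mul, ih]

theorem j20180_XA_zero {R : Type*} [CommRing R] (P : Finset (Root D)) (hP : AbIdeal D P) :
    XA D P (0 : Root D → R) = 1 := by
  have h := XA_add D P hP (0 : Root D → R) 0
  rw [add_zero] at h
  exact (mul_eq_left.1 h.symm)

theorem j20180_XA_nsmul {R : Type*} [CommRing R] (P : Finset (Root D)) (hP : AbIdeal D P)
    (a : Root D → R) (n : ℕ) : XA D P (n • a) = XA D P a ^ n := by
  induction n with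
  | zero => rw [zero_smul, pow_zero, j20180_XA_zero D P hP]
  | succ n ih => rw [succ_nsmul, XA_add D P hP, ih, pow_succ]

theorem j20180_XA_mem {R : Type*} [CommRing R] (P : Finset (Root D)) (hP : AbIdeal D P)
    (a : Root D → R) : XA D P a ∈ AG D R P := (mem_AG D P hP _).2 ⟨a, rfl⟩

theorem j20180_xg_mem {R : Type*} [CommRing R] (P : Finset (Root D)) {γ : Root D} (hγ : γ ∈ P)
    (t : R) : xg D γ t ∈ AG D R P := Subgroup.subset_closure ⟨γ, t, hγ, rfl⟩

theorem j20180_conj {R : Type*} [CommRing R] (P : Finset (Root D)) (hP : AbIdeal D P)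
    (b : G D R) (hb : b ∈ BG D R) (y : G D R) (hy : y ∈ AG D R P) : b * y * b⁻¹ ∈ AG D R P := by
  have h : AG D R P ≤ (AG D R P).comap (MulAut.conj b).toMonoidHom := by
    refine (Subgroup.closure_le _).2 ?_
    rintro y ⟨β, t, hβ, rfl⟩
    show b * xg D β t * b⁻¹ ∈ AG D R P
    rw [BG_conj D P hP b hb β hβ]
    exact j20180_XA_mem D P hP _
  exact h hy

theorem j20180_Gmap_XA {R S : Type*} [CommRing R] [CommRing S] (f : R →+* S)
    (P : Finset (Root D)) (a : Root D → R) :
    Gmap D f (XA D P a) = XA D P (fun γ => f (a γ)) := by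
  unfold XA
  rw [map_list_prod, List.map_map]
  congr 2
  funext γ
  exact Gmap_xg D f γ (a γ)

theorem j20180_ev_map {R S : Type*} [CommRing R] [CommRing S] (f : R →+* S) (β : Root D) :
    f ∘ ev D R β = ev D S β := by
  funext i
  unfold ev
  by_cases h : i = Sum.inr β
  · subst h; simp
  · simp [Function.comp, h]

theorem j20180_hv_map {R S : Type*} [CommRing R] [CommRing S] (f : R →+* S)
    (y : Fin l → ℤ) : f ∘ hv D R y = hv D S y := by
  funext i
  rcases i with i | i <;> simp [hv]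

theorem j20180_Mono_map {R S : Type*} [CommRing R] [CommRing S] (f : R →+* S) {g : G D R}
    {w : (Fin l → ℤ) ≃+ (Fin l → ℤ)} {χ : Root D → R} (h : Mono D g w χ) :
    Mono D (Gmap D f g) w (fun β => f (χ β)) := by
  have hmv : ∀ v : Idx D → R, mat D (Gmap D f g) *ᵥ (f ∘ v) = f ∘ (mat D g *ᵥ v) := by
    intro v
    funext i
    rw [mat_Gmap]
    exact (RingHom.map_mulVec f (mat D g) v i).symm
  refine ⟨h.isom, ?_, ?_, ?_, ?_⟩
  · intro β β' hβ
    rw [← j20180_ev_map D f, hmv, h.he β β' hβ, ← j20180_ev_map D f]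
    funext i
    simp
  · intro y
    rw [← j20180_hv_map D f, hmv, h.hh, j20180_hv_map D f]
  · intro α β γ hγ
    have := congrArg f (h.hmul α β γ hγ)
    simpa using this
  · intro β
    rw [← map_mul, h.hneg, map_one]

theorem j20180_Gmap_BG {R S : Type*} [CommRing R] [CommRing S] (f : R →+* S) (b : G D R)
    (hb : b ∈ BG D R) : Gmap D f b ∈ BG D S := by
  have h : BG D R ≤ (BG D S).comap (Gmap D f) := by
    refine sup_le ?_ ?_
    · rintro t ⟨χ, ht⟩
      exact (le_sup_left : TG D S ≤ BG D S) ⟨_, j20180_Mono_map D f ht⟩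
    · refine (Subgroup.closure_le _).2 ?_
      rintro u ⟨β, t, hβ, rfl⟩
      show Gmap D f (xg D β t) ∈ BG D S
      rw [Gmap_xg]
      exact (le_sup_right : UG D S ≤ BG D S) (Subgroup.subset_closure ⟨β, f t, hβ, rfl⟩)
  exact h hb

theorem j20180_AG_fix {R : Type*} [CommRing R] (P : Finset (Root D)) (hP : AbIdeal D P)
    (y : G D R) (hy : y ∈ AG D R P) (γ : Root D) (hγ : γ ∈ P) :
    mat D y *ᵥ ev D R γ = ev D R γ := by
  refine Subgroup.closure_induction (p := fun y _ => mat D y *ᵥ ev D R γ = ev D R γ)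
    ?_ ?_ ?_ ?_ hy
  · rintro y ⟨β, t, hβ, rfl⟩
    rw [mat_xg]
    exact xM_ev_fix D β γ (hP.comm β hβ γ hγ) t
  · rw [mat_one, Matrix.one_mulVec]
  · intro x y _ _ hx hy
    rw [mat_mul, ← Matrix.mulVec_mulVec, hy, hx]
  · intro x _ hx
    conv_lhs => rw [← hx]
    rw [Matrix.mulVec_mulVec, ← mat_mul, inv_mul_cancel, mat_one, Matrix.one_mulVec]

theorem j20180_AG_mat {R : Type*} [CommRing R] (P : Finset (Root D)) (hP : AbIdeal D P)
    (y : G D R) (hy : y ∈ AG D R P) (γ : Root D) (hγ : γ ∈ P) (δ : Root D) :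
    mat D y (Sum.inr δ) (Sum.inr γ) = if δ = γ then 1 else 0 := by
  have h := congrFun (j20180_AG_fix D P hP y hy γ hγ) (Sum.inr δ)
  have h1 : (mat D y *ᵥ ev D R γ) (Sum.inr δ) = mat D y (Sum.inr δ) (Sum.inr γ) := by
    simp [ev]
  rw [h1] at h
  rw [h]
  unfold ev
  by_cases hd : δ = γ
  · subst hd; simp
  · rw [if_neg hd, Pi.single_apply, if_neg]
    intro hc
    exact hd (Sum.inr.inj hc)

theorem j20180_descend {K L : Type*} [Field K] [Field L] [Algebra K L] (P : Finset (Root D))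
    (hP : AbIdeal D P) (b : G D K) (hb : b ∈ BG D K)
    (h : Gmap D (algebraMap K L) b ∈ AG D L P) : b ∈ AG D K P := by
  refine BG_centralizer D P hP b hb fun γ hγ δ => ?_
  have h1 := j20180_AG_mat D P hP _ h γ hγ δ
  rw [mat_Gmap, Matrix.map_apply] at h1
  apply (algebraMap K L).injective
  rw [h1]
  split_ifs
  · rw [map_one]
  · rw [map_zero]

theorem j20180_ascend {K L : Type*} [Field K] [Field L] [Algebra K L] (P : Finset (Root D))
    (hP : AbIdeal D P) (b : G D K) (h : b ∈ AG D K P) :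
    Gmap D (algebraMap K L) b ∈ AG D L P := by
  obtain ⟨a, rfl⟩ := (mem_AG D P hP _).1 h
  rw [j20180_Gmap_XA]
  exact j20180_XA_mem D P hP _

/-- a character of the abelian group as an additive character -/
noncomputable def j20180_XC {L : Type*} [CommRing L] {E : Type*} [Field E]
    (P : Finset (Root D)) (hP : AbIdeal D P) (lc : AG D L P →* Eˣ) :
    AddChar (Root D → L) E where
  toFun a := ((lc ⟨XA D P a, j20180_XA_mem D P hP a⟩ : Eˣ) : E)
  map_zero_eq_one' := by
    have : (⟨XA D P (0 : Root D → L), j20180_XA_mem D P hP 0⟩ : AG D L P) = 1 :=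
      Subtype.ext (j20180_XA_zero D P hP)
    rw [this, map_one, Units.val_one]
  map_add_eq_mul' := by
    intro a b
    have : (⟨XA D P (a + b), j20180_XA_mem D P hP (a + b)⟩ : AG D L P) =
        ⟨XA D P a, j20180_XA_mem D P hP a⟩ * ⟨XA D P b, j20180_XA_mem D P hP b⟩ :=
      Subtype.ext (XA_add D P hP a b)
    rw [this, map_mul, Units.val_mul]

theorem j20180_GF {K L : Type*} [Field K] [Field L] [Algebra K L] {E : Type*} [Field E]
    (P : Finset (Root D)) (hP : AbIdeal D P) (lc : AG D L P →* Eˣ) (ψ : AddChar K E)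
    (lam : Root D → L)
    (h : ∀ (γ : Root D) (hγ : γ ∈ P) (t : L), ((lc ⟨xg D γ t, j20180_xg_mem D P hγ t⟩ : Eˣ) : E) =
      ψ (Algebra.trace K L (lam γ * t))) (a : Root D → L) :
    ((lc ⟨XA D P a, j20180_XA_mem D P hP a⟩ : Eˣ) : E) =
      ψ (Algebra.trace K L (∑ γ ∈ P, lam γ * a γ)) := by
  have h1 : XA D P a = XA D P (∑ γ ∈ P, (Pi.single γ (a γ) : Root D → L)) := by
    apply XA_congr
    intro γ hγ
    rw [Finset.sum_apply, Finset.sum_eq_single γ]
    · simp
    · intro b _ hb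
      exact Pi.single_eq_of_ne (Ne.symm hb) _
    · intro h; exact absurd hγ h
  have h2 : (⟨XA D P a, j20180_XA_mem D P hP a⟩ : AG D L P) =
      ⟨XA D P (∑ γ ∈ P, (Pi.single γ (a γ) : Root D → L)), j20180_XA_mem D P hP _⟩ :=
    Subtype.ext h1
  rw [h2]
  have h3 : ((lc ⟨XA D P (∑ γ ∈ P, (Pi.single γ (a γ) : Root D → L)),
      j20180_XA_mem D P hP _⟩ : Eˣ) : E) =
      j20180_XC D P hP lc (∑ γ ∈ P, (Pi.single γ (a γ) : Root D → L)) := rfl
  rw [h3, j20180_map_sum, map_sum, j20180_map_sum]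
  refine Finset.prod_congr rfl fun γ hγ => ?_
  rw [← h γ hγ]
  have h4 : (⟨XA D P (Pi.single γ (a γ)), j20180_XA_mem D P hP _⟩ : AG D L P) =
      ⟨xg D γ (a γ), j20180_xg_mem D P hγ (a γ)⟩ := Subtype.ext (XA_single D P γ hγ (a γ))
  show ((lc ⟨XA D P (Pi.single γ (a γ)), j20180_XA_mem D P hP _⟩ : Eˣ) : E) = _
  rw [h4]

/-- conjugation on the abelian group -/
noncomputable def j20180_cj {L : Type*} [CommRing L] (P : Finset (Root D)) (hP : AbIdeal D P)
    (g : G D L) (hg : g ∈ BG D L) : AG D L P →* AG D L P :=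
  ((MulAut.conj g).toMonoidHom.comp (AG D L P).subtype).codRestrict (AG D L P)
    (fun y => j20180_conj D P hP g hg y.1 y.2)

theorem j20180_cj_val {L : Type*} [CommRing L] (P : Finset (Root D)) (hP : AbIdeal D P)
    (g : G D L) (hg : g ∈ BG D L) (y : AG D L P) :
    ((j20180_cj D P hP g hg y : AG D L P) : G D L) = g * y * g⁻¹ := rfl

theorem j20180_AG_le_UG {R : Type*} [CommRing R] (P : Finset (Root D)) (hP : AbIdeal D P) :
    AG D R P ≤ UG D R := by
  refine (Subgroup.closure_le _).2 ?_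
  rintro y ⟨β, t, hβ, rfl⟩
  exact Subgroup.subset_closure ⟨β, t, hP.pos β hβ, rfl⟩

/-- `(B, θ)`-eigenvectors in representations of the big group -/
theorem exists_theta_vector {K L : Type} [Field K] [Finite K] [Field L] [Finite L] [Algebra K L]
    (p : ℕ) [Fact p.Prime] [CharP K p] (α₀ : Root D) (h₀ : IsHighest D α₀)
    (P : Finset (Root D)) (hP : AbIdeal D P) (hα₀ : α₀ ∈ P) (hext : GoodExt D P α₀ K L)
    {E V : Type*} [Field E] [IsAlgClosed E] (hpE : (p : E) ≠ 0) [AddCommGroup V] [Module E V]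
    [FiniteDimensional E V] (ρ : Representation E (G D L) V)
    (hρ : ∃ t : L, ρ (xg D α₀ t) ≠ 1) (θ : BG D K →* Eˣ)
    (hθ : ∀ b : BG D K, (b : G D K) ∈ AG D K P → θ b = 1) :
    ∃ v : V, v ≠ 0 ∧ ∀ b : BG D K,
      ρ (Gmap D (algebraMap K L) (b : G D K)) v = (θ b : E) • v := by
  classical
  have : CharP L p := charP_of_injective_algebraMap (algebraMap K L).injective p
  obtain ⟨t0, ht0⟩ := hρ
  -- the eigenvector of the abelian group
  have hcomm : ∀ a ∈ AG D L P, ∀ b ∈ AG D L P, a * b = b * a := by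
    intro a ha b hb
    obtain ⟨a, rfl⟩ := (mem_AG D P hP _).1 ha
    obtain ⟨b, rfl⟩ := (mem_AG D P hP _).1 hb
    rw [← XA_add D P hP, ← XA_add D P hP, add_comm]
  have hexp : ∀ a ∈ AG D L P, a ^ p = 1 := by
    intro a ha
    obtain ⟨a, rfl⟩ := (mem_AG D P hP _).1 ha
    rw [← j20180_XA_nsmul D P hP]
    have : p • a = 0 := by
      funext γ
      simp
    rw [this, j20180_XA_zero D P hP]
  obtain ⟨w, hw0, lamc, hw, hlam1⟩ := exists_A_eigenvector ρ (AG D L P) hcomm p hpE hexp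
    (xg D α₀ t0) (j20180_xg_mem D P hα₀ t0) ht0
  obtain ⟨ψ, ⟨t1, ht1⟩, hψ⟩ := exists_addChar (K := K) (L := L) (E := E) p hpE
  -- the functional
  have hχ : ∀ γ : Root D, ∃ c : L, ∀ (hγ : γ ∈ P) (t : L),
      ((lamc ⟨xg D γ t, j20180_xg_mem D P hγ t⟩ : Eˣ) : E) = ψ (Algebra.trace K L (c * t)) := by
    intro γ
    by_cases hγ : γ ∈ P
    · let χ : AddChar L E :=
        { toFun := fun t => ((lamc ⟨xg D γ t, j20180_xg_mem D P hγ t⟩ : Eˣ) : E)
          map_zero_eq_one' := by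
            have : (⟨xg D γ (0 : L), j20180_xg_mem D P hγ 0⟩ : AG D L P) = 1 :=
              Subtype.ext (xg_zero D γ)
            rw [this, map_one, Units.val_one]
          map_add_eq_mul' := by
            intro s t
            have : (⟨xg D γ (s + t), j20180_xg_mem D P hγ (s + t)⟩ : AG D L P) =
                ⟨xg D γ s, j20180_xg_mem D P hγ s⟩ * ⟨xg D γ t, j20180_xg_mem D P hγ t⟩ :=
              Subtype.ext (xg_add D γ s t)
            rw [this, map_mul, Units.val_mul] }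
      obtain ⟨c, hc⟩ := hψ χ
      exact ⟨c, fun _ t => hc t⟩
    · exact ⟨0, fun h => absurd h hγ⟩
  choose lam hlam using hχ
  have hlam0 : lam α₀ ≠ 0 := by
    intro h
    apply hlam1
    apply Units.ext
    rw [hlam α₀ hα₀, h, zero_mul, map_zero, AddChar.map_zero_eq_one, Units.val_one]
  have hGF := j20180_GF D P hP lamc ψ lam (fun γ hγ t => hlam γ hγ t)
  obtain ⟨g, lam', hg, hlam', htr, hsep⟩ := hext lam hlam0
  -- the moved eigenvector
  set lamc' : AG D L P →* Eˣ := lamc.comp (j20180_cj D P hP g hg) with hlamc'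
  set w' : V := ρ g⁻¹ w with hw'
  have hw'0 : w' ≠ 0 := by
    intro h
    apply hw0
    have h1 : ρ g w' = w := by
      rw [hw', ← Module.End.mul_apply, ← map_mul, mul_inv_cancel, map_one, Module.End.one_apply]
    rw [← h1, h, map_zero]
  have hw'e : ∀ y : AG D L P, ρ y w' = (lamc' y : E) • w' := by
    intro y
    have h1 : (y : G D L) * g⁻¹ = g⁻¹ * (g * y * g⁻¹) := by group
    rw [hw', ← Module.End.mul_apply, ← map_mul, h1, map_mul, Module.End.mul_apply]
    have h2 := hw (j20180_cj D P hP g hg y)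
    rw [j20180_cj_val] at h2
    rw [h2, map_smul]
    rfl
  have hlc' : ∀ (γ : Root D) (hγ : γ ∈ P) (t : L),
      ((lamc' ⟨xg D γ t, j20180_xg_mem D P hγ t⟩ : Eˣ) : E) =
      ψ (Algebra.trace K L (lam' γ * t)) := by
    intro γ hγ t
    have h1 : j20180_cj D P hP g hg ⟨xg D γ t, j20180_xg_mem D P hγ t⟩ =
        ⟨XA D P (fun δ => t * mat D g (Sum.inr δ) (Sum.inr γ)), j20180_XA_mem D P hP _⟩ :=
      Subtype.ext (BG_conj D P hP g hg γ hγ t)
    rw [hlamc', MonoidHom.comp_apply, h1, hGF, hlam' γ hγ, Finset.sum_mul]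
    congr 2
    refine Finset.sum_congr rfl fun δ _ => ?_
    ring
  have hGF' := j20180_GF D P hP lamc' ψ lam' hlc'
  -- the subgroup `B`
  have hinj : Function.Injective (Gmap D (algebraMap K L)) :=
    Gmap_injective D _ (algebraMap K L).injective
  set B : Subgroup (G D L) := (BG D K).map (Gmap D (algebraMap K L)) with hB
  have hBG : ∀ b ∈ B, b ∈ BG D L := by
    rintro b ⟨b0, hb0, rfl⟩
    exact j20180_Gmap_BG D _ b0 hb0
  have : Finite (G D K) := inferInstance
  have : Finite (BG D K) := inferInstance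
  have : Finite B := by
    have : (B : Set (G D L)).Finite := by
      rw [hB, Subgroup.coe_map]
      exact (Set.toFinite _).image _
    exact this.to_subtype
  have hnorm : ∀ b ∈ B, ∀ y ∈ AG D L P, b⁻¹ * y * b ∈ AG D L P := by
    intro b hb y hy
    have := j20180_conj D P hP b⁻¹ (inv_mem (hBG b hb)) y hy
    rwa [inv_inv] at this
  have hA : ∀ y : AG D L P, (y : G D L) ∈ B → lamc' y = 1 := by
    rintro ⟨y, hy⟩ ⟨b0, hb0, hb0y⟩
    simp only at hb0y
    subst hb0y
    obtain ⟨a, ha⟩ := (mem_AG D P hP _).1 (j20180_descend D P hP b0 hb0 hy)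
    have h1 : (⟨Gmap D (algebraMap K L) b0, hy⟩ : AG D L P) =
        ⟨XA D P (fun γ => algebraMap K L (a γ)), j20180_XA_mem D P hP _⟩ := by
      apply Subtype.ext
      show Gmap D (algebraMap K L) b0 = _
      rw [ha, j20180_Gmap_XA]
    apply Units.ext
    rw [h1, hGF', map_sum, Finset.sum_eq_zero, AddChar.map_zero_eq_one, Units.val_one]
    intro γ hγ
    have h2 : lam' γ * algebraMap K L (a γ) = a γ • lam' γ := by
      rw [Algebra.smul_def, mul_comm]
    rw [h2, map_smul, htr γ hγ, smul_zero]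
  have hcard : (Nat.card B : E) ≠ 0 ∨ (Nat.card (AG D L P ⊓ B : Subgroup (G D L)) : E) ≠ 0 := by
    right
    obtain ⟨k, hk⟩ := card_UG D (K := L) p
    have h1 : Nat.card (AG D L P ⊓ B : Subgroup (G D L)) ∣ p ^ k := by
      rw [← hk]
      exact Subgroup.card_dvd_of_le (inf_le_left.trans (j20180_AG_le_UG D P hP))
    obtain ⟨m, _, hm⟩ := (Nat.dvd_prime_pow (Fact.out : p.Prime)).1 h1
    rw [hm, Nat.cast_pow]
    exact pow_ne_zero _ hpE
  have hdist : ∀ (b : G D L) (hb : b ∈ B), b ∉ AG D L P →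
      ∃ y : AG D L P, lamc' ⟨b⁻¹ * y * b, hnorm b hb y y.2⟩ ≠ lamc' y := by
    rintro b ⟨b0, hb0, rfl⟩ hbA
    have hbA0 : b0 ∉ AG D K P := fun h => hbA (j20180_ascend D P hP b0 h)
    obtain ⟨γ, hγ, hz⟩ := hsep b0 hb0 hbA0
    set z := ∑ δ ∈ P, lam' δ * algebraMap K L
        (mat D b0⁻¹ (Sum.inr δ) (Sum.inr γ) - if δ = γ then 1 else 0) with hzdef
    obtain ⟨s, hs⟩ := Algebra.trace_surjective K L t1
    refine ⟨⟨xg D γ (s / z), j20180_xg_mem D P hγ _⟩, fun hcon => ht1 ?_⟩
    have hbi : (Gmap D (algebraMap K L) b0)⁻¹ = Gmap D (algebraMap K L) b0⁻¹ :=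
      (map_inv _ _).symm
    have h1 : (Gmap D (algebraMap K L) b0)⁻¹ * xg D γ (s / z) * Gmap D (algebraMap K L) b0 =
        XA D P (fun δ => s / z * algebraMap K L (mat D b0⁻¹ (Sum.inr δ) (Sum.inr γ))) := by
      have h2 := BG_conj D P hP (Gmap D (algebraMap K L) b0⁻¹)
        (j20180_Gmap_BG D _ _ (inv_mem hb0)) γ hγ (s / z)
      rw [← hbi, inv_inv] at h2
      rw [h2]
      rfl
    have h3 : (⟨(Gmap D (algebraMap K L) b0)⁻¹ * xg D γ (s / z) *
        Gmap D (algebraMap K L) b0, hnorm _ ⟨b0, hb0, rfl⟩ _ (j20180_xg_mem D P hγ _)⟩ :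
          AG D L P) = ⟨XA D P (fun δ => s / z * algebraMap K L
          (mat D b0⁻¹ (Sum.inr δ) (Sum.inr γ))), j20180_XA_mem D P hP _⟩ := Subtype.ext h1
    have h4 := congrArg (fun u : Eˣ => (u : E)) hcon
    simp only at h4
    rw [h3, hGF', hlc' γ hγ] at h4
    have h5 : ∑ δ ∈ P, lam' δ * (s / z * algebraMap K L
        (mat D b0⁻¹ (Sum.inr δ) (Sum.inr γ))) = s + lam' γ * (s / z) := by
      have h6 : z = ∑ δ ∈ P, lam' δ * algebraMap K L (mat D b0⁻¹ (Sum.inr δ) (Sum.inr γ)) -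
          lam' γ := by
        rw [hzdef]
        have h7 : ∀ δ ∈ P, lam' δ * algebraMap K L
            (mat D b0⁻¹ (Sum.inr δ) (Sum.inr γ) - if δ = γ then 1 else 0) =
            lam' δ * algebraMap K L (mat D b0⁻¹ (Sum.inr δ) (Sum.inr γ)) -
              (if δ = γ then lam' δ else 0) := by
          intro δ _
          split_ifs <;> simp [mul_sub]
        rw [Finset.sum_congr rfl h7, Finset.sum_sub_distrib, Finset.sum_ite_eq' P γ, if_pos hγ]
      have h8 : ∑ δ ∈ P, lam' δ * (s / z * algebraMap K L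
          (mat D b0⁻¹ (Sum.inr δ) (Sum.inr γ))) =
          s / z * ∑ δ ∈ P, lam' δ * algebraMap K L (mat D b0⁻¹ (Sum.inr δ) (Sum.inr γ)) := by
        rw [Finset.mul_sum]
        refine Finset.sum_congr rfl fun δ _ => ?_
        ring
      have h9 : ∑ δ ∈ P, lam' δ * algebraMap K L (mat D b0⁻¹ (Sum.inr δ) (Sum.inr γ)) =
          z + lam' γ := by rw [h6]; ring
      rw [h8, h9, mul_add, div_mul_cancel₀ _ hz]
      ring
    rw [h5, map_add, AddChar.map_add_eq_mul, hs] at h4
    have h10 : ψ (Algebra.trace K L (lam' γ * (s / z))) ≠ 0 := by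
      intro h0
      have := AddChar.map_neg_eq_inv ψ (Algebra.trace K L (lam' γ * (s / z)))
      have h11 : ψ (Algebra.trace K L (lam' γ * (s / z))) *
          ψ (-(Algebra.trace K L (lam' γ * (s / z)))) = 1 := by
        rw [← AddChar.map_add_eq_mul, add_neg_cancel, AddChar.map_zero_eq_one]
      rw [h0, zero_mul] at h11
      exact zero_ne_one h11
    exact mul_right_cancel₀ h10 (by rw [h4, one_mul])
  -- the transported character
  let eB : BG D K ≃* B := (BG D K).equivMapOfInjective (Gmap D (algebraMap K L)) hinj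
  have heB : ∀ b : BG D K, ((eB b : B) : G D L) = Gmap D (algebraMap K L) b := fun b =>
    Subgroup.coe_equivMapOfInjective_apply _ _ hinj b
  obtain ⟨v, hv0, hv⟩ := exists_B_eigenvector ρ (AG D L P) B w' hw'0 lamc' hw'e hnorm hA hcard
    hdist (θ.comp eB.symm.toMonoidHom) (by
      intro b hb
      obtain ⟨b0, rfl⟩ := eB.surjective b
      show θ (eB.symm (eB b0)) = 1
      rw [eB.symm_apply_apply]
      rw [heB] at hb
      exact hθ b0 (j20180_descend D P hP (b0 : G D K) b0.2 hb))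
  refine ⟨v, hv0, fun b => ?_⟩
  have h1 := hv (eB b)
  rw [heB] at h1
  rw [h1]
  show ((θ (eB.symm (eB b)) : Eˣ) : E) • v = _
  rw [eB.symm_apply_apply]

/-- regular characters of the Borel subgroup -/
theorem exists_regular {K E : Type*} [Field K] [Fintype K] [Field E] [IsAlgClosed E]
    (μ : Fin l → ℤ) (N : ℕ) (hμ : ∀ w : (Fin l → ℤ) ≃+ (Fin l → ℤ),
      (∀ x y, bil D (w x) (w y) = bil D x y) → (∃ x, w x ≠ x) →
      ∃ γ : Root D, bil D γ.1 (w μ - μ) ≠ 0 ∧ (bil D γ.1 (w μ - μ)).natAbs < N)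
    (r : ℕ) [Fact r.Prime] (hrN : N ≤ r) (hr : r ∣ Fintype.card K - 1) (hE : (r : E) ≠ 0) :
    ∃ θ : BG D K →* Eˣ, (∀ b : BG D K, (b : G D K) ∈ UG D K → θ b = 1) ∧
      ∀ n ∈ NG D K, n ∉ TG D K → ∃ t t' : BG D K, (t : G D K) ∈ TG D K ∧
        (t' : G D K) = n⁻¹ * t * n ∧ θ t' ≠ θ t := by
  obtain ⟨ω, c0, hω⟩ := exists_mulChar (K := K) (E := E) r hr hE
  obtain ⟨κ, hκU, hκT⟩ := exists_kappa D (K := K) μ
  refine ⟨ω.comp κ, fun b hb => by rw [MonoidHom.comp_apply, hκU b hb, map_one], ?_⟩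
  rintro n ⟨w, χ, hn⟩ hnT
  have hw : ∃ x, w x ≠ x := by
    by_contra h
    push Not at h
    have h1 : w = AddEquiv.refl _ := AddEquiv.ext h
    subst h1
    exact hnT ⟨χ, hn⟩
  obtain ⟨γ, hk0, hkN⟩ := hμ w hn.isom hw
  obtain ⟨t, ht⟩ := exists_torus D (R := K) γ.1 c0
  have ht' := conj_torus D hn ht
  have htT : t ∈ TG D K := ⟨_, ht⟩
  have ht'T : n⁻¹ * t * n ∈ TG D K := ⟨_, ht'⟩
  have hle : TG D K ≤ BG D K := le_sup_left
  refine ⟨⟨t, hle htT⟩, ⟨n⁻¹ * t * n, hle ht'T⟩, htT, rfl, ?_⟩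
  intro heq
  have h1 := hκT ⟨t, hle htT⟩ _ ht
  have h2 := hκT ⟨n⁻¹ * t * n, hle ht'T⟩ _ ht'
  have k1 := kappa_torus D (K := K) μ γ.1 (AddEquiv.refl _) (fun _ _ => rfl) c0
  have k2 := kappa_torus D (K := K) μ γ.1 w hn.isom c0
  have e1 : κ ⟨t, hle htT⟩ = c0 ^ (bil D γ.1 μ) := Units.ext (h1.trans k1)
  have e2 : κ ⟨n⁻¹ * t * n, hle ht'T⟩ = c0 ^ (bil D γ.1 (w μ)) := Units.ext (h2.trans k2)
  rw [MonoidHom.comp_apply, MonoidHom.comp_apply, e1, e2, map_zpow, map_zpow] at heq
  have h3 : ω c0 ^ (bil D γ.1 (w μ - μ)) = 1 := by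
    rw [bil_sub_right, _root_.zpow_sub, heq, mul_inv_cancel]
  have h4 := hω _ h3
  have h5 : r ∣ (bil D γ.1 (w μ - μ)).natAbs := Int.natCast_dvd.1 h4
  have h6 := Nat.le_of_dvd (Int.natAbs_pos.2 hk0) h5
  omega

theorem efo_AG_le {R : Type*} [CommRing R] (P : Finset (Root D)) (hP : AbIdeal D P) :
    AG D R P ≤ UG D R := by
  unfold AG UG
  refine Subgroup.closure_mono ?_
  rintro g ⟨β, t, hβ, rfl⟩
  exact ⟨β, t, hP.pos β hβ, rfl⟩

theorem efo_bil_nonneg (α₀ : Root D) (h₀ : IsHighest D α₀) (β : Root D) (hβ : Pos β.1) :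
    0 ≤ bil D β.1 α₀.1 := by
  by_contra hcon
  have hr := bil_range D β α₀
  have hβh := (pos_iff_ht D β).1 hβ
  have hαh := (pos_iff_ht D α₀).1 h₀.1
  have hcase : bil D β.1 α₀.1 = -1 ∨ bil D β.1 α₀.1 = -2 := by omega
  rcases hcase with h1 | h2
  · have h3 := (add_root_iff D β α₀).2 h1
    obtain ⟨γ, hγ⟩ : ∃ γ : Root D, γ.1 = β.1 + α₀.1 := ⟨⟨β.1 + α₀.1, h3⟩, rfl⟩
    have hγh : ht γ.1 = ht β.1 + ht α₀.1 := by rw [hγ, ht_add]
    have hγp : Pos γ.1 := (pos_iff_ht D γ).2 (by omega)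
    by_cases hne : γ = α₀
    · rw [hne] at hγh
      omega
    · have h4 := (h₀.2 γ hγp hne).1
      omega
  · have h3 := (bil_eq_neg_two_iff D β α₀).1 h2
    have h4 : ht α₀.1 = - ht β.1 := by rw [h3, ht_neg]
    omega

theorem efo_UG_fix {R : Type*} [CommRing R] (α₀ : Root D) (h₀ : IsHighest D α₀) (u : G D R)
    (hu : u ∈ UG D R) : mat D u *ᵥ ev D R α₀ = ev D R α₀ := by
  unfold UG at hu
  induction hu using Subgroup.closure_induction with
  | mem g hg =>
    obtain ⟨β, t, hβ, rfl⟩ := hg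
    rw [mat_xg]
    exact xM_ev_fix D β α₀ (efo_bil_nonneg D α₀ h₀ β hβ) t
  | one => rw [mat_one, Matrix.one_mulVec]
  | mul a b _ _ iha ihb => rw [mat_mul, ← Matrix.mulVec_mulVec, ihb, iha]
  | inv a _ iha =>
    have h1 : mat D (a⁻¹ * a) *ᵥ ev D R α₀ = ev D R α₀ := by
      rw [inv_mul_cancel, mat_one, Matrix.one_mulVec]
    rw [mat_mul, ← Matrix.mulVec_mulVec, iha] at h1
    exact h1

theorem efo_finite {M : Type} [Field M] [Finite M] : Finite (G D M) := by
  have h1 : Finite (Matrix (Idx D) (Idx D) M) :=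
    inferInstanceAs (Finite (Idx D → Idx D → M))
  exact Finite.of_injective (mat D (R := M)) (mat_injective D)

/-- a free orbit of the small group -/
theorem exists_free_orbit {K M L : Type} [Field K] [Finite K] [Field M] [Finite M] [Field L]
    [Finite L] [Algebra K M] [Algebra M L] [Algebra K L] [IsScalarTower K M L]
    (p : ℕ) [Fact p.Prime] [CharP K p] (α₀ : Root D) (h₀ : IsHighest D α₀)
    (P : Finset (Root D)) (hP : AbIdeal D P) (hα₀ : α₀ ∈ P) (hext : GoodExt D P α₀ M L)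
    (x : G D M) (hx : ∀ h : G D K, h ≠ 1 → ∀ c : M,
        mat D (x⁻¹ * Gmap D (algebraMap K M) h * x) *ᵥ ev D M α₀ ≠ c • ev D M α₀)
    {E V : Type*} [Field E] [IsAlgClosed E] (hpE : (p : E) ≠ 0) [AddCommGroup V] [Module E V]
    [FiniteDimensional E V] (ρ : Representation E (G D L) V)
    (hρ : ∃ t : L, ρ (xg D α₀ t) ≠ 1)
    (θ : BG D M →* Eˣ) (hθU : ∀ b : BG D M, (b : G D M) ∈ UG D M → θ b = 1)
    (hθreg : ∀ n ∈ NG D M, n ∉ TG D M → ∃ t t' : BG D M, (t : G D M) ∈ TG D M ∧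
        (t' : G D M) = n⁻¹ * t * n ∧ θ t' ≠ θ t) :
    ∃ v : V, LinearIndependent E
      (fun h : G D K => ρ (Gmap D (algebraMap K L) h) v) := by
  classical
  haveI : Finite (G D M) := efo_finite D
  haveI : CharP M p := charP_of_injective_algebraMap (FaithfulSMul.algebraMap_injective K M) p
  have hθA : ∀ b : BG D M, (b : G D M) ∈ AG D M P → θ b = 1 :=
    fun b hb => hθU b (efo_AG_le D P hP hb)
  obtain ⟨v, hv0, hv⟩ := exists_theta_vector D p α₀ h₀ P hP hα₀ hext hpE ρ hρ θ hθA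
  obtain ⟨k, hk⟩ := card_UG D (K := M) p
  have hUle : UG D M ≤ BG D M := le_sup_right
  have hTle : TG D M ≤ BG D M := le_sup_left
  have hmain := orbit_indep (E := E) (V := V) (G := G D M)
    (ρ.comp (Gmap D (algebraMap M L))) v hv0 (UG D M) (TG D M)
    (by rw [hk, Nat.cast_pow]; exact pow_ne_zero _ hpE) (NG D M) ⊤
    (fun g _ => bruhat D g)
    (fun t ht u hu => torus_conj_mem_UG D t ht u hu)
    (by
      rintro n ⟨w, χ, hn⟩ t ⟨χt, ht⟩
      exact ⟨_, conj_torus D hn ht⟩)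
    (fun g => if h : g ∈ BG D M then (θ ⟨g, h⟩ : E) else 0)
    (by
      intro u hu
      have h1 := hv ⟨u, hUle hu⟩
      rw [hθU ⟨u, hUle hu⟩ hu] at h1
      simpa using h1)
    (by
      intro t ht
      have h1 := hv ⟨t, hTle ht⟩
      rw [dif_pos (hTle ht)]
      exact h1)
    {g | ∃ c : M, mat D g *ᵥ ev D M α₀ = c • ev D M α₀}
    (by
      rintro n _ ⟨χ, hn⟩ u hu u' hu'
      refine ⟨χ α₀, ?_⟩
      rw [mat_mul, mat_mul, ← Matrix.mulVec_mulVec, ← Matrix.mulVec_mulVec,
        efo_UG_fix D α₀ h₀ u' hu', hn.he α₀ α₀ rfl, Matrix.mulVec_smul,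
        efo_UG_fix D α₀ h₀ u hu])
    (by
      intro n hn hnT
      obtain ⟨t, t', ht, ht', hne⟩ := hθreg n hn hnT
      refine ⟨(t : G D M), ht, ?_⟩
      rw [← ht', dif_pos t'.2, dif_pos t.2]
      intro h
      exact hne (Units.ext h))
    (Gmap D (algebraMap K M)).range le_top x (Subgroup.mem_top x)
    (by
      rintro h ⟨h', rfl⟩ hne ⟨c, hc⟩
      refine hx h' ?_ c hc
      intro h1
      apply hne
      rw [h1, map_one])
  refine ⟨ρ (Gmap D (algebraMap M L) x) v, ?_⟩
  have hinj : Function.Injective (fun h : G D K =>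
      (⟨Gmap D (algebraMap K M) h, ⟨h, rfl⟩⟩ : (Gmap D (algebraMap K M)).range)) := by
    intro a b hab
    exact Gmap_injective D (algebraMap K M) (FaithfulSMul.algebraMap_injective K M)
      (congrArg Subtype.val hab)
  have hfin := hmain.comp _ hinj
  have heq : (fun h : G D K => ρ (Gmap D (algebraMap K L) h) (ρ (Gmap D (algebraMap M L) x) v)) =
      (fun h : (Gmap D (algebraMap K M)).range =>
        (ρ.comp (Gmap D (algebraMap M L))) ((h : G D M) * x) v) ∘ (fun h : G D K =>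
      (⟨Gmap D (algebraMap K M) h, ⟨h, rfl⟩⟩ : (Gmap D (algebraMap K M)).range)) := by
    funext h
    show ρ (Gmap D (algebraMap K L) h) (ρ (Gmap D (algebraMap M L) x) v) =
      ρ (Gmap D (algebraMap M L) (Gmap D (algebraMap K M) h * x)) v
    rw [map_mul, map_mul, Gmap_comp, ← IsScalarTower.algebraMap_eq K M L]
    rfl
  rw [heq]
  exact hfin

/-- nontrivial irreducible representations are nontrivial on the highest root group -/
theorem exists_nontrivial {K F V : Type*} [Field K] [Field F] [AddCommGroup V] [Module F V]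
    [FiniteDimensional F V] (ρ : Representation F (G D K) V) (hirr : ρ.IsIrreducible)
    (hdim : 1 < Module.finrank F V) (α₀ : Root D) (h₀ : IsHighest D α₀) :
    ∃ t : K, ρ (xg D α₀ t) ≠ 1 := by
  by_contra hcon
  push Not at hcon
  have hall : ∀ (β : Root D) (t : K), ρ (xg D β t) = 1 := by
    intro β t
    obtain ⟨n, w, χ, hM, hw⟩ := exists_mono_highest (R := K) D α₀ h₀ β
    have h1 := hM.conj D α₀ β hw.symm (χ (rneg D α₀) * t)
    rw [← mul_assoc, hM.hneg, one_mul] at h1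
    rw [← h1, map_mul, map_mul, hcon, mul_one, ← map_mul, mul_inv_cancel, map_one]
  have hρ1 : ∀ g, ρ g = 1 := by
    intro g
    refine G_induction D (p := fun g => ρ g = 1) (map_one ρ) ?_ g
    intro g α t hg
    rw [map_mul, hg, hall, one_mul]
  haveI : Nontrivial V := Module.nontrivial_of_finrank_pos (R := F) (by omega)
  obtain ⟨v, hv⟩ := exists_ne (0 : V)
  let S : Subrepresentation ρ := ⟨Submodule.span F {v}, fun g x hx => by
    rw [hρ1]
    exact hx⟩
  have hS : S.toSubmodule = Submodule.span F {v} := rfl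
  rcases hirr.eq_bot_or_eq_top S with h | h
  · have h2 : S.toSubmodule = ⊥ := by rw [h]; rfl
    rw [hS, Submodule.span_singleton_eq_bot] at h2
    exact hv h2
  · have h2 : S.toSubmodule = ⊤ := by rw [h]; rfl
    rw [hS] at h2
    have h3 := finrank_span_singleton (K := F) hv
    rw [h2, finrank_top] at h3
    omega

open scoped TensorProduct in
/-- base change of a representation -/
noncomputable def j20205_rE {F H V : Type*} (E : Type*) [Field F] [Field E] [Algebra F E]
    [Group H] [AddCommGroup V] [Module F V] (ρ : Representation F H V) :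
    Representation E H (E ⊗[F] V) where
  toFun g := (ρ g).baseChange E
  map_one' := by
    rw [map_one]
    exact LinearMap.baseChange_id
  map_mul' := by
    intro a b
    rw [map_mul]
    exact LinearMap.baseChange_comp (ρ b) (ρ a)

theorem j20205_ne {F : Type*} [Field F] (r₁ r₂ : ℕ) (hr₁ : r₁.Prime) (hr₂ : r₂.Prime)
    (hne : r₁ ≠ r₂) (h : (r₁ : F) = 0) : (r₂ : F) ≠ 0 := by
  intro h2
  have hco : Nat.Coprime r₁ r₂ := (Nat.coprime_primes hr₁ hr₂).2 hne
  obtain ⟨u, v, huv⟩ := Nat.isCoprime_iff_coprime.2 hco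
  have h3 := congrArg (Int.cast : ℤ → F) huv
  push_cast at h3
  rw [h, h2, mul_zero, mul_zero, add_zero] at h3
  exact zero_ne_one h3

/-- from a free orbit over the algebraic closure to composition factors -/
theorem compFactor_of_good {K M L : Type} [Field K] [Finite K] [Field M] [Fintype M] [Field L]
    [Finite L] [Algebra K M] [Algebra M L] [Algebra K L] [IsScalarTower K M L]
    (p : ℕ) [Fact p.Prime] [CharP K p] (α₀ : Root D) (h₀ : IsHighest D α₀)
    (P : Finset (Root D)) (hP : AbIdeal D P) (hα₀ : α₀ ∈ P) (hext : GoodExt D P α₀ M L)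
    (x : G D M) (hx : ∀ h : G D K, h ≠ 1 → ∀ c : M,
        mat D (x⁻¹ * Gmap D (algebraMap K M) h * x) *ᵥ ev D M α₀ ≠ c • ev D M α₀)
    (μ : Fin l → ℤ) (N : ℕ) (hμ : ∀ w : (Fin l → ℤ) ≃+ (Fin l → ℤ),
      (∀ x y, bil D (w x) (w y) = bil D x y) → (∃ x, w x ≠ x) →
      ∃ γ : Root D, bil D γ.1 (w μ - μ) ≠ 0 ∧ (bil D γ.1 (w μ - μ)).natAbs < N)
    (r₁ r₂ : ℕ) (hr₁ : r₁.Prime) (hr₂ : r₂.Prime) (hne : r₁ ≠ r₂) (hN₁ : N ≤ r₁) (hN₂ : N ≤ r₂)
    (hd₁ : r₁ ∣ Fintype.card M - 1) (hd₂ : r₂ ∣ Fintype.card M - 1)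
    {F V S : Type*} [Field F] [AddCommGroup V] [Module F V] [FiniteDimensional F V]
    [AddCommGroup S] [Module F S] (hpF : (p : F) ≠ 0) (ρ : Representation F (G D L) V)
    (hirr : ρ.IsIrreducible) (hdim : 1 < Module.finrank F V)
    (τ : Representation F (G D K) S) (hτ : τ.IsIrreducible) :
    IsCompFactor τ (ρ.comp (Gmap D (algebraMap K L))) := by
  classical
  obtain ⟨t, ht⟩ := exists_nontrivial D ρ hirr hdim α₀ h₀
  obtain ⟨r, hr, hNr, hdr, hrF⟩ : ∃ r : ℕ, r.Prime ∧ N ≤ r ∧ r ∣ Fintype.card M - 1 ∧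
      (r : F) ≠ 0 := by
    by_cases h : (r₁ : F) = 0
    · exact ⟨r₂, hr₂, hN₂, hd₂, j20205_ne r₁ r₂ hr₁ hr₂ hne h⟩
    · exact ⟨r₁, hr₁, hN₁, hd₁, h⟩
  haveI : Fact r.Prime := ⟨hr⟩
  have hcast : ∀ n : ℕ, (n : F) ≠ 0 → (n : AlgebraicClosure F) ≠ 0 := by
    intro n hn h
    apply hn
    apply (algebraMap F (AlgebraicClosure F)).injective
    rw [map_natCast, map_zero]
    exact h
  obtain ⟨θ, hθU, hθreg⟩ := exists_regular D (K := M) (E := AlgebraicClosure F) μ N hμ r hNr hdr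
    (hcast r hrF)
  have hρE : ∃ t : L, j20205_rE (AlgebraicClosure F) ρ (xg D α₀ t) ≠ 1 := by
    refine ⟨t, fun h => ht ?_⟩
    apply LinearMap.ext
    intro v
    have h1 := LinearMap.congr_fun h (1 ⊗ₜ[F] v)
    have h2 : j20205_rE (AlgebraicClosure F) ρ (xg D α₀ t) (1 ⊗ₜ[F] v) =
        1 ⊗ₜ[F] (ρ (xg D α₀ t) v) := LinearMap.baseChange_tmul _ _ _
    rw [h2] at h1
    exact Module.FaithfullyFlat.tensorProduct_mk_injective (A := F) (B := AlgebraicClosure F) V h1
  obtain ⟨v, hv⟩ := exists_free_orbit D p α₀ h₀ P hP hα₀ hext x hx (hcast p hpF)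
    (j20205_rE (AlgebraicClosure F) ρ) hρE θ hθU hθreg
  exact compFactor_of_faithful τ (ρ.comp (Gmap D (algebraMap K L))) hτ
    (fun a ha => faithful_of_baseChange (ρ.comp (Gmap D (algebraMap K L))) v hv a ha)

/-- the main theorem for simply laced types -/
theorem main (hl : 0 < l) (K : Type) [Field K] [Finite K] : ∃ m : ℕ, 1 ≤ m ∧
    ∀ (L : Type) [Field L] [Algebra K L], Module.finrank K L = m →
    ∀ (F V S : Type*) [Field F] [AddCommGroup V] [Module F V] [FiniteDimensional F V]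
      [AddCommGroup S] [Module F S], (∀ p : ℕ, p.Prime → CharP K p → (p : F) ≠ 0) →
    ∀ (ρ : Representation F (G D L) V), ρ.IsIrreducible → 1 < Module.finrank F V →
    ∀ (τ : Representation F (G D K) S), τ.IsIrreducible →
      IsCompFactor τ (ρ.comp (Gmap D (algebraMap K L))) := by
  classical
  obtain ⟨p, hchar⟩ := CharP.exists K
  have hp : p.Prime := CharP.char_is_prime K p
  haveI : Fact p.Prime := ⟨hp⟩
  obtain ⟨α₀, hpos, hhigh⟩ := exists_highest D hl
  have h₀ : IsHighest D α₀ := ⟨hpos, hhigh⟩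
  obtain ⟨P, hα₀, p1, p2, p3, p4⟩ := exists_ideal D α₀ hpos hhigh
  have hP : AbIdeal D P := ⟨p1, p2, p3, p4⟩
  obtain ⟨μ, N, hμ⟩ := exists_generic D
  obtain ⟨r₁, r₂, hr₁, hr₂, hne, hN₁, hN₂, hdiv⟩ := exists_primes (Nat.card K) N
    Finite.one_lt_card
  obtain ⟨N1, hN1⟩ := exists_generic_x D (K := K) α₀ h₀
  set a : ℕ := (r₁ - 1) * (r₂ - 1) * (N1 + 1) with ha
  have hc0 : 0 < (r₁ - 1) * (r₂ - 1) :=
    Nat.mul_pos (Nat.sub_pos_of_lt hr₁.one_lt) (Nat.sub_pos_of_lt hr₂.one_lt)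
  have ha0 : 0 < a := Nat.mul_pos hc0 (Nat.succ_pos _)
  have haN : N1 ≤ a := by
    calc N1 ≤ 1 * (N1 + 1) := by omega
      _ ≤ a := Nat.mul_le_mul_right _ hc0
  haveI : NeZero a := ⟨ha0.ne'⟩
  letI : Fintype (FiniteField.Extension K p a) := Fintype.ofFinite _
  obtain ⟨N2, hN2⟩ := exists_goodExt D (K := FiniteField.Extension K p a) α₀ h₀ P hP hα₀
  refine ⟨a * (N2 + 1), Nat.mul_pos ha0 (Nat.succ_pos _), ?_⟩
  intro L _ _ hfin F V S _ _ _ _ _ _ hpF ρ hirr hdim τ hτ
  haveI : Module.Finite K L := Module.finite_of_finrank_pos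
    (by rw [hfin]; exact Nat.mul_pos ha0 (Nat.succ_pos _))
  haveI : Finite L := Module.finite_of_finite K
  have hK0 : Module.finrank K (FiniteField.Extension K p a) = a :=
    FiniteField.finrank_extension K p a
  obtain ⟨f⟩ := FiniteField.nonempty_algHom_of_finrank_dvd (F := K)
    (K := FiniteField.Extension K p a) (L := L) (by rw [hK0, hfin]; exact Dvd.intro _ rfl)
  letI : Algebra (FiniteField.Extension K p a) L := f.toRingHom.toAlgebra
  haveI : IsScalarTower K (FiniteField.Extension K p a) L :=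
    IsScalarTower.of_algebraMap_eq fun x => (f.commutes x).symm
  have hML : Module.finrank (FiniteField.Extension K p a) L = N2 + 1 := by
    have h1 := Module.finrank_mul_finrank K (FiniteField.Extension K p a) L
    rw [hK0, hfin] at h1
    exact Nat.eq_of_mul_eq_mul_left ha0 h1
  obtain ⟨x, hx⟩ := hN1 (FiniteField.Extension K p a) (by rw [hK0]; exact haN)
  have hext := hN2 L (by rw [hML]; omega)
  have hcard : Fintype.card (FiniteField.Extension K p a) = Nat.card K ^ a := by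
    rw [Fintype.card_eq_nat_card, FiniteField.natCard_extension]
  obtain ⟨d1, d2⟩ := hdiv a (Dvd.intro _ rfl)
  exact compFactor_of_good D p α₀ h₀ P hP hα₀ hext x hx μ N hμ r₁ r₂ hr₁ hr₂ hne hN₁.le hN₂.le
    (by rw [hcard]; exact d1) (by rw [hcard]; exact d2) (hpF p hp hchar) ρ hirr hdim τ hτ

end Pool.Agent.Helper255.CR
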