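import Pool.Agent.Helper255.CR.Top

set_option autoImplicit false

namespace Pool.Agent.Helper255.CR

variable {l : ℕ}

/-- the adjoint Chevalley group of the simply laced type `D` over `R`, as a type -/
def Chev (D : SLCartan l) (R : Type) [CommRing R] : Type := G D R

noncomputable instance instGroupChev (D : SLCartan l) (R : Type) [CommRing R] :
    Group (Chev D R) := Subgroup.toGroup (G D R)

/-- the entries of the matrix (in the adjoint representation) of an element -/
def Chev.entry {D : SLCartan l} {R : Type} [CommRing R] (g : Chev D R) (i j : Idx D) : R :=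
  g.1.1 i j

/-- the standard embedding of the group over `K` in the group over `L`: it maps the entries of
the matrices by the inclusion of `K` in `L` -/
def IsStandard (D : SLCartan l) {K L : Type} [Field K] [Field L] [Algebra K L]
    (j : Chev D K →* Chev D L) : Prop :=
  ∀ (g : Chev D K) (a b : Idx D), (j g).entry a b = algebraMap K L (g.entry a b)

/-- the representation `τ` is a quotient of a subrepresentation of `ρ`; for irreducible `τ` this
means that `τ` is a composition factor of `ρ` -/
def IsFactor {F H V S : Type*} [Field F] [Group H] [AddCommGroup V] [Module F V]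
    [AddCommGroup S] [Module F S] (τ : Representation F H S) (ρ : Representation F H V) : Prop :=
  ∃ (W : Subrepresentation ρ) (φ : Representation.IntertwiningMap W.toRepresentation τ),
    Function.Surjective φ.toLinearMap

theorem isStandard_Gmap (D : SLCartan l) {K L : Type} [Field K] [Field L] [Algebra K L] :
    ∃ j : Chev D K →* Chev D L, IsStandard D j ∧
      ∀ g : G D K, (j g : G D L) = Gmap D (algebraMap K L) g :=
  ⟨Gmap D (algebraMap K L), fun _ _ _ => rfl, fun _ => rfl⟩

theorem isFactor_of {F H V S : Type*} [Field F] [Group H] [AddCommGroup V] [Module F V]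
    [AddCommGroup S] [Module F S] (τ : Representation F H S) (ρ : Representation F H V)
    (h : IsCompFactor τ ρ) : IsFactor τ ρ := by
  obtain ⟨W, hW, φ, hφ, heq⟩ := h
  refine ⟨⟨W, fun g v hv => hW g v hv⟩, ⟨φ, ?_⟩, hφ⟩
  intro g
  ext w
  exact heq g w

end Pool.Agent.Helper255.CR
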